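import Pool.Agent.Lib.MP_acf5a6_lc.Arith

/-!
The dynamic program on lists, and polynomial running time of its parts.
-/

set_option autoImplicit false

namespace Pool.Agent.Lib.MP_caa638_lc

open Pool.Agent.Lib.MP_acf5a6_lc N487b59b3

/-- Membership test. -/
def memb {γ : Type} [DecidableEq γ] (l : List γ) (x : γ) : Bool :=
  !l.all (fun y => !decide (y = x))

@[simp] theorem memb_iff {γ : Type} [DecidableEq γ] {l : List γ} {x : γ} :
    memb l x = true ↔ x ∈ l := by simp [memb]

@[simp] theorem memb_false {γ : Type} [DecidableEq γ] {l : List γ} {x : γ} :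
    memb l x = false ↔ x ∉ l := by rw [← memb_iff, Bool.not_eq_true]

/-- Lists of length at most `k` with entries from `l`. -/
def tup {γ : Type} (l : List γ) : ℕ → List (List γ)
  | 0 => [[]]
  | k + 1 => [] :: l.flatMap (fun x => (tup l k).map (fun w => x :: w))

theorem mem_tup {γ : Type} (l : List γ) (k : ℕ) (w : List γ) :
    w ∈ tup l k ↔ w.length ≤ k ∧ ∀ x ∈ w, x ∈ l := by
  induction k generalizing w with
  | zero => cases w <;> simp [tup]
  | succ k ih =>
    cases w with
    | nil => simp [tup]
    | cons y w => simp [tup, ih]; tauto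

/-- The first element of a list, if any. -/
def first {γ : Type} (l : List (List γ)) : List (List γ) := cond l.isEmpty [] [l.headD []]

/-- Adjacency lists. -/
abbrev Gr := List (List ℕ)

/-- A job with its time and its processor. -/
abbrev Cell := ℕ × ℕ × ℕ

/-- The jobs. -/
def rng (G : Gr) : List ℕ := urange (ulen G)

/-- The arcs. -/
def arcs (G : Gr) : List (ℕ × ℕ) :=
  G.zipIdx.flatMap (fun x => (x.1.filter (fun v => decide (v < G.length))).map (fun v => (x.2, v)))

/-- All pairs of jobs. -/
def pairs (G : Gr) : List (ℕ × ℕ) := (rng G).flatMap (fun u => (rng G).map (fun v => (u, v)))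

/-- One round of the computation of the transitive closure. -/
def rstep (G : Gr) (R : List (ℕ × ℕ)) : List (ℕ × ℕ) :=
  (pairs G).filter (fun x => memb (arcs G) x ||
    (rng G).any (fun w => memb R (x.1, w) && memb (arcs G) (w, x.2)))

/-- The transitive closure. -/
def reach (G : Gr) : List (ℕ × ℕ) := (rstep G)^[G.length] []

/-- The basic priority. -/
def prio (G : Gr) (v : ℕ) : ℕ :=
  ((rng G).filter (fun w => memb (reach G) (v, w))).length * G.length + v

/-- Test for being in or above `C`. -/
def upb (G : Gr) (C : List ℕ) (v : ℕ) : Bool :=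
  memb C v || C.any (fun x => memb (reach G) (x, v))

/-- Test for being below an element of `W`. -/
def dnb (G : Gr) (W : List ℕ) (v : ℕ) : Bool := W.any (fun w => memb (reach G) (v, w))

/-- The thresholds. -/
def ths (G : Gr) : List ℕ := urange ((((ulen G).add ⟨1⟩).mul ((ulen G).add ⟨1⟩)).add ⟨1⟩)

/-- The basic lower sets. -/
def conds (m : ℕ) (G : Gr) : List (List ℕ) :=
  [true, false].flatMap (fun b => (tup (rng G) (3 * m)).flatMap (fun W => (ths G).map (fun θ =>
    (rng G).filter (fun v => (b || (dnb G W v && !upb G W v)) && decide (θ ≤ prio G v)))))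

/-- One more union with a basic lower set. -/
def ustep (m : ℕ) (G : Gr) (F : List (List ℕ)) : List (List ℕ) :=
  F ++ F.flatMap (fun U => (conds m G).map (fun D =>
    (rng G).filter (fun v => memb U v || memb D v)))

/-- The job sets of the dynamic program. -/
def fam (m : ℕ) (G : Gr) (F : List (List ℕ)) : List (List ℕ) :=
  [] :: F.flatMap (fun N => [true, false].flatMap (fun b =>
    (tup (rng G) (3 * m)).flatMap (fun C₁ => (tup (rng G) (3 * m)).flatMap (fun C₂ =>
      (tup (rng G) (3 * m)).map (fun S => (rng G).filter (fun v =>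
        ((b || (upb G C₁ v && !memb C₁ v)) && memb N v && !upb G C₂ v) || memb S v))))))

/-- The times. -/
def tms (G : Gr) : List ℕ := urange ((ulen G).add ⟨2⟩)

/-- All cells. -/
def cells (m : ℕ) (G : Gr) : List Cell :=
  (rng G).flatMap (fun v => (tms G).flatMap (fun s => (List.range m).map (fun p => (v, s, p))))

/-- Candidate slots. -/
def slots (m : ℕ) (G : Gr) : List (List Cell) := tup (cells m G) m

/-- The constraints between two cells. -/
def pairOk (G : Gr) (x y : Cell) : Bool :=
  (!decide (x.1 = y.1) || decide (x = y)) && (!decide (x.2 = y.2) || decide (x.1 = y.1)) &&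
    (!memb (arcs G) (x.1, y.1) || (decide (x.2.1 < y.2.1) &&
      (decide (x.2.2 = y.2.2) || decide (x.2.1 + 2 ≤ y.2.1))))

/-- All constraints hold. -/
def ok (G : Gr) (w : List Cell) : Bool := w.all (fun x => w.all (fun y => pairOk G x y))

/-- Interval, left slot, job set, right slot. -/
abbrev State := ℕ × ℕ × List Cell × List ℕ × List Cell

/-- The states of the dynamic program. -/
def states (m : ℕ) (G : Gr) (F : List (List ℕ)) : List State :=
  (tms G).flatMap (fun a => (tms G).flatMap (fun e => (slots m G).flatMap (fun L =>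
    (fam m G F).flatMap (fun B => (slots m G).map (fun R => (a, e, L, B, R))))))

/-- `w` is a solution of state `s`. -/
def chk (m : ℕ) (G : Gr) (s : State) (w : List Cell) : Bool :=
  ok G (s.2.2.1 ++ (w ++ s.2.2.2.2)) &&
    w.all (fun x => decide (s.1 < x.2.1) && decide (x.2.1 < s.2.1) && decide (x.2.2 < m) &&
      memb s.2.2.2.1 x.1) &&
    s.2.2.2.1.all (fun v => w.any (fun x => decide (x.1 = v))) &&
    decide (w.length + m ≤ m * (s.2.1 - s.1))

/-- Candidate solutions. -/
def cands (m : ℕ) (G : Gr) (tb : List (List Cell)) : List (List Cell) :=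
  [] :: tb.flatMap (fun w₁ => tb.flatMap (fun w₂ => (slots m G).map (fun M => w₁ ++ (M ++ w₂))))

/-- One round of the dynamic program. -/
def tstep (m : ℕ) (G : Gr) (F : List (List ℕ)) (tb : List (List Cell)) : List (List Cell) :=
  (states m G F).flatMap (fun s => first ((cands m G tb).filter (fun w => chk m G s w)))

/-- The final table. -/
def table (m : ℕ) (G : Gr) (F : List (List ℕ)) : List (List Cell) :=
  (tstep m G F)^[G.length + 1] []

/-- `w` is a complete schedule in the slots `1, …, T`. -/
def fchk (m : ℕ) (G : Gr) (T : ℕ) (w : List Cell) : Bool :=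
  ok G w && w.all (fun x => decide (0 < x.2.1) && decide (x.2.1 ≤ T) && decide (x.2.2 < m)) &&
    (rng G).all (fun v => w.any (fun x => decide (x.1 = v)))

/-- The shortest complete schedule of the table. -/
def best (m : ℕ) (G : Gr) (F : List (List ℕ)) : List Cell :=
  ((tms G).flatMap (fun T => (table m G F).filter (fun w => fchk m G T w))).headD []

/-- The cell of a job. -/
def look (w : List Cell) (v : ℕ) : Cell := (w.filter (fun x => decide (x.1 = v))).headD (0, 0, 0)

/-- Processor and start time of every job. -/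
def out (m : ℕ) (G : Gr) (F : List (List ℕ)) : List (ℕ × ℕ) :=
  (rng G).map (fun v => ((look (best m G F) v).2.2, (look (best m G F) v).2.1 - 1))

section PT

variable {α β : Type} [N487b59b3 α] [N487b59b3 β]

@[fun_prop] theorem memb_PT [DecidableEq β] {l : α → List β} {x : α → β} (hl : PT l) (hx : PT x) :
    PT (fun a => memb (l a) (x a)) := by
  unfold memb
  fun_prop

@[fun_prop] theorem any_PT {f : α → β → Bool} {l : α → List β}
    (hf : PT (fun x : α × β => f x.1 x.2)) (hl : PT l) : PT (fun a => (l a).any (f a)) :=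
  (PT.not' (PT.all (f := fun a b => !(f a b)) (by fun_prop) hl)).of_eq (fun a => by
    induction l a with
    | nil => rfl
    | cons b l ih => cases h : f a b <;> simp [h, ← ih])

@[fun_prop] theorem tup_PT {l : α → List β} (hl : PT l) (k : ℕ) : PT (fun a => tup (l a) k) := by
  induction k with
  | zero => exact PT.const _
  | succ k ih =>
    have h1 : PT (fun x : α × β => tup (l x.1) k) := PT.comp ih (by fun_prop)
    unfold tup
    fun_prop

@[fun_prop] theorem first_PT {l : α → List (List β)} (hl : PT l) : PT (fun a => first (l a)) := by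
  unfold first
  fun_prop

theorem sz_filter_le (l : List β) (f : β → Bool) : sz (l.filter f) ≤ sz l := by
  induction l with
  | nil => simp
  | cons b l ih => cases h : f b <;> simp [h] <;> omega

theorem sz_list_le (l : List β) {c : ℕ} (h : ∀ b ∈ l, sz b ≤ c) :
    sz l ≤ l.length * (2 * c + 1) := by
  induction l with
  | nil => simp
  | cons b l ih =>
    have h1 := h b List.mem_cons_self
    have h2 := ih (fun b hb => h b (List.mem_cons_of_mem _ hb))
    simp only [sz_cons, List.length_cons, add_mul]
    omega

@[fun_prop] theorem rng_PT {g : α → Gr} (hg : PT g) : PT (fun a => rng (g a)) := by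
  unfold rng
  fun_prop

@[fun_prop] theorem arcs_PT {g : α → Gr} (hg : PT g) : PT (fun a => arcs (g a)) := by
  unfold arcs
  fun_prop

@[fun_prop] theorem pairs_PT {g : α → Gr} (hg : PT g) : PT (fun a => pairs (g a)) := by
  unfold pairs
  fun_prop

@[fun_prop] theorem rstep_PT {g : α → Gr} {R : α → List (ℕ × ℕ)} (hg : PT g) (hR : PT R) :
    PT (fun a => rstep (g a) (R a)) := by
  unfold rstep
  fun_prop

@[fun_prop] theorem reach_PT {g : α → Gr} (hg : PT g) : PT (fun a => reach (g a)) := by
  have h := PT.iterP (g := fun (G : Gr) R => rstep G R) (h := fun _ => []) (c := fun G => ulen G)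
    (by fun_prop) (PT.const _) (by fun_prop) (PB.of_PT (pairs_PT PT.id')) (fun G i _ => by
      cases i with
      | zero => simp
      | succ i => rw [Function.iterate_succ_apply']; exact sz_filter_le _ _)
  exact PT.comp (h.of_eq (g := reach) (fun G => by simp [reach, ulen])) hg

@[fun_prop] theorem prio_PT {g : α → Gr} {v : α → ℕ} (hg : PT g) (hv : PT v) :
    PT (fun a => prio (g a) (v a)) := by
  unfold prio
  fun_prop

@[fun_prop] theorem upb_PT {g : α → Gr} {C : α → List ℕ} {v : α → ℕ} (hg : PT g) (hC : PT C)
    (hv : PT v) : PT (fun a => upb (g a) (C a) (v a)) := by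
  unfold upb
  fun_prop

@[fun_prop] theorem dnb_PT {g : α → Gr} {C : α → List ℕ} {v : α → ℕ} (hg : PT g) (hC : PT C)
    (hv : PT v) : PT (fun a => dnb (g a) (C a) (v a)) := by
  unfold dnb
  fun_prop

@[fun_prop] theorem ths_PT {g : α → Gr} (hg : PT g) : PT (fun a => ths (g a)) := by
  unfold ths
  fun_prop

@[fun_prop] theorem tms_PT {g : α → Gr} (hg : PT g) : PT (fun a => tms (g a)) := by
  unfold tms
  fun_prop

@[fun_prop] theorem conds_PT (m : ℕ) {g : α → Gr} (hg : PT g) :
    PT (fun a => conds m (g a)) := by
  unfold conds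
  fun_prop

@[fun_prop] theorem ustep_PT (m : ℕ) {g : α → Gr} {F : α → List (List ℕ)} (hg : PT g)
    (hF : PT F) : PT (fun a => ustep m (g a) (F a)) := by
  unfold ustep
  fun_prop

@[fun_prop] theorem fam_PT (m : ℕ) {g : α → Gr} {F : α → List (List ℕ)} (hg : PT g)
    (hF : PT F) : PT (fun a => fam m (g a) (F a)) := by
  unfold fam
  fun_prop

@[fun_prop] theorem cells_PT (m : ℕ) {g : α → Gr} (hg : PT g) :
    PT (fun a => cells m (g a)) := by
  unfold cells
  fun_prop

@[fun_prop] theorem slots_PT (m : ℕ) {g : α → Gr} (hg : PT g) :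
    PT (fun a => slots m (g a)) := by
  unfold slots
  fun_prop

@[fun_prop] theorem pairOk_PT {g : α → Gr} {x y : α → Cell} (hg : PT g) (hx : PT x) (hy : PT y) :
    PT (fun a => pairOk (g a) (x a) (y a)) := by
  unfold pairOk
  fun_prop

@[fun_prop] theorem ok_PT {g : α → Gr} {w : α → List Cell} (hg : PT g) (hw : PT w) :
    PT (fun a => ok (g a) (w a)) := by
  unfold ok
  fun_prop

@[fun_prop] theorem states_PT (m : ℕ) {g : α → Gr} {F : α → List (List ℕ)} (hg : PT g)
    (hF : PT F) : PT (fun a => states m (g a) (F a)) := by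
  unfold states
  fun_prop

@[fun_prop] theorem chk_PT (m : ℕ) {g : α → Gr} {s : α → State} {w : α → List Cell} (hg : PT g)
    (hs : PT s) (hw : PT w) : PT (fun a => chk m (g a) (s a) (w a)) := by
  unfold chk
  fun_prop

@[fun_prop] theorem cands_PT (m : ℕ) {g : α → Gr} {t : α → List (List Cell)} (hg : PT g)
    (ht : PT t) : PT (fun a => cands m (g a) (t a)) := by
  unfold cands
  fun_prop

@[fun_prop] theorem tstep_PT (m : ℕ) {g : α → Gr} {F : α → List (List ℕ)}
    {t : α → List (List Cell)} (hg : PT g) (hF : PT F) (ht : PT t) :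
    PT (fun a => tstep m (g a) (F a) (t a)) := by
  unfold tstep
  fun_prop

@[fun_prop] theorem fchk_PT (m : ℕ) {g : α → Gr} {T : α → ℕ} {w : α → List Cell} (hg : PT g)
    (hT : PT T) (hw : PT w) : PT (fun a => fchk m (g a) (T a) (w a)) := by
  unfold fchk
  fun_prop

@[fun_prop] theorem look_PT {w : α → List Cell} {v : α → ℕ} (hw : PT w) (hv : PT v) :
    PT (fun a => look (w a) (v a)) := by
  unfold look
  fun_prop

end PT

end Pool.Agent.Lib.MP_caa638_lc
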