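import Mathlib

/-!
Schedules of unit jobs with unit communication delays: exchanges, rearrangements of an interval
of time slots, and priority orders given by a list of lower sets.
-/

set_option autoImplicit false

namespace Pool.Agent.Lib.MP_caa638_lc

open Relation

/-- A time and a processor for every job. -/
structure Sch where
  t : ℕ → ℕ
  p : ℕ → ℕ

/-- The data of an instance: jobs `0, …, n - 1`, `m` processors, arcs, and a priority. -/
structure Ctx where
  n : ℕ
  m : ℕ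
  arc : ℕ → ℕ → Prop
  pr : ℕ → ℕ
  K : ℕ
  r : ℕ
  arc_lt : ∀ u v, arc u v → u < n ∧ v < n
  pr_arc : ∀ u v, arc u v → pr v < pr u
  pr_inj : ∀ u < n, ∀ v < n, pr u = pr v → u = v
  pr_lt : ∀ v < n, pr v < K
  r_ge : ∀ j, 2 ^ j ≤ n → j + 2 ≤ r
  r_one : 1 ≤ r

variable (c : Ctx)

/-- Feasible schedules. -/
structure Valid (σ : Sch) : Prop where
  rng : ∀ v < c.n, σ.p v < c.m
  inj : ∀ u < c.n, ∀ v < c.n, σ.t u = σ.t v → σ.p u = σ.p v → u = v
  fwd : ∀ u v, c.arc u v → σ.t u < σ.t v ∧ (σ.p u ≠ σ.p v → σ.t u + 2 ≤ σ.t v)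

/-- Exchange of the places of two jobs. -/
def Sch.swap (σ : Sch) (k j : ℕ) : Sch :=
  ⟨fun v => σ.t (Equiv.swap k j v), fun v => σ.p (Equiv.swap k j v)⟩

/-- `σ'` is feasible and differs from `σ` only inside the open interval `(a, e)`. -/
structure Rearr (σ σ' : Sch) (a e : ℕ) : Prop where
  valid : Valid c σ'
  out : ∀ v < c.n, ¬ (a < σ.t v ∧ σ.t v < e) → σ'.t v = σ.t v ∧ σ'.p v = σ.p v
  ins : ∀ v < c.n, a < σ.t v → σ.t v < e → a < σ'.t v ∧ σ'.t v < e

variable {c}

theorem Valid.lt {σ : Sch} (h : Valid c σ) {u v : ℕ} (huv : TransGen c.arc u v) :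
    σ.t u < σ.t v := by
  induction huv with
  | single h1 => exact (h.fwd _ _ h1).1
  | tail _ h1 ih => exact ih.trans (h.fwd _ _ h1).1

theorem Valid.le {σ : Sch} (h : Valid c σ) {u v : ℕ} (huv : ReflTransGen c.arc u v) :
    σ.t u ≤ σ.t v := by
  induction huv with
  | refl => exact le_rfl
  | tail _ h1 ih => exact ih.trans (h.fwd _ _ h1).1.le

theorem Valid.swap {σ : Sch} (h : Valid c σ) {k j : ℕ} (hk : k < c.n) (hj : j < c.n)
    (hkj : σ.t k < σ.t j) (h1 : ∀ s, c.arc k s → σ.t j + 2 ≤ σ.t s)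
    (h2 : ∀ q, c.arc q j → σ.t q + 2 ≤ σ.t k) : Valid c (σ.swap k j) := by
  have hlt : ∀ v < c.n, Equiv.swap k j v < c.n := by
    intro v hv
    rw [Equiv.swap_apply_def]
    split_ifs <;> assumption
  refine ⟨fun v hv => h.rng _ (hlt v hv), fun u hu v hv e1 e2 => ?_, fun u v huv => ?_⟩
  · exact (Equiv.swap k j).injective (h.inj _ (hlt u hu) _ (hlt v hv) e1 e2)
  · have f := h.fwd u v huv
    simp only [Sch.swap]
    by_cases huk : u = k
    · subst huk
      have := h1 v huv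
      have hv1 : v ≠ u := by rintro rfl; omega
      have hv2 : v ≠ j := by rintro rfl; omega
      rw [Equiv.swap_apply_left, Equiv.swap_apply_of_ne_of_ne hv1 hv2]
      omega
    by_cases huj : u = j
    · subst huj
      have hv1 : v ≠ k := by rintro rfl; omega
      have hv2 : v ≠ u := by rintro rfl; omega
      rw [Equiv.swap_apply_right, Equiv.swap_apply_of_ne_of_ne hv1 hv2]
      omega
    rw [Equiv.swap_apply_of_ne_of_ne huk huj]
    by_cases hvk : v = k
    · subst hvk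
      rw [Equiv.swap_apply_left]
      omega
    by_cases hvj : v = j
    · subst hvj
      have := h2 u huv
      rw [Equiv.swap_apply_right]
      omega
    rw [Equiv.swap_apply_of_ne_of_ne hvk hvj]
    exact f

theorem Rearr.refl {σ : Sch} (h : Valid c σ) (a e : ℕ) : Rearr c σ σ a e :=
  ⟨h, fun _ _ _ => ⟨rfl, rfl⟩, fun _ _ h1 h2 => ⟨h1, h2⟩⟩

theorem Rearr.iff {σ σ' : Sch} {a e : ℕ} (h : Rearr c σ σ' a e) {v : ℕ} (hv : v < c.n) :
    (a < σ'.t v ∧ σ'.t v < e) ↔ (a < σ.t v ∧ σ.t v < e) := by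
  constructor
  · intro h1
    by_contra h2
    rw [(h.out v hv h2).1] at h1
    exact h2 h1
  · intro h1
    exact h.ins v hv h1.1 h1.2

theorem Rearr.trans {σ σ' σ'' : Sch} {a e : ℕ} (h : Rearr c σ σ' a e) (h' : Rearr c σ' σ'' a e) :
    Rearr c σ σ'' a e := by
  refine ⟨h'.valid, fun v hv h1 => ?_, fun v hv h1 h2 => ?_⟩
  · have h2 := h.out v hv h1
    have h3 := h'.out v hv (by rw [h.iff hv]; exact h1)
    exact ⟨h3.1.trans h2.1, h3.2.trans h2.2⟩
  · have h3 := h.ins v hv h1 h2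
    exact h'.ins v hv h3.1 h3.2

theorem Rearr.mono {σ σ' : Sch} {a e a' e' : ℕ} (h : Rearr c σ σ' a e) (ha : a' ≤ a)
    (he : e ≤ e') : Rearr c σ σ' a' e' := by
  refine ⟨h.valid, fun v hv h1 => h.out v hv (by omega), fun v hv h1 h2 => ?_⟩
  by_cases h3 : a < σ.t v ∧ σ.t v < e
  · have := h.ins v hv h3.1 h3.2
    omega
  · rw [(h.out v hv h3).1]
    exact ⟨h1, h2⟩

/-- Outside the interval a rearrangement keeps the times. -/
theorem Rearr.time {σ σ' : Sch} {a e : ℕ} (h : Rearr c σ σ' a e) {v : ℕ} (hv : v < c.n) :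
    (σ'.t v = σ.t v ∧ ¬ (a < σ.t v ∧ σ.t v < e)) ∨
      (a < σ.t v ∧ σ.t v < e ∧ a < σ'.t v ∧ σ'.t v < e) := by
  by_cases h3 : a < σ.t v ∧ σ.t v < e
  · have := h.ins v hv h3.1 h3.2
    exact Or.inr ⟨h3.1, h3.2, this.1, this.2⟩
  · exact Or.inl ⟨(h.out v hv h3).1, h3⟩

theorem Rearr.swap {σ : Sch} {a e k j : ℕ} (h : Valid c (σ.swap k j))
    (hk : a < σ.t k ∧ σ.t k < e) (hj : a < σ.t j ∧ σ.t j < e) : Rearr c σ (σ.swap k j) a e := by
  refine ⟨h, fun v _ h1 => ?_, fun v _ h1 h2 => ?_⟩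
  · have hv1 : v ≠ k := by rintro rfl; exact h1 hk
    have hv2 : v ≠ j := by rintro rfl; exact h1 hj
    simp only [Sch.swap, Equiv.swap_apply_of_ne_of_ne hv1 hv2, and_self]
  · simp only [Sch.swap, Equiv.swap_apply_def]
    split_ifs
    · exact hj
    · exact hk
    · exact ⟨h1, h2⟩

/-- At most `m` jobs per time slot. -/
theorem Valid.card_le {σ : Sch} (h : Valid c σ) (s d : ℕ) :
    ((Finset.range c.n).filter (fun v => s ≤ σ.t v ∧ σ.t v < s + d)).card ≤ d * c.m := by
  have := Finset.card_le_card_of_injOn (s := (Finset.range c.n).filter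
    (fun v => s ≤ σ.t v ∧ σ.t v < s + d)) (t := Finset.Ico s (s + d) ×ˢ Finset.range c.m)
    (fun v => (σ.t v, σ.p v)) (by
      intro v hv
      simp only [Finset.coe_filter, Finset.mem_range, Set.mem_ofPred_eq] at hv
      simp only [Finset.coe_product, Finset.coe_Ico, Finset.coe_range, Set.mem_prod,
        Set.mem_Ico, Set.mem_Iio]
      exact ⟨hv.2, h.rng v hv.1⟩) (by
      intro u hu v hv huv
      simp only [Finset.coe_filter, Finset.mem_range, Set.mem_ofPred_eq] at hu hv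
      simp only [Prod.mk.injEq] at huv
      exact h.inj u hu.1 v hv.1 huv.1 huv.2)
  simpa using this

/-- Total priority of the jobs in the slots `e` and `e + 1`. -/
def phi (c : Ctx) (f : ℕ → ℕ) (e : ℕ) (σ : Sch) : ℕ :=
  ∑ v ∈ Finset.range c.n, if σ.t v = e ∨ σ.t v = e + 1 then f v else 0

theorem phi_rearr {σ σ' : Sch} {a e : ℕ} (h : Rearr c σ σ' a e) (f : ℕ → ℕ) :
    phi c f e σ' = phi c f e σ := by
  refine Finset.sum_congr rfl (fun v hv => ?_)
  have := h.time (Finset.mem_range.1 hv)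
  have e1 : (σ'.t v = e ∨ σ'.t v = e + 1) ↔ (σ.t v = e ∨ σ.t v = e + 1) := by omega
  simp only [e1]

theorem phi_swap {σ : Sch} {e k q : ℕ} (f : ℕ → ℕ) (hk : k < c.n) (hq : q < c.n)
    (h1 : σ.t k < e) (h2 : σ.t q = e ∨ σ.t q = e + 1) (h3 : f k < f q) :
    phi c f e (σ.swap k q) < phi c f e σ := by
  have hs : {a | Equiv.swap k q a ≠ a} ⊆ (Finset.range c.n : Set ℕ) := by
    intro a ha
    simp only [Set.mem_ofPred_eq, Equiv.swap_apply_def] at ha
    simp only [Finset.coe_range, Set.mem_Iio]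
    split_ifs at ha with g1 g2
    · omega
    · omega
    · exact absurd rfl ha
  have e1 := Equiv.Perm.sum_comp (Equiv.swap k q) (Finset.range c.n)
    (fun v => if σ.t v = e ∨ σ.t v = e + 1 then f (Equiv.swap k q v) else 0) hs
  simp only [Equiv.swap_apply_self] at e1
  have e2 : phi c f e (σ.swap k q) = _ := e1
  rw [e2]
  unfold phi
  refine Finset.sum_lt_sum (fun v _ => ?_) ⟨q, Finset.mem_range.2 hq, ?_⟩
  · split_ifs with g
    · have hv1 : v ≠ k := by rintro rfl; omega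
      by_cases hv2 : v = q
      · subst hv2
        rw [Equiv.swap_apply_right]
        exact h3.le
      · rw [Equiv.swap_apply_of_ne_of_ne hv1 hv2]
    · exact le_rfl
  · rw [if_pos h2, if_pos h2, Equiv.swap_apply_right]
    exact h3

theorem exists_min {β : Type} (P : β → Prop) (f : β → ℕ) (b : β) (hb : P b) :
    ∃ b', P b' ∧ ∀ b'', P b'' → f b' ≤ f b'' := by
  classical
  have hex : ∃ k, ∃ b', P b' ∧ f b' = k := ⟨f b, b, hb, rfl⟩
  obtain ⟨b', h1, h2⟩ := Nat.find_spec hex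
  exact ⟨b', h1, fun b'' h3 => h2 ▸ Nat.find_min' hex ⟨b'', h3, rfl⟩⟩

/-- The union of a list of sets. -/
def un (l : List (Set ℕ)) : Set ℕ := {v | ∃ D ∈ l, v ∈ D}

@[simp] theorem mem_un_nil (v : ℕ) : v ∈ un [] ↔ False := by simp [un]

@[simp] theorem mem_un_cons (D : Set ℕ) (l : List (Set ℕ)) (v : ℕ) :
    v ∈ un (D :: l) ↔ v ∈ D ∨ v ∈ un l := by simp [un]

@[simp] theorem mem_un_append (l l' : List (Set ℕ)) (v : ℕ) :
    v ∈ un (l ++ l') ↔ v ∈ un l ∨ v ∈ un l' := by
  simp only [un, List.mem_append, Set.mem_ofPred_eq]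
  constructor
  · rintro ⟨D, h | h, hv⟩
    · exact Or.inl ⟨D, h, hv⟩
    · exact Or.inr ⟨D, h, hv⟩
  · rintro (⟨D, h, hv⟩ | ⟨D, h, hv⟩)
    · exact ⟨D, Or.inl h, hv⟩
    · exact ⟨D, Or.inr h, hv⟩

open Classical in
/-- The priority given by a list of sets: first the earliest set containing the job, then the
basic priority. -/
noncomputable def rk (c : Ctx) : List (Set ℕ) → ℕ → ℕ
  | [], v => c.pr v
  | D :: l, v => if v ∈ D then c.K * (l.length + 1) + c.pr v else rk c l v

theorem rk_lt (l : List (Set ℕ)) {v : ℕ} (hv : v < c.n) : rk c l v < c.K * (l.length + 1) := by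
  have := c.pr_lt v hv
  induction l with
  | nil => simpa [rk] using this
  | cons D l ih =>
    simp only [rk, List.length_cons]
    split_ifs
    · nlinarith
    · nlinarith

theorem rk_mod (l : List (Set ℕ)) {v : ℕ} (hv : v < c.n) : rk c l v % c.K = c.pr v := by
  have := c.pr_lt v hv
  induction l with
  | nil => simpa [rk] using Nat.mod_eq_of_lt this
  | cons D l ih =>
    simp only [rk]
    split_ifs
    · rw [Nat.mul_add_mod, Nat.mod_eq_of_lt this]
    · exact ih

theorem rk_inj (l : List (Set ℕ)) {u v : ℕ} (hu : u < c.n) (hv : v < c.n)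
    (h : rk c l u = rk c l v) : u = v :=
  c.pr_inj u hu v hv (by rw [← rk_mod l hu, ← rk_mod l hv, h])

/-- Lower sets of the precedence order. -/
def Lower (c : Ctx) (D : Set ℕ) : Prop := ∀ u v, c.arc u v → v ∈ D → u ∈ D

theorem rk_arc {l : List (Set ℕ)} (hl : ∀ D ∈ l, Lower c D) {u v : ℕ} (h : c.arc u v) :
    rk c l v < rk c l u := by
  have h1 := c.pr_arc u v h
  induction l with
  | nil => simpa [rk] using h1
  | cons D l ih =>
    simp only [rk]
    by_cases hv : v ∈ D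
    · rw [if_pos hv, if_pos (hl D List.mem_cons_self u v h hv)]
      omega
    · rw [if_neg hv]
      split_ifs
      · have := rk_lt (c := c) l (c.arc_lt u v h).2
        omega
      · exact ih (fun D hD => hl D (List.mem_cons_of_mem _ hD))

theorem rk_le {l : List (Set ℕ)} (hl : ∀ D ∈ l, Lower c D) {u v : ℕ}
    (h : ReflTransGen c.arc u v) : rk c l v ≤ rk c l u := by
  induction h with
  | refl => exact le_rfl
  | tail _ h1 ih => exact (rk_arc hl h1).le.trans ih

theorem Lower.un {l : List (Set ℕ)} (hl : ∀ D ∈ l, Lower c D) : Lower c (un l) := by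
  rintro u v h ⟨D, hD, hv⟩
  exact ⟨D, hD, hl D hD u v h hv⟩

theorem Lower.le {D : Set ℕ} (hD : Lower c D) {u v : ℕ} (h : ReflTransGen c.arc u v)
    (hv : v ∈ D) : u ∈ D := by
  induction h with
  | refl => exact hv
  | tail _ h1 ih => exact ih (hD _ _ h1 hv)

theorem rk_split (l₁ l₂ : List (Set ℕ)) (D : Set ℕ) {k v : ℕ} (hk : k < c.n) (hv : v < c.n)
    (h1 : k ∉ un l₁) (h2 : k ∈ D) :
    rk c (l₁ ++ D :: l₂) k < rk c (l₁ ++ D :: l₂) v ↔
      v ∈ un l₁ ∨ (v ∈ D ∧ c.pr k < c.pr v) := by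
  induction l₁ with
  | nil =>
    simp only [List.nil_append, rk, if_pos h2, mem_un_nil, false_or]
    split_ifs with h3
    · simp [h3]
    · have := rk_lt (c := c) l₂ hv
      simp only [h3, false_and, iff_false]
      omega
  | cons E l₁ ih =>
    simp only [mem_un_cons, not_or] at h1
    simp only [List.cons_append, rk, if_neg h1.1, mem_un_cons]
    split_ifs with h3
    · have := rk_lt (c := c) (l₁ ++ D :: l₂) hk
      simp only [h3, true_or, iff_true]
      omega
    · rw [ih h1.2]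
      simp [h3]

theorem exists_split {l : List (Set ℕ)} {k : ℕ} (h : k ∈ un l) :
    ∃ l₁ D l₂, l = l₁ ++ D :: l₂ ∧ k ∉ un l₁ ∧ k ∈ D := by
  induction l with
  | nil => simp at h
  | cons E l ih =>
    by_cases hE : k ∈ E
    · exact ⟨[], E, l, rfl, by simp, hE⟩
    · simp only [mem_un_cons, hE, false_or] at h
      obtain ⟨l₁, D, l₂, e, h1, h2⟩ := ih h
      exact ⟨E :: l₁, D, l₂, by simp [e], by simp [hE, h1], h2⟩

end Pool.Agent.Lib.MP_caa638_lc
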