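import Pool.Agent.Lib.MP_caa638_lc.Basic

/-!
Every feasible schedule can be rearranged and cut recursively at time slots so that the set of
jobs of every interval that appears has a short description.
-/

set_option autoImplicit false

namespace Pool.Agent.Lib.MP_caa638_lc

open Relation

variable (c : Ctx)

/-- Jobs above or in `C`. -/
def Up (C : Finset ℕ) : Set ℕ := {v | ∃ x ∈ C, ReflTransGen c.arc x v}

/-- Jobs strictly below an element of `W`. -/
def Down (W : Finset ℕ) : Set ℕ := {v | ∃ w ∈ W, TransGen c.arc v w}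

/-- The basic lower sets. -/
def IsCond (D : Set ℕ) : Prop :=
  ∃ (b : Bool) (W : Finset ℕ) (θ : ℕ), W ⊆ Finset.range c.n ∧ W.card ≤ 3 * c.m ∧ θ ≤ c.K ∧
    D = {v | (b = true ∨ (v ∈ Down c W ∧ v ∉ Up c W)) ∧ θ ≤ c.pr v}

/-- The sets cut out by a left boundary. -/
def IsX (X : Set ℕ) : Prop :=
  ∃ (b : Bool) (C : Finset ℕ), C ⊆ Finset.range c.n ∧ C.card ≤ 3 * c.m ∧
    X = {v | b = true ∨ (v ∈ Up c C ∧ v ∉ C)}

/-- The sets of jobs with a short description. -/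
def InFam (B : Set ℕ) : Prop :=
  ∃ (X : Set ℕ) (l : List (Set ℕ)) (C S : Finset ℕ), IsX c X ∧ (∀ D ∈ l, IsCond c D) ∧
    l.length ≤ c.r ∧ C ⊆ Finset.range c.n ∧ C.card ≤ 3 * c.m ∧ S ⊆ Finset.range c.n ∧
    S.card ≤ 3 * c.m ∧ B = {v | v < c.n ∧ ((v ∈ X ∧ v ∈ un l ∧ v ∉ Up c C) ∨ v ∈ S)}

/-- The jobs in the open interval `(a, e)`. -/
def jobs (σ : Sch) (a e : ℕ) : Set ℕ := {v | v < c.n ∧ a < σ.t v ∧ σ.t v < e}

/-- The jobs in the `d` slots from `s` on. -/
def win (σ : Sch) (s d : ℕ) : Finset ℕ :=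
  (Finset.range c.n).filter (fun v => s ≤ σ.t v ∧ σ.t v < s + d)

/-- Intervals that can be cut recursively. -/
inductive Der : Sch → ℕ → ℕ → Prop
  | base (σ : Sch) (a : ℕ) : Der σ a (a + 1)
  | cut (σ σ' : Sch) (a z e : ℕ) : Rearr c σ σ' a e → a < z → z < e → Der σ' a z → Der σ' z e →
      InFam c (jobs c σ a e) → Der σ a e

open Classical in
/-- The invariant of the recursion. -/
structure St (σ : Sch) (a e : ℕ) (X : Set ℕ) (l : List (Set ℕ)) : Prop where
  valid : Valid c σ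
  lt : a < e
  i1 : ∀ v < c.n, a < σ.t v → ((v ∈ un l ∧ v ∉ Up c (win c σ e 2)) ↔ σ.t v < e)
  isX : IsX c X
  x1 : ∀ v < c.n, a < σ.t v → σ.t v < e → v ∈ X
  x2 : ∀ v < c.n, v ∈ X → a < σ.t v
  i2 : ∀ σ', Rearr c σ σ' a e → ∀ k < c.n, ∀ q < c.n, a < σ.t k → σ.t k < e →
    (σ.t q = e ∨ σ.t q = e + 1) → q ∈ un l → rk c l k < rk c l q → ¬ Valid c (σ'.swap k q)
  cond : ∀ D ∈ l, IsCond c D
  len : l.length ≤ c.r
  i4 : ∀ l₁ D l₂, l = l₁ ++ D :: l₂ → ((Finset.range c.n).filter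
    (fun v => a < σ.t v ∧ σ.t v < e ∧ v ∉ un l₁)).card * 2 ^ l₁.length ≤ c.n

variable {c}

theorem mem_win {σ : Sch} {s d v : ℕ} :
    v ∈ win c σ s d ↔ v < c.n ∧ s ≤ σ.t v ∧ σ.t v < s + d := by
  simp [win]

theorem win_sub (σ : Sch) (s d : ℕ) : win c σ s d ⊆ Finset.range c.n := Finset.filter_subset _ _

theorem win_card {σ : Sch} (h : Valid c σ) (s : ℕ) {d : ℕ} (hd : d ≤ 3) :
    (win c σ s d).card ≤ 3 * c.m :=
  (h.card_le s d).trans (Nat.mul_le_mul_right _ hd)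

theorem Rearr.win {σ σ' : Sch} {a e s : ℕ} (h : Rearr c σ σ' a e) (hs : e ≤ s) (d : ℕ) :
    win c σ' s d = win c σ s d := by
  ext v
  simp only [mem_win]
  refine and_congr_right (fun hv => ?_)
  have := h.time hv
  omega

theorem Rearr.jobs {σ σ' : Sch} {a e : ℕ} (h : Rearr c σ σ' a e) :
    jobs c σ' a e = jobs c σ a e := by
  ext v
  simp only [MP_caa638_lc.jobs, Set.mem_ofPred_eq]
  exact and_congr_right (fun hv => h.iff hv)

theorem Der.of_rearr {σ σ' : Sch} {a e : ℕ} (h : Rearr c σ σ' a e) (hd : Der c σ' a e) :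
    Der c σ a e := by
  cases hd with
  | base => exact Der.base _ _
  | cut _ σ'' _ z _ h1 h2 h3 h4 h5 h6 =>
    exact Der.cut σ σ'' a z e (h.trans h1) h2 h3 h4 h5 (h.jobs ▸ h6)

theorem IsCond.lower {D : Set ℕ} (h : IsCond c D) : Lower c D := by
  obtain ⟨b, W, θ, -, -, -, rfl⟩ := h
  rintro u v huv ⟨h1, h2⟩
  refine ⟨?_, h2.trans (c.pr_arc u v huv).le⟩
  rcases h1 with h1 | ⟨⟨w, hw, h1⟩, h3⟩
  · exact Or.inl h1
  · exact Or.inr ⟨⟨w, hw, TransGen.head huv h1⟩, fun ⟨x, hx, h4⟩ => h3 ⟨x, hx, h4.tail huv⟩⟩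

theorem IsCond.thr {D : Set ℕ} (h : IsCond c D) {k : ℕ} (hk : k < c.n) :
    IsCond c {v | v ∈ D ∧ c.pr k < c.pr v} := by
  obtain ⟨b, W, θ, h1, h2, h3, rfl⟩ := h
  have := c.pr_lt k hk
  refine ⟨b, W, max θ (c.pr k + 1), h1, h2, by omega, ?_⟩
  ext v
  simp only [Set.mem_ofPred_eq, max_le_iff, and_assoc, Nat.add_one_le_iff]

theorem isCond_dn {W : Finset ℕ} (h1 : W ⊆ Finset.range c.n) (h2 : W.card ≤ 3 * c.m) :
    IsCond c {v | v ∈ Down c W ∧ v ∉ Up c W} :=
  ⟨false, W, 0, h1, h2, Nat.zero_le _, by ext v; simp⟩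

theorem isCond_univ : IsCond c Set.univ :=
  ⟨true, ∅, 0, by simp, by simp, Nat.zero_le _, by ext v; simp⟩

theorem Valid.up {σ : Sch} (h : Valid c σ) {s d v : ℕ} (hv : v ∈ Up c (win c σ s d)) :
    s ≤ σ.t v := by
  obtain ⟨x, hx, h1⟩ := hv
  exact (mem_win.1 hx).2.1.trans (h.le h1)

theorem mem_up_self {C : Finset ℕ} {v : ℕ} (hv : v ∈ C) : v ∈ Up c C := ⟨v, hv, .refl⟩

theorem Up.tail {C : Finset ℕ} {u v : ℕ} (hu : u ∈ Up c C) (h : ReflTransGen c.arc u v) :
    v ∈ Up c C := by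
  obtain ⟨x, hx, h1⟩ := hu
  exact ⟨x, hx, h1.trans h⟩

theorem St.rearr {σ σ' : Sch} {a e : ℕ} {X : Set ℕ} {l : List (Set ℕ)} (h : St c σ a e X l)
    (hr : Rearr c σ σ' a e) : St c σ' a e X l := by
  classical
  refine ⟨hr.valid, h.lt, fun v hv h1 => ?_, h.isX, fun v hv h1 h2 => ?_, fun v hv h1 => ?_,
    fun σ'' h1 k hk q hq h2 h3 h4 => ?_, h.cond, h.len, fun l₁ D l₂ h1 => ?_⟩
  · have := hr.time hv
    rw [hr.win le_rfl, h.i1 v hv (by omega)]
    omega
  · have := hr.time hv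
    exact h.x1 v hv (by omega) (by omega)
  · have := hr.time hv
    have := h.x2 v hv h1
    omega
  · have := hr.time hk
    have := hr.time hq
    exact h.i2 σ'' (hr.trans h1) k hk q hq (by omega) (by omega) (by omega)
  · refine le_of_eq_of_le ?_ (h.i4 l₁ D l₂ h1)
    congr 2
    refine Finset.filter_congr (fun v hv => ?_)
    rw [← and_assoc, ← and_assoc, hr.iff (Finset.mem_range.1 hv)]

theorem St.fam {σ : Sch} {a e : ℕ} {X : Set ℕ} {l : List (Set ℕ)} (h : St c σ a e X l) :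
    InFam c (jobs c σ a (e + 1)) := by
  refine ⟨X, l, win c σ e 2, win c σ e 1, h.isX, h.cond, h.len, win_sub _ _ _,
    win_card h.valid _ (by omega), win_sub _ _ _, win_card h.valid _ (by omega), ?_⟩
  ext v
  simp only [jobs, Set.mem_ofPred_eq, mem_win]
  refine and_congr_right (fun hv => ?_)
  have := h.lt
  constructor
  · intro h1
    by_cases h2 : σ.t v < e
    · exact Or.inl ⟨h.x1 v hv h1.1 h2, (h.i1 v hv h1.1).2 h2⟩
    · exact Or.inr ⟨hv, by omega, by omega⟩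
  · rintro (⟨h1, h2⟩ | h1)
    · have h3 := h.x2 v hv h1
      have := (h.i1 v hv h3).1 h2
      omega
    · omega

/-- The exchange property of a left part follows from minimality of the content of its wall. -/
theorem i2_of_min {σ : Sch} {a e e' : ℕ} {l : List (Set ℕ)} (hae : a < e') (he : e' ≤ e)
    (h1 : ∀ v < c.n, a < σ.t v → σ.t v < e' → v ∈ un l)
    (h2 : ∀ σ', Rearr c σ σ' a e → (∀ v < c.n, v ∉ un l → σ'.t v = σ.t v) →
      phi c (rk c l) e' σ ≤ phi c (rk c l) e' σ')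
    (h3 : ∀ q < c.n, q ∈ un l → (σ.t q = e' ∨ σ.t q = e' + 1) → σ.t q < e) :
    ∀ σ', Rearr c σ σ' a e' → ∀ k < c.n, ∀ q < c.n, a < σ.t k → σ.t k < e' →
      (σ.t q = e' ∨ σ.t q = e' + 1) → q ∈ un l → rk c l k < rk c l q →
      ¬ Valid c (σ'.swap k q) := by
  intro σ' hr k hk q hq g1 g2 g3 g4 g5 hv
  have tk := hr.time hk
  have tq := hr.time hq
  have g6 := h3 q hq g4 g3
  have hs : Rearr c σ' (σ'.swap k q) a e := Rearr.swap hv (by omega) (by omega)
  have g7 := h2 _ ((hr.mono le_rfl he).trans hs) (fun v hv' hl => by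
    have hv1 : v ≠ k := by rintro rfl; exact hl (h1 v hv' g1 g2)
    have hv2 : v ≠ q := by rintro rfl; exact hl g4
    simp only [Sch.swap, Equiv.swap_apply_of_ne_of_ne hv1 hv2]
    exact (hr.out v hv' (fun g => hl (h1 v hv' g.1 g.2))).1)
  have g8 := phi_swap (σ := σ') (e := e') (rk c l) hk hq (by omega) (by omega) g5
  rw [phi_rearr hr] at g8
  omega

/-- Removing the last slot of an interval whose job set is cut out by one basic lower set. -/
theorem peel {σ : Sch} {a e : ℕ} {X D : Set ℕ} (hv : Valid c σ) (hae : a < e) (hX : IsX c X)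
    (x1 : ∀ v < c.n, a < σ.t v → σ.t v < e + 1 → v ∈ X) (x2 : ∀ v < c.n, v ∈ X → a < σ.t v)
    (hD : IsCond c D) (h1 : ∀ v < c.n, a < σ.t v → (v ∈ D ↔ σ.t v < e + 1)) :
    ∃ σ', Rearr c σ σ' a (e + 1) ∧ St c σ' a e X [D] := by
  classical
  obtain ⟨σ', hr, hmin⟩ := exists_min (fun σ' => Rearr c σ σ' a (e + 1))
    (phi c (rk c [D]) e) σ (Rearr.refl hv _ _)
  have g1 : ∀ v < c.n, a < σ'.t v → (v ∈ D ↔ σ'.t v < e + 1) := by
    intro v hv' h2
    have := hr.time hv'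
    rw [h1 v hv' (by omega)]
    omega
  refine ⟨σ', hr, hr.valid, hae, fun v hv' h2 => ?_, hX, fun v hv' h2 h3 => ?_,
    fun v hv' h2 => ?_, ?_, by simpa using hD, by simpa using c.r_one, fun l₁ E l₂ h2 => ?_⟩
  · simp only [mem_un_cons, mem_un_nil, or_false, g1 v hv' h2]
    constructor
    · rintro ⟨h3, h4⟩
      by_contra h5
      exact h4 (mem_up_self (mem_win.2 ⟨hv', by omega, by omega⟩))
    · intro h3
      exact ⟨by omega, fun h4 => by have := hr.valid.up h4; omega⟩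
  · have := hr.time hv'
    exact x1 v hv' (by omega) (by omega)
  · have := hr.time hv'
    have := x2 v hv' h2
    omega
  · refine i2_of_min (e := e + 1) hae (by omega) (fun v hv' h2 h3 => ?_)
      (fun σ'' h2 _ => hmin σ'' (hr.trans h2)) (fun q hq h2 h3 => ?_)
    · simp only [mem_un_cons, mem_un_nil, or_false, g1 v hv' h2]
      omega
    · simp only [mem_un_cons, mem_un_nil, or_false] at h2
      exact (g1 q hq (by omega)).1 h2
  · have : l₁ = [] := by
      cases l₁ with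
      | nil => rfl
      | cons F l₁ => simp at h2
    subst this
    simpa using (Finset.card_filter_le (Finset.range c.n) _).trans (Finset.card_range _).le

end Pool.Agent.Lib.MP_caa638_lc
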