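import Mathlib

/-!
Scheduling unit tasks with precedence constraints and unit communication delays.
-/

set_option autoImplicit false

namespace Pool.Agent.Lib.MP_caa638_lc

/-- A digraph is given by adjacency lists: the tasks are the positions of the list `G`, and there
is an arc from `i` to `j` when `j` occurs in the list at position `i`. -/
def Arc (G : List (List ℕ)) (i j : Fin G.length) : Prop := (j : ℕ) ∈ G.get i

/-- The digraph has no directed cycle. -/
def Acyclic (G : List (List ℕ)) : Prop := ∀ i, ¬ Relation.TransGen (Arc G) i i

/-- `π` (processors) and `S` (start times) form a schedule on `m` identical processors with unit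
processing times and unit communication delays. -/
def IsSchedule (m : ℕ) (G : List (List ℕ)) (π : Fin G.length → Fin m) (S : Fin G.length → ℕ) :
    Prop :=
  (∀ i j, π i = π j → S i = S j → i = j) ∧
    ∀ i j, Arc G i j → (π i = π j → S i + 1 ≤ S j) ∧ (π i ≠ π j → S i + 2 ≤ S j)

/-- The makespan, the largest completion time. -/
def makespan {n : ℕ} (S : Fin n → ℕ) : ℕ := Finset.univ.sup (fun j => S j + 1)

end Pool.Agent.Lib.MP_caa638_lc
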