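import Pool.Agent.Lib.MP_caa638_lc.Alg

/-!
The running time of the dynamic program is quasi-polynomial.
-/

set_option autoImplicit false

namespace Pool.Agent.Lib.MP_caa638_lc

open Pool.Agent.Lib.MP_acf5a6_lc N487b59b3 Turing Function

/-- `O a` is computable from `I a` by one program in time `τ a`. -/
def CompT {α : Type} (I O : α → List Bool) (τ : α → ℕ) : Prop :=
  ∃ (K : Type) (_ : Fintype K) (_ : DecidableEq K) (io : K) (p : Prog K),
    ∀ a, Exec p (st io (I a)) (st io (O a)) (τ a)

theorem CompT.toTM2 {α β : Type} {ea : α → List Bool} {eb : β → List Bool} {f : α → β}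
    {τ : α → ℕ} (h : CompT ea (fun a => eb (f a)) τ) (time : ℕ → ℕ)
    (ht : ∀ a, τ a ≤ time (ea a).length) :
    ∃ M : TM2ComputableInTime ea eb f, M.time = time := by
  obtain ⟨K, _, _, io, p, hp⟩ := h
  have hi : ∀ x, initList (toFinTM2 io p) x = ⟨some p.entry, none, st io x⟩ := by
    intro x
    simp only [initList, toFinTM2]
    congr 1
    funext k
    by_cases hk : k = io
    · subst hk; simp [st]
    · simp [st, hk]
  have hh : ∀ x, haltList (toFinTM2 io p) x = ⟨none, none, st io x⟩ := by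
    intro x
    simp only [haltList, toFinTM2]
    congr 1
    funext k
    by_cases hk : k = io
    · subst hk; simp [st]
    · simp [st, hk]
  refine ⟨{ tm := toFinTM2 io p
            inputAlphabet := Equiv.refl _
            outputAlphabet := Equiv.refl _
            time := time
            outputsFun := fun a => ?_ }, rfl⟩
  have h1 : ∃ n ≤ time (ea a).length, (flip bind (TM2.step (p.code id none)))^[n]
      (some (initList (toFinTM2 io p) (List.map (Equiv.refl Bool).invFun (ea a)))) =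
      some (haltList (toFinTM2 io p) (List.map (Equiv.refl Bool).invFun (eb (f a)))) := by
    have e1 : List.map (Equiv.refl Bool).invFun (ea a) = ea a := by simp
    have e2 : List.map (Equiv.refl Bool).invFun (eb (f a)) = eb (f a) := by simp
    have e3 := (congrArg (initList (toFinTM2 io p)) e1).trans (hi (ea a))
    have e4 := (congrArg (haltList (toFinTM2 io p)) e2).trans (hh (eb (f a)))
    obtain ⟨n, hn, h⟩ := (hp a).sim (p.code id none) id none (fun _ => rfl)
    refine ⟨n, hn.trans (ht a), ?_⟩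
    exact (congrArg (fun c => (flip bind (TM2.step (p.code id none)))^[n] (some c)) e3).trans
      (h.trans (congrArg some e4.symm))
  exact ⟨⟨h1.choose, h1.choose_spec.2⟩, h1.choose_spec.1⟩

theorem CompT.trans {α : Type} {I J O : α → List Bool} {τ : α → ℕ} (h₁ : CompT I J τ)
    (h₂ : Comp J O) :
    ∃ q : Polynomial ℕ, CompT I O (fun a => τ a + q.eval ((I a).length + τ a)) := by
  obtain ⟨K₁, _, _, io₁, p₁, hp₁⟩ := h₁
  obtain ⟨K₂, _, _, io₂, p₂, q₂, hp₂⟩ := h₂
  refine ⟨q₂, Fin 4 ⊕ (K₁ ⊕ K₂), inferInstance, inferInstance, .inl 0,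
    .seq (call io₁ p₁ Sum.inl 0) (call io₂ p₂ Sum.inr 0), fun a => ?_⟩
  rw [st_mk, st_mk]
  have e₁ := call_exec (K := K₁ ⊕ K₂) Sum.inl_injective 0 (hp₁ a) (I a) [] [] [] rfl
  have e₂ := call_exec (K := K₁ ⊕ K₂) Sum.inr_injective 0 (hp₂ a) (J a) [] [] [] rfl
  simp only [up_0] at e₁ e₂
  refine (Exec.seq e₁ e₂).mono ?_
  refine Nat.add_le_add_left (eval_mono _ ?_) _
  simpa [st] using (hp₁ a).length_le io₁

theorem CompT.iter {α σ : Type} {I C : α → List Bool} {e : σ → List Bool} {g : σ → σ}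
    {h : α → σ} (hg : Comp e (fun s => e (g s))) (hh : Comp I (fun a => e (h a))) (hC : Comp I C)
    (B : α → ℕ) (hB : ∀ a i, i ≤ (C a).length → (e (g^[i] (h a))).length ≤ B a) :
    ∃ q r : Polynomial ℕ, CompT I (fun a => e (g^[(C a).length] (h a)))
      (fun a => (q.eval (B a) + 4) * r.eval (I a).length) := by
  obtain ⟨r, hr⟩ := hC.length_le
  obtain ⟨K₀, _, _, io₀, p₀, q₀, hp₀⟩ := hC
  obtain ⟨K₁, _, _, io₁, p₁, q₁, hp₁⟩ := hh
  obtain ⟨K₂, _, _, io₂, p₂, q₂, hp₂⟩ := hg
  refine ⟨q₂, r + (9 * Polynomial.X + 3 + q₀ + q₁), Fin 4 ⊕ (K₀ ⊕ K₁ ⊕ K₂), inferInstance,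
    inferInstance, .inl 0,
    .seq copy01 (.seq (call io₀ p₀ Sum.inl 1) (.seq (call io₁ p₁ (Sum.inr ∘ Sum.inl) 0)
      (each (.inl 1) (call io₂ p₂ (Sum.inr ∘ Sum.inr) 0) (call io₂ p₂ (Sum.inr ∘ Sum.inr) 0)))),
    fun a => ?_⟩
  rw [st_mk, st_mk]
  have e₀ := call_exec (K := K₀ ⊕ K₁ ⊕ K₂) Sum.inl_injective 1 (hp₀ a) (I a) (I a) [] [] rfl
  have e₁ := call_exec (K := K₀ ⊕ K₁ ⊕ K₂) (Sum.inr_injective.comp Sum.inl_injective) 0 (hp₁ a)
    (I a) (C a) [] [] rfl
  simp only [up_0, up_1] at e₀ e₁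
  have hs : ∀ (b : Bool) (r d : List Bool), r.length + d.length + 1 = (C a).length →
      Exec (call io₂ p₂ (Sum.inr ∘ Sum.inr) 0 : Prog (Fin 4 ⊕ (K₀ ⊕ K₁ ⊕ K₂)))
        (mk (e (g^[d.length] (h a))) r [] []) (mk (e (g^[(b :: d).length] (h a))) r [] [])
        (q₂.eval (B a)) := by
    intro b r d hN
    have e₂ := call_exec (K := K₀ ⊕ K₁ ⊕ K₂) (Sum.inr_injective.comp Sum.inr_injective) 0
      (hp₂ (g^[d.length] (h a))) (e (g^[d.length] (h a))) r [] [] rfl
    simp only [up_0] at e₂
    rw [List.length_cons, Function.iterate_succ_apply']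
    exact e₂.mono (eval_mono _ (hB a _ (by omega)))
  have h1 := each_exec (K := Fin 4 ⊕ (K₀ ⊕ K₁ ⊕ K₂)) (.inl 1) _ _
    (fun r d => mk (e (g^[d.length] (h a))) r [] []) (q₂.eval (B a)) (C a).length
    (by simp) (fun r d hN => by simpa using hs false r d hN)
    (fun r d hN => by simpa using hs true r d hN) (C a) [] (by simp)
  simp only [List.append_nil, List.length_reverse, List.length_nil, Function.iterate_zero,
    id_eq] at h1
  refine (Exec.seq (copy01_exec _) (Exec.seq e₀ (Exec.seq e₁ h1))).mono ?_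
  have := Nat.mul_le_mul_left (q₂.eval (B a) + 3) (hr a)
  simp only [Polynomial.eval_add, Polynomial.eval_mul, Polynomial.eval_ofNat, Polynomial.eval_X]
  nlinarith

theorem poly_le (q : Polynomial ℕ) :
    ∃ c, ∀ x k, 1 ≤ k → x ≤ 2 ^ k → q.eval x ≤ 2 ^ (c * k) := by
  induction q using Polynomial.induction_on' with
  | add p q hp hq =>
    obtain ⟨c, hc⟩ := hp
    obtain ⟨d, hd⟩ := hq
    refine ⟨c + d + 1, fun x k hk hx => ?_⟩
    have h1 := (hc x k hk hx).trans
      (Nat.pow_le_pow_right (by omega) (show c * k ≤ (c + d) * k by nlinarith))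
    have h2 := (hd x k hk hx).trans
      (Nat.pow_le_pow_right (by omega) (show d * k ≤ (c + d) * k by nlinarith))
    have h3 : 2 ^ ((c + d) * k + 1) ≤ 2 ^ ((c + d + 1) * k) :=
      Nat.pow_le_pow_right (by omega) (by nlinarith)
    rw [Polynomial.eval_add]
    rw [pow_succ] at h3
    omega
  | monomial n b =>
    refine ⟨b + n, fun x k hk hx => ?_⟩
    rw [Polynomial.eval_monomial, add_mul, pow_add]
    refine Nat.mul_le_mul ?_ ?_
    · exact Nat.lt_two_pow_self.le.trans (Nat.pow_le_pow_right (by omega) (by nlinarith))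
    · rw [mul_comm, pow_mul]
      exact Nat.pow_le_pow_left hx _

section QB

variable {α : Type} [N487b59b3 α]

/-- A quasi-polynomially bounded function. -/
def QB (f : α → ℕ) : Prop := ∃ c, ∀ a, f a ≤ 2 ^ (c * (Nat.log 2 (sz a) + 1) ^ 2)

theorem pb_le {f : α → ℕ} (h : PB f) : ∃ c, ∀ a, f a ≤ 2 ^ (c * (Nat.log 2 (sz a) + 1)) := by
  obtain ⟨q, hq⟩ := h
  obtain ⟨c, hc⟩ := poly_le q
  exact ⟨c, fun a => (hq a).trans (hc _ _ (by omega) (Nat.lt_pow_succ_log_self (by omega) _).le)⟩

theorem QB.of_PB {f : α → ℕ} (h : PB f) : QB f := by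
  obtain ⟨c, hc⟩ := pb_le h
  exact ⟨c, fun a => (hc a).trans (Nat.pow_le_pow_right (by omega)
    (Nat.mul_le_mul_left _ (by nlinarith)))⟩

theorem QB.mul {f g : α → ℕ} (hf : QB f) (hg : QB g) : QB (fun a => f a * g a) := by
  obtain ⟨c, hc⟩ := hf
  obtain ⟨d, hd⟩ := hg
  exact ⟨c + d, fun a => by rw [add_mul, pow_add]; exact Nat.mul_le_mul (hc a) (hd a)⟩

theorem QB.mono {f g : α → ℕ} (hg : QB g) (h : ∀ a, f a ≤ g a) : QB f := by
  obtain ⟨c, hc⟩ := hg
  exact ⟨c, fun a => (h a).trans (hc a)⟩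

theorem QB.poly {f : α → ℕ} (hf : QB f) (q : Polynomial ℕ) : QB (fun a => q.eval (f a)) := by
  obtain ⟨c, hc⟩ := hf
  obtain ⟨d, hd⟩ := poly_le q
  refine ⟨d * (c + 1), fun a => ?_⟩
  rw [mul_assoc]
  have : 0 < (Nat.log 2 (sz a) + 1) ^ 2 := by positivity
  exact hd _ _ (by nlinarith) ((hc a).trans (Nat.pow_le_pow_right (by omega) (by nlinarith)))

theorem QB.add {f g : α → ℕ} (hf : QB f) (hg : QB g) : QB (fun a => f a + g a) := by
  refine (((hf.poly (Polynomial.X + 1)).mul (hg.poly (Polynomial.X + 1)))).mono (fun a => ?_)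
  simp only [Polynomial.eval_add, Polynomial.eval_X, Polynomial.eval_one]
  nlinarith

theorem QB.pow {f i : α → ℕ} (hf : PB f) (hi : ∀ a, i a ≤ Nat.log 2 (sz a) + 3) :
    QB (fun a => f a ^ i a) := by
  obtain ⟨c, hc⟩ := pb_le hf
  refine ⟨3 * c, fun a => (Nat.pow_le_pow_left (hc a) _).trans ?_⟩
  rw [← pow_mul]
  refine Nat.pow_le_pow_right (by omega) ?_
  have h1 : i a ≤ 3 * (Nat.log 2 (sz a) + 1) := by have := hi a; omega
  calc c * (Nat.log 2 (sz a) + 1) * i a
      ≤ c * (Nat.log 2 (sz a) + 1) * (3 * (Nat.log 2 (sz a) + 1)) := Nat.mul_le_mul_left _ h1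
    _ = _ := by ring

end QB

theorem mem_first {γ : Type} {l : List (List γ)} {w : List γ} (h : w ∈ first l) : w ∈ l := by
  cases l with
  | nil => simp [first] at h
  | cons x l => simp [first] at h; simp [h]

theorem length_first {γ : Type} (l : List (List γ)) : (first l).length ≤ 1 := by
  cases l <;> simp [first]

theorem mem_rng {G : Gr} {v : ℕ} : v ∈ rng G ↔ v < G.length := by simp [rng, urange, ulen]

theorem mem_tms {G : Gr} {v : ℕ} : v ∈ tms G ↔ v < G.length + 2 := by
  simp [tms, urange, ulen, Un.add]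

theorem fam_lt {m : ℕ} {G : Gr} {F : List (List ℕ)} {B : List ℕ} (h : B ∈ fam m G F) :
    ∀ v ∈ B, v < G.length := by
  simp only [fam, List.mem_cons, List.mem_flatMap, List.mem_map] at h
  rcases h with rfl | ⟨_, _, _, _, _, _, _, _, _, _, rfl⟩
  · simp
  · intro v hv
    exact mem_rng.1 (List.mem_filter.1 hv).1

theorem length_flatMap_le {γ δ : Type} (l : List γ) (f : γ → List δ) {c : ℕ}
    (h : ∀ x ∈ l, (f x).length ≤ c) : (l.flatMap f).length ≤ l.length * c := by
  induction l with
  | nil => simp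
  | cons x l ih =>
    have h1 := h x List.mem_cons_self
    have h2 := ih (fun y hy => h y (List.mem_cons_of_mem _ hy))
    simp only [List.flatMap_cons, List.length_append, List.length_cons, add_mul]
    omega

theorem sz_tstep (m : ℕ) (G : Gr) (F : List (List ℕ)) (tb : List (List Cell)) :
    sz (tstep m G F tb) ≤ sz (states m G F) *
      (2 * (m * (sz G + 1) * (2 * (4 * sz G + 4 + m) + 1)) + 1) := by
  have hn := length_le_sz G
  refine (sz_list_le _ (c := m * (sz G + 1) * (2 * (4 * sz G + 4 + m) + 1))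
    (fun w hw => ?_)).trans (Nat.mul_le_mul_right _ ?_)
  · simp only [tstep, List.mem_flatMap] at hw
    obtain ⟨s, hs, hw⟩ := hw
    have h1 := (List.mem_filter.1 (mem_first hw)).2
    simp only [states, List.mem_flatMap, List.mem_map] at hs
    obtain ⟨a, -, e, he, L, -, B, hB, R, -, rfl⟩ := hs
    simp only [chk, Bool.and_eq_true, List.all_eq_true, decide_eq_true_eq, memb_iff] at h1
    rw [mem_tms] at he
    refine (sz_list_le _ (c := 4 * sz G + 4 + m) (fun x hx => ?_)).trans
      (Nat.mul_le_mul_right _ ?_)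
    · obtain ⟨v, t, p⟩ := x
      have h2 := h1.1.1.2 _ hx
      have h3 := fam_lt hB v h2.2
      have := sz_nat_le v
      have := sz_nat_le t
      have := sz_nat_le p
      simp only [sz_pair] at h2 ⊢
      omega
    · have h2 : m * (e - a) ≤ m * (sz G + 1) := Nat.mul_le_mul_left _ (by omega)
      have := h1.2
      omega
  · have := length_flatMap_le (states m G F)
      (fun s => first ((cands m G tb).filter (fun w => chk m G s w))) (fun _ _ => length_first _)
    have h2 := length_le_sz (states m G F)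
    unfold tstep
    omega

theorem table_PT (m : ℕ) : PT (fun x : Gr × List (List ℕ) => table m x.1 x.2) := by
  have hG : PB (fun x : Gr × List (List ℕ) => sz x.1) := PB.of_PT (by fun_prop)
  have h := PT.iterP (g := fun (x : Gr × List (List ℕ)) tb => tstep m x.1 x.2 tb)
    (h := fun _ => []) (c := fun x => (ulen x.1).add ⟨1⟩) (by fun_prop) (PT.const _) (by fun_prop)
    ((PB.of_PT (f := fun x : Gr × List (List ℕ) => states m x.1 x.2) (by fun_prop)).mul
      (((PB.const 2).mul (((PB.const m).mul (hG.add (PB.const 1))).mul (((PB.const 2).mul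
        ((((PB.const 4).mul hG).add (PB.const 4)).add (PB.const m))).add (PB.const 1)))).add
        (PB.const 1))) (fun x i _ => by
      cases i with
      | zero => simp
      | succ i => rw [Function.iterate_succ_apply']; exact sz_tstep _ _ _ _)
  exact h.of_eq (fun x => by simp [table, ulen, Un.add])

theorem out_PT (m : ℕ) : PT (fun x : Gr × List (List ℕ) => out m x.1 x.2) := by
  have h1 : PT (fun x : Gr × List (List ℕ) => best m x.1 x.2) := by
    have h2 : PT (fun x : (Gr × List (List ℕ)) × ℕ => table m x.1.1 x.1.2) :=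
      PT.comp (table_PT m) (by fun_prop)
    unfold best
    fun_prop
  have h2 : PT (fun x : (Gr × List (List ℕ)) × ℕ => best m x.1.1 x.1.2) :=
    PT.comp h1 (by fun_prop)
  unfold out
  fun_prop

/-- All unions of logarithmically many basic lower sets. -/
def unions (m : ℕ) (G : Gr) : List (List ℕ) := (ustep m G)^[G.length.size + 2] [[]]

/-- The algorithm. -/
def alg (m : ℕ) (G : Gr) : List (ℕ × ℕ) := out m G (unions m G)

theorem ustep_bound (m : ℕ) (G : Gr) (i : ℕ) :
    ((ustep m G)^[i] [[]]).length ≤ (sz (conds m G) + 1) ^ i ∧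
      ∀ U ∈ (ustep m G)^[i] [[]], sz U ≤ sz (rng G) := by
  induction i with
  | zero => simp
  | succ i ih =>
    rw [Function.iterate_succ_apply']
    generalize (ustep m G)^[i] [[]] = F at ih
    constructor
    · have h1 := length_flatMap_le F (fun U => (conds m G).map (fun D =>
        (rng G).filter (fun v => memb U v || memb D v))) (c := sz (conds m G))
        (fun U _ => by simpa using length_le_sz _)
      have h2 := Nat.mul_le_mul_right (sz (conds m G) + 1) ih.1
      rw [ustep, List.length_append, pow_succ]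
      nlinarith
    · intro U hU
      simp only [ustep, List.mem_append, List.mem_flatMap, List.mem_map] at hU
      rcases hU with hU | ⟨_, _, _, _, rfl⟩
      · exact ih.2 U hU
      · exact sz_filter_le _ _

theorem alg_time (m : ℕ) :
    ∃ (M : TM2ComputableInTime (bitEncode : Gr → List Bool)
      (bitEncode : List (ℕ × ℕ) → List Bool) (alg m)) (C : ℕ),
      ∀ s, M.time s ≤ 2 ^ (C * (Nat.log 2 s + 1) ^ 2) := by
  have key : ∀ (G : Gr) (i : ℕ) (F : List (List ℕ)),
      (fun x : Gr × List (List ℕ) => (x.1, ustep m x.1 x.2))^[i] (G, F) =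
        (G, (ustep m G)^[i] F) := by
    intro G i
    induction i with
    | zero => intro F; rfl
    | succ i ih => intro F; simp [Function.iterate_succ_apply, ih]
  have hc : ∀ G : Gr, (bitEncode ((usz G.length).add ⟨2⟩)).length = G.length.size + 2 := by
    intro G
    simp [enc_un, Un.add, usz, sz_nat]
  have hg : PT (fun x : Gr × List (List ℕ) => (x.1, ustep m x.1 x.2)) := by fun_prop
  have hh : PT (fun G : Gr => (G, ([[]] : List (List ℕ)))) := by fun_prop
  have hC : PT (fun G : Gr => (usz G.length).add ⟨2⟩) := by fun_prop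
  obtain ⟨q, r, h1⟩ := CompT.iter (e := fun x : Gr × List (List ℕ) => bitEncode x) hg hh hC
    (fun G => 2 * sz G + 1 + (sz (conds m G) + 1) ^ (G.length.size + 2) * (2 * sz (rng G) + 1))
    (fun G i hi => by
      rw [key]
      rw [hc] at hi
      have h2 := ustep_bound m G i
      have h3 := (sz_list_le _ h2.2).trans (Nat.mul_le_mul_right _
        (h2.1.trans (Nat.pow_le_pow_right (by omega) hi)))
      have h4 := sz_pair G ((ustep m G)^[i] [[]])
      unfold sz at h4 h3 ⊢
      omega)
  obtain ⟨q', h2⟩ := h1.trans (O := fun G => bitEncode (alg m G))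
    (Comp.pull (out_PT m) (fun G => (G, unions m G)) (fun G => by rw [key, hc, unions])
      (fun G => rfl))
  have hB : QB (fun G : Gr => 2 * sz G + 1 +
      (sz (conds m G) + 1) ^ (G.length.size + 2) * (2 * sz (rng G) + 1)) := by
    refine (QB.of_PB (((PB.const 2).mul PB.self).add (PB.const 1))).add (QB.mul (QB.pow
      ((PB.of_PT (conds_PT m PT.id')).add (PB.const 1)) (fun G => ?_))
      (QB.of_PB (((PB.const 2).mul (PB.of_PT (rng_PT PT.id'))).add (PB.const 1))))
    have : G.length.size ≤ Nat.log 2 (sz G) + 1 :=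
      Nat.size_le.2 ((length_le_sz G).trans_lt (Nat.lt_pow_succ_log_self (by omega) _))
    omega
  have hτ := ((hB.poly q).add (QB.of_PB (PB.const 4))).mul (QB.of_PB (PB.self.poly r))
  obtain ⟨C, hC⟩ := hτ.add (((QB.of_PB PB.self).add hτ).poly q')
  obtain ⟨M, hM⟩ := h2.toTM2 (fun s => 2 ^ (C * (Nat.log 2 s + 1) ^ 2)) hC
  exact ⟨M, C, fun s => by rw [hM]⟩

end Pool.Agent.Lib.MP_caa638_lc
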