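import Pool.Agent.Lib.MP_caa638_lc.Step
import Pool.Agent.Lib.MP_caa638_lc.Time

/-!
The lists computed by the algorithm contain all job sets with a short description.
-/

set_option autoImplicit false

namespace Pool.Agent.Lib.MP_caa638_lc

open Relation Pool.Agent.Lib.MP_acf5a6_lc

/-- The arc relation of the adjacency lists. -/
def arcR (G : Gr) (u v : ℕ) : Prop := (u, v) ∈ arcs G

theorem arcR_iff {G : Gr} {u v : ℕ} :
    arcR G u v ↔ ∃ h : u < G.length, v < G.length ∧ v ∈ G[u] := by
  simp only [arcR, arcs, List.mem_flatMap, List.mem_map, List.mem_filter, decide_eq_true_eq,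
    Prod.mk.injEq]
  constructor
  · rintro ⟨⟨l, i⟩, hx, w, ⟨h1, h2⟩, rfl, rfl⟩
    obtain ⟨h3, h4⟩ := List.mem_zipIdx' hx
    exact ⟨h3, h2, h4 ▸ h1⟩
  · rintro ⟨h1, h2, h3⟩
    exact ⟨(G[u], u), List.mem_zipIdx_iff_getElem?.2 (by simp [h1]), v, ⟨h3, h2⟩, rfl, rfl⟩

theorem arcR_lt {G : Gr} {u v : ℕ} (h : arcR G u v) : u < G.length ∧ v < G.length := by
  obtain ⟨h1, h2, -⟩ := arcR_iff.1 h
  exact ⟨h1, h2⟩

theorem transGen_lt {G : Gr} {u v : ℕ} (h : TransGen (arcR G) u v) :
    u < G.length ∧ v < G.length := by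
  induction h with
  | single h => exact arcR_lt h
  | tail _ h ih => exact ⟨ih.1, (arcR_lt h).2⟩

open Classical in
/-- The number of descendants. -/
noncomputable def cnt (G : Gr) (v : ℕ) : ℕ :=
  ((Finset.range G.length).filter (fun w => TransGen (arcR G) v w)).card

theorem cnt_le (G : Gr) (v : ℕ) : cnt G v ≤ G.length := by
  classical
  exact (Finset.card_filter_le _ _).trans (Finset.card_range _).le

theorem cnt_lt {G : Gr} (hac : ∀ v, ¬ TransGen (arcR G) v v) {u v : ℕ} (h : arcR G u v) :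
    cnt G v < cnt G u := by
  classical
  refine Finset.card_lt_card ⟨Finset.monotone_filter_right _ (fun w _ g => TransGen.head h g),
    fun g => ?_⟩
  have := g (Finset.mem_filter.2 ⟨Finset.mem_range.2 (arcR_lt h).2, TransGen.single h⟩)
  exact hac v (Finset.mem_filter.1 this).2

theorem cnt_lt' {G : Gr} (hac : ∀ v, ¬ TransGen (arcR G) v v) {u v : ℕ}
    (h : TransGen (arcR G) u v) : cnt G v < cnt G u := by
  induction h with
  | single h => exact cnt_lt hac h
  | tail _ h ih => exact (cnt_lt hac h).trans ih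

theorem mem_rstep {G : Gr} {R : List (ℕ × ℕ)} {u v : ℕ} :
    (u, v) ∈ rstep G R ↔ u < G.length ∧ v < G.length ∧
      (arcR G u v ∨ ∃ w < G.length, (u, w) ∈ R ∧ arcR G w v) := by
  simp [rstep, pairs, mem_rng, arcR, and_assoc]

theorem mem_reach {G : Gr} (hac : ∀ v, ¬ TransGen (arcR G) v v) {u v : ℕ} :
    (u, v) ∈ reach G ↔ TransGen (arcR G) u v := by
  constructor
  · have : ∀ i u v, (u, v) ∈ (rstep G)^[i] [] → TransGen (arcR G) u v := by
      intro i
      induction i with
      | zero => simp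
      | succ i ih =>
        intro u v h
        rw [Function.iterate_succ_apply', mem_rstep] at h
        rcases h.2.2 with h | ⟨w, -, h1, h2⟩
        · exact TransGen.single h
        · exact (ih u w h1).tail h2
    exact this _ u v
  · have : ∀ i u v, TransGen (arcR G) u v → cnt G u ≤ cnt G v + i →
        (u, v) ∈ (rstep G)^[i] [] := by
      intro i
      induction i with
      | zero => intro u v h1 h2; have := cnt_lt' hac h1; omega
      | succ i ih =>
        intro u v h1 h2
        rw [Function.iterate_succ_apply', mem_rstep]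
        refine ⟨(transGen_lt h1).1, (transGen_lt h1).2, ?_⟩
        cases h1 with
        | single h => exact Or.inl h
        | tail h3 h4 =>
          have := cnt_lt hac h4
          exact Or.inr ⟨_, (arcR_lt h4).1, ih _ _ h3 (by omega), h4⟩
    intro h
    exact this _ u v h (by have := cnt_le G u; omega)

theorem prio_eq {G : Gr} (hac : ∀ v, ¬ TransGen (arcR G) v v) (v : ℕ) :
    prio G v = cnt G v * G.length + v := by
  classical
  unfold prio cnt
  congr 2
  rw [← List.toFinset_card_of_nodup (List.Nodup.filter _ (by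
    simpa [rng, urange] using List.nodup_range))]
  congr 1
  ext w
  simp [mem_rng, mem_reach hac]

/-- The data of the instance given by adjacency lists. -/
def ctx (m : ℕ) (G : Gr) (hac : ∀ v, ¬ TransGen (arcR G) v v) : Ctx where
  n := G.length
  m := m
  arc := arcR G
  pr := prio G
  K := (G.length + 1) * (G.length + 1)
  r := G.length.size + 2
  arc_lt _ _ := arcR_lt
  pr_arc u v h := by
    rw [prio_eq hac, prio_eq hac]
    have h1 := cnt_lt hac h
    have h2 := arcR_lt h
    nlinarith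
  pr_inj u hu v hv h := by
    rw [prio_eq hac, prio_eq hac] at h
    have := congrArg (· % G.length) h
    simpa [Nat.mul_add_mod', Nat.mod_eq_of_lt hu, Nat.mod_eq_of_lt hv] using this
  pr_lt v hv := by
    rw [prio_eq hac]
    have := cnt_le G v
    nlinarith
  r_ge j h := by
    have := Nat.lt_size.2 h
    omega
  r_one := by omega

variable {m : ℕ} {G : Gr} (hac : ∀ v, ¬ TransGen (arcR G) v v)

theorem upb_iff (C : Finset ℕ) (v : ℕ) :
    upb G C.toList v = true ↔ v ∈ Up (ctx m G hac) C := by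
  simp only [upb, Bool.or_eq_true, memb_iff, Finset.mem_toList, List.any_eq_true, mem_reach hac,
    Up, Set.mem_ofPred_eq, ctx]
  constructor
  · rintro (h | ⟨x, h1, h2⟩)
    · exact ⟨v, h, .refl⟩
    · exact ⟨x, h1, h2.to_reflTransGen⟩
  · rintro ⟨x, h1, h2⟩
    rcases reflTransGen_iff_eq_or_transGen.1 h2 with rfl | h3
    · exact Or.inl h1
    · exact Or.inr ⟨x, h1, h3⟩

theorem dnb_iff (W : Finset ℕ) (v : ℕ) :
    dnb G W.toList v = true ↔ v ∈ Down (ctx m G hac) W := by
  simp only [dnb, memb_iff, Finset.mem_toList, List.any_eq_true, mem_reach hac,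
    Down, Set.mem_ofPred_eq, ctx]

theorem toList_mem_tup {W : Finset ℕ} {k : ℕ} (h1 : W ⊆ Finset.range G.length) (h2 : W.card ≤ k) :
    W.toList ∈ tup (rng G) k := by
  rw [mem_tup]
  exact ⟨by simpa using h2, fun x hx => mem_rng.2 (Finset.mem_range.1 (h1 (by simpa using hx)))⟩

theorem bool_mem (b : Bool) : b ∈ [true, false] := by cases b <;> simp

theorem conds_complete {D : Set ℕ} (h : IsCond (ctx m G hac) D) :
    ∃ E ∈ conds m G, ∀ v < G.length, v ∈ E ↔ v ∈ D := by
  obtain ⟨b, W, θ, h1, h2, h3, rfl⟩ := h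
  refine ⟨_, List.mem_flatMap.2 ⟨b, bool_mem b, List.mem_flatMap.2 ⟨W.toList,
    toList_mem_tup h1 h2, List.mem_map.2 ⟨θ, ?_, rfl⟩⟩⟩, fun v hv => ?_⟩
  · simp only [ths, urange, Un.add, Un.mul, ulen, List.mem_range]
    exact Nat.lt_succ_of_le h3
  · simp only [List.mem_filter, mem_rng, hv, true_and, Bool.and_eq_true, Bool.or_eq_true,
      Bool.not_eq_true', decide_eq_true_eq, Set.mem_ofPred_eq, ← upb_iff hac, ← dnb_iff hac,
      Bool.not_eq_true]
    rfl

theorem unions_complete (i : ℕ) : ∀ l : List (Set ℕ), (∀ D ∈ l, IsCond (ctx m G hac) D) →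
    l.length ≤ i → ∃ U ∈ (ustep m G)^[i] [[]], ∀ v < G.length, v ∈ U ↔ v ∈ un l := by
  induction i with
  | zero =>
    intro l _ h
    obtain rfl : l = [] := List.length_eq_zero_iff.1 (by omega)
    exact ⟨[], by simp, by simp⟩
  | succ i ih =>
    intro l h1 h2
    rw [Function.iterate_succ_apply']
    cases l with
    | nil =>
      obtain ⟨U, h3, h4⟩ := ih [] h1 (by simp)
      exact ⟨U, List.mem_append_left _ h3, h4⟩
    | cons D l =>
      obtain ⟨U, h3, h4⟩ := ih l (fun E hE => h1 E (List.mem_cons_of_mem _ hE))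
        (by simpa using h2)
      obtain ⟨E, h5, h6⟩ := conds_complete hac (h1 D List.mem_cons_self)
      refine ⟨_, List.mem_append_right _ (List.mem_flatMap.2 ⟨U, h3,
        List.mem_map.2 ⟨E, h5, rfl⟩⟩), fun v hv => ?_⟩
      simp only [List.mem_filter, mem_rng, hv, true_and, Bool.or_eq_true, memb_iff, h4 v hv,
        h6 v hv, mem_un_cons, or_comm]

theorem fam_complete {B : Set ℕ} (h : InFam (ctx m G hac) B) :
    ∃ E ∈ fam m G (unions m G), ∀ v, v ∈ E ↔ v ∈ B := by
  obtain ⟨X, l, C, S, ⟨b, C₁, h1, h2, rfl⟩, h3, h4, h5, h6, h7, h8, rfl⟩ := h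
  obtain ⟨U, g1, g2⟩ := unions_complete hac _ l h3 h4
  refine ⟨_, List.mem_cons_of_mem _ (List.mem_flatMap.2 ⟨U, g1, List.mem_flatMap.2
    ⟨b, bool_mem b, List.mem_flatMap.2 ⟨C₁.toList, toList_mem_tup h1 h2, List.mem_flatMap.2
      ⟨C.toList, toList_mem_tup h5 h6, List.mem_map.2 ⟨S.toList, toList_mem_tup h7 h8, rfl⟩⟩⟩⟩⟩),
    fun v => ?_⟩
  simp only [List.mem_filter, mem_rng, Set.mem_ofPred_eq]
  refine and_congr_right (fun hv => ?_)
  simp only [Bool.and_eq_true, Bool.or_eq_true, Bool.not_eq_true', memb_iff, memb_false,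
    ← upb_iff hac, Bool.not_eq_true, Finset.mem_toList, g2 v hv, and_assoc]

end Pool.Agent.Lib.MP_caa638_lc
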