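import Pool.Agent.Lib.MP_caa638_lc.Family

/-!
The table of the dynamic program contains an optimal schedule.
-/

set_option autoImplicit false

namespace Pool.Agent.Lib.MP_caa638_lc

open Relation Pool.Agent.Lib.MP_acf5a6_lc

/-- The constraints between two cells. -/
def POk (G : Gr) (x y : Cell) : Prop :=
  (x.1 = y.1 → x = y) ∧ (x.2 = y.2 → x.1 = y.1) ∧
    (arcR G x.1 y.1 → x.2.1 < y.2.1 ∧ (x.2.2 ≠ y.2.2 → x.2.1 + 2 ≤ y.2.1))

theorem pairOk_iff {G : Gr} {x y : Cell} : pairOk G x y = true ↔ POk G x y := by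
  simp only [pairOk, POk, arcR, Bool.and_eq_true, Bool.or_eq_true, Bool.not_eq_true',
    decide_eq_false_iff_not, decide_eq_true_eq, memb_false]
  tauto

theorem ok_iff {G : Gr} {w : List Cell} : ok G w = true ↔ ∀ x ∈ w, ∀ y ∈ w, POk G x y := by
  simp [ok, pairOk_iff]

/-- `w` schedules the jobs `B` in the interval `(a, e)` between the slots `L` and `R`. -/
structure Chk (m : ℕ) (G : Gr) (a e : ℕ) (L : Set Cell) (B : Set ℕ) (R : Set Cell)
    (w : List Cell) : Prop where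
  ok : ∀ x, (x ∈ L ∨ x ∈ w ∨ x ∈ R) → ∀ y, (y ∈ L ∨ y ∈ w ∨ y ∈ R) → POk G x y
  ins : ∀ x ∈ w, a < x.2.1 ∧ x.2.1 < e ∧ x.2.2 < m ∧ x.1 ∈ B
  cov : ∀ v ∈ B, ∃ x ∈ w, x.1 = v
  len : w.length + m ≤ m * (e - a)

theorem chk_iff {m : ℕ} {G : Gr} {a e : ℕ} {L R w : List Cell} {B : List ℕ} {L' R' : Set Cell}
    {B' : Set ℕ} (hL : ∀ x, x ∈ L ↔ x ∈ L') (hB : ∀ x, x ∈ B ↔ x ∈ B')
    (hR : ∀ x, x ∈ R ↔ x ∈ R') : chk m G (a, e, L, B, R) w = true ↔ Chk m G a e L' B' R' w := by
  simp only [chk, Bool.and_eq_true, ok_iff, List.all_eq_true, decide_eq_true_eq, memb_iff,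
    List.any_eq_true, List.mem_append, hL, hB, hR, and_assoc]
  exact ⟨fun ⟨h1, h2, h3, h4⟩ => ⟨h1, h2, h3, h4⟩, fun ⟨h1, h2, h3, h4⟩ => ⟨h1, h2, h3, h4⟩⟩

/-- The cells of a slot. -/
def sl (c : Ctx) (σ : Sch) (a : ℕ) : Set Cell :=
  {x | x.1 < c.n ∧ σ.t x.1 = a ∧ x.2.1 = a ∧ x.2.2 = σ.p x.1}

theorem Rearr.sl {c : Ctx} {σ σ' : Sch} {a e s : ℕ} (h : Rearr c σ σ' a e)
    (hs : s ≤ a ∨ e ≤ s) : sl c σ' s = sl c σ s := by
  ext x
  simp only [MP_caa638_lc.sl, Set.mem_ofPred_eq]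
  refine and_congr_right (fun hv => ?_)
  by_cases g : a < σ.t x.1 ∧ σ.t x.1 < e
  · have := h.ins _ hv g.1 g.2
    constructor <;> intro g' <;> omega
  · rw [(h.out _ hv g).1, (h.out _ hv g).2]

variable {m : ℕ} {G : Gr} (hac : ∀ v, ¬ TransGen (arcR G) v v)

theorem slots_complete {σ : Sch} (hv : Valid (ctx m G hac) σ) {a : ℕ} (ha : a < G.length + 2) :
    ∃ L ∈ slots m G, ∀ x, x ∈ L ↔ x ∈ sl (ctx m G hac) σ a := by
  refine ⟨(win (ctx m G hac) σ a 1).toList.map (fun v => (v, a, σ.p v)), ?_, fun x => ?_⟩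
  · rw [slots, mem_tup]
    constructor
    · have := hv.card_le a 1
      rw [one_mul] at this
      rw [List.length_map, Finset.length_toList]
      exact this
    · intro x hx
      simp only [List.mem_map, Finset.mem_toList, mem_win] at hx
      obtain ⟨v, h1, rfl⟩ := hx
      simp only [cells, List.mem_flatMap, List.mem_map, mem_rng, mem_tms, List.mem_range]
      exact ⟨v, h1.1, a, ha, σ.p v, hv.rng v h1.1, rfl⟩
  · simp only [List.mem_map, Finset.mem_toList, mem_win, sl, Set.mem_ofPred_eq]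
    constructor
    · rintro ⟨v, h1, rfl⟩
      exact ⟨h1.1, by dsimp only; omega, rfl, rfl⟩
    · rintro ⟨h1, h2, h3, h4⟩
      exact ⟨x.1, ⟨h1, by omega, by omega⟩, by rw [← h3, ← h4]⟩

theorem first_ne {γ : Type} {l : List (List γ)} {w : List γ} (h : w ∈ l) :
    ∃ w', w' ∈ first l := by
  cases l with
  | nil => simp at h
  | cons x l => exact ⟨x, by simp [first]⟩

theorem tstep_complete {F : List (List ℕ)} {tb : List (List Cell)} {σ : Sch}
    (hv : Valid (ctx m G hac) σ) {a e : ℕ} (ha : a < G.length + 2) (he : e < G.length + 2)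
    {B : Set ℕ} (hB : ∃ E ∈ fam m G F, ∀ v, v ∈ E ↔ v ∈ B) {w : List Cell}
    (hw : w ∈ cands m G tb)
    (h : Chk m G a e (sl (ctx m G hac) σ a) B (sl (ctx m G hac) σ e) w) :
    ∃ w' ∈ tstep m G F tb,
      Chk m G a e (sl (ctx m G hac) σ a) B (sl (ctx m G hac) σ e) w' := by
  obtain ⟨L, h1, h2⟩ := slots_complete hac hv ha
  obtain ⟨R, h3, h4⟩ := slots_complete hac hv he
  obtain ⟨E, h5, h6⟩ := hB
  obtain ⟨w', h7⟩ := first_ne (l := (cands m G tb).filter (fun w => chk m G (a, e, L, E, R) w))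
    (List.mem_filter.2 ⟨hw, (chk_iff h2 h6 h4).2 h⟩)
  refine ⟨w', List.mem_flatMap.2 ⟨(a, e, L, E, R), ?_, h7⟩,
    (chk_iff h2 h6 h4).1 (List.mem_filter.1 (mem_first h7)).2⟩
  simp only [states, List.mem_flatMap, List.mem_map, mem_tms]
  exact ⟨a, ha, e, he, L, h1, E, h5, R, h3, rfl⟩

theorem pok_cells {σ : Sch} (hv : Valid (ctx m G hac) σ) {x y : Cell} {a b : ℕ}
    (hx : x ∈ sl (ctx m G hac) σ a) (hy : y ∈ sl (ctx m G hac) σ b) : POk G x y := by
  obtain ⟨u, s, p⟩ := x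
  obtain ⟨v, t, q⟩ := y
  obtain ⟨h1, h2, h3, h4⟩ := hx
  obtain ⟨h5, h6, h7, h8⟩ := hy
  dsimp only at h1 h2 h3 h4 h5 h6 h7 h8
  subst h2 h3 h4 h6 h7 h8
  refine ⟨?_, fun h => ?_, fun h => hv.fwd u v h⟩
  · rintro (rfl : u = v)
    rfl
  · simp only [Prod.mk.injEq] at h
    exact hv.inj u h1 v h5 h.1 h.2

theorem pok_far {σ : Sch} (hv : Valid (ctx m G hac) σ) {x y : Cell} {z : ℕ}
    (h1 : σ.t x.1 < z) (h2 : x.2.1 < z) (h3 : z < σ.t y.1) (h4 : z < y.2.1) :
    POk G x y ∧ POk G y x := by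
  refine ⟨⟨fun h => ?_, fun h => ?_, fun _ => by omega⟩, fun h => ?_, fun h => ?_, fun h => ?_⟩
  · rw [h] at h1; omega
  · rw [h] at h2; omega
  · rw [h] at h3; omega
  · rw [h] at h4; omega
  · have := (hv.fwd _ _ h).1
    omega

theorem table_complete {σ : Sch} {a e : ℕ} (hd : Der (ctx m G hac) σ a e) :
    Valid (ctx m G hac) σ → e < G.length + 2 → ∀ i, e - a ≤ i →
      ∃ w ∈ (tstep m G (unions m G))^[i] [], Chk m G a e (sl (ctx m G hac) σ a)
        (jobs (ctx m G hac) σ a e) (sl (ctx m G hac) σ e) w := by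
  induction hd with
  | base σ a =>
    intro hv he i hi
    obtain ⟨i, rfl⟩ : ∃ j, i = j + 1 := ⟨i - 1, by omega⟩
    rw [Function.iterate_succ_apply']
    have hemp : ∀ v, v ∉ jobs (ctx m G hac) σ a (a + 1) := fun v h => by
      have := h.2
      omega
    refine tstep_complete hac hv (by omega) he ⟨[], List.mem_cons_self, by simpa using hemp⟩
      List.mem_cons_self ⟨fun x hx y hy => ?_, by simp, fun v h => absurd h (hemp v), by simp⟩
    simp only [List.not_mem_nil, false_or] at hx hy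
    rcases hx with hx | hx <;> rcases hy with hy | hy <;> exact pok_cells hac hv hx hy
  | cut σ σ' a z e hr h1 h2 _ _ hF ih₁ ih₂ =>
    intro hv he i hi
    obtain ⟨i, rfl⟩ : ∃ j, i = j + 1 := ⟨i - 1, by omega⟩
    rw [Function.iterate_succ_apply']
    obtain ⟨w₁, g1, c1⟩ := ih₁ hr.valid (by omega) i (by omega)
    obtain ⟨w₂, g2, c2⟩ := ih₂ hr.valid he i (by omega)
    obtain ⟨M, g3, g4⟩ := slots_complete hac hr.valid (a := z) (by omega)
    refine tstep_complete hac hv (by omega) he (fam_complete hac hF) (w := w₁ ++ (M ++ w₂))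
      (List.mem_cons_of_mem _ (List.mem_flatMap.2 ⟨w₁, g1, List.mem_flatMap.2 ⟨w₂, g2,
        List.mem_map.2 ⟨M, g3, rfl⟩⟩⟩)) ?_
    rw [← hr.sl (s := a) (by omega), ← hr.sl (s := e) (by omega), ← hr.jobs]
    have lo : ∀ x, (x ∈ sl (ctx m G hac) σ' a ∨ x ∈ w₁) → σ'.t x.1 < z ∧ x.2.1 < z := by
      rintro x (hx | hx)
      · have := hx.2.1
        have := hx.2.2.1
        omega
      · exact ⟨(c1.ins x hx).2.2.2.2.2, (c1.ins x hx).2.1⟩
    have hi : ∀ x, (x ∈ w₂ ∨ x ∈ sl (ctx m G hac) σ' e) → z < σ'.t x.1 ∧ z < x.2.1 := by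
      rintro x (hx | hx)
      · exact ⟨(c2.ins x hx).2.2.2.2.1, (c2.ins x hx).1⟩
      · have := hx.2.1
        have := hx.2.2.1
        omega
    refine ⟨fun x hx y hy => ?_, fun x hx => ?_, fun v hv' => ?_, ?_⟩
    · simp only [List.mem_append, g4] at hx hy
      have k : ∀ x, (x ∈ sl (ctx m G hac) σ' a ∨ (x ∈ w₁ ∨ x ∈ sl (ctx m G hac) σ' z ∨ x ∈ w₂) ∨
          x ∈ sl (ctx m G hac) σ' e) → (x ∈ sl (ctx m G hac) σ' a ∨ x ∈ w₁) ∨
          x ∈ sl (ctx m G hac) σ' z ∨ (x ∈ w₂ ∨ x ∈ sl (ctx m G hac) σ' e) := by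
        rintro x (h | (h | h | h) | h)
        · exact Or.inl (Or.inl h)
        · exact Or.inl (Or.inr h)
        · exact Or.inr (Or.inl h)
        · exact Or.inr (Or.inr (Or.inl h))
        · exact Or.inr (Or.inr (Or.inr h))
      have k1 : ∀ x, (x ∈ sl (ctx m G hac) σ' a ∨ x ∈ w₁) →
          (x ∈ sl (ctx m G hac) σ' a ∨ x ∈ w₁ ∨ x ∈ sl (ctx m G hac) σ' z) :=
        fun x h => h.elim Or.inl (fun h => Or.inr (Or.inl h))
      rcases k x hx with hx' | hx' | hx' <;> rcases k y hy with hy' | hy' | hy'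
      · exact c1.ok x (k1 x hx') y (k1 y hy')
      · exact c1.ok x (k1 x hx') y (Or.inr (Or.inr hy'))
      · exact (pok_far hac hr.valid (lo x hx').1 (lo x hx').2 (hi y hy').1 (hi y hy').2).1
      · exact c1.ok x (Or.inr (Or.inr hx')) y (k1 y hy')
      · exact c1.ok x (Or.inr (Or.inr hx')) y (Or.inr (Or.inr hy'))
      · exact c2.ok x (Or.inl hx') y (Or.inr hy')
      · exact (pok_far hac hr.valid (lo y hy').1 (lo y hy').2 (hi x hx').1 (hi x hx').2).2
      · exact c2.ok x (Or.inr hx') y (Or.inl hy')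
      · exact c2.ok x (Or.inr hx') y (Or.inr hy')
    · simp only [List.mem_append, g4] at hx
      rcases hx with hx | hx | hx
      · obtain ⟨k1, k2, k3, k4, k5, k6⟩ := c1.ins x hx
        exact ⟨k1, by omega, k3, k4, k5, by omega⟩
      · obtain ⟨k1, k2, k3, k4⟩ := hx
        exact ⟨by omega, by omega, k4 ▸ hr.valid.rng _ k1, k1, by omega, by omega⟩
      · obtain ⟨k1, k2, k3, k4, k5, k6⟩ := c2.ins x hx
        exact ⟨by omega, k2, k3, k4, by omega, k6⟩
    · obtain ⟨k1, k2, k3⟩ := hv'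
      rcases lt_trichotomy (σ'.t v) z with k4 | k4 | k4
      · obtain ⟨x, k5, k6⟩ := c1.cov v ⟨k1, k2, k4⟩
        exact ⟨x, by simp [k5], k6⟩
      · refine ⟨(v, z, σ'.p v), ?_, rfl⟩
        have : (v, z, σ'.p v) ∈ M := (g4 _).2 ⟨k1, k4, rfl, rfl⟩
        simp [this]
      · obtain ⟨x, k5, k6⟩ := c2.cov v ⟨k1, k4, k3⟩
        exact ⟨x, by simp [k5], k6⟩
    · have k1 := c1.len
      have k2 := c2.len
      have k3 := ((mem_tup _ _ _).1 g3).1
      have k4 : e - a = (z - a) + (e - z) := by omega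
      rw [k4, mul_add]
      simp only [List.length_append]
      omega

/-- `w` is a complete schedule in the slots `1, …, T`. -/
def FChk (m : ℕ) (G : Gr) (T : ℕ) (w : List Cell) : Prop :=
  (∀ x ∈ w, ∀ y ∈ w, POk G x y) ∧ (∀ x ∈ w, 0 < x.2.1 ∧ x.2.1 ≤ T ∧ x.2.2 < m) ∧
    ∀ v < G.length, ∃ x ∈ w, x.1 = v

theorem fchk_iff {T : ℕ} {w : List Cell} : fchk m G T w = true ↔ FChk m G T w := by
  simp [fchk, FChk, ok_iff, mem_rng, and_assoc]

theorem head_flatMap {γ : Type} (f : ℕ → List γ) (d : γ) {T N : ℕ} (hT : T < N) (h : f T ≠ []) :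
    ∃ T' ≤ T, ((List.range N).flatMap f).headD d ∈ f T' := by
  induction N generalizing T with
  | zero => omega
  | succ N ih =>
    rw [List.range_succ, List.flatMap_append]
    by_cases g : ∃ T' < N, T' ≤ T ∧ f T' ≠ []
    · obtain ⟨T', g1, g2, g3⟩ := g
      obtain ⟨T'', g4, g5⟩ := ih g1 g3
      refine ⟨T'', g4.trans g2, ?_⟩
      cases hl : (List.range N).flatMap f with
      | nil =>
        rw [List.flatMap_eq_nil_iff] at hl
        exact absurd (hl T' (List.mem_range.2 g1)) g3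
      | cons x l => simpa [hl] using g5
    · obtain rfl : T = N := by
        by_contra g1
        exact g ⟨T, by omega, le_rfl, h⟩
      have : (List.range T).flatMap f = [] := by
        rw [List.flatMap_eq_nil_iff]
        intro x hx
        by_contra g1
        exact g ⟨x, List.mem_range.1 hx, (List.mem_range.1 hx).le, g1⟩
      refine ⟨T, le_rfl, ?_⟩
      cases hl : f T with
      | nil => exact absurd hl h
      | cons x l => simp [this, hl]

theorem best_spec {σ : Sch} {T : ℕ} (hv : Valid (ctx m G hac) σ) (hT : T ≤ G.length)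
    (ht : ∀ v < G.length, 0 < σ.t v ∧ σ.t v ≤ T) : FChk m G T (best m G (unions m G)) := by
  obtain ⟨w, h1, h2⟩ := table_complete hac (der_root hv ht) hv (by omega) (G.length + 1) (by omega)
  have h3 : FChk m G T w := by
    refine ⟨fun x hx y hy => h2.ok x (Or.inr (Or.inl hx)) y (Or.inr (Or.inl hy)), fun x hx => ?_, fun v hv' => ?_⟩
    · obtain ⟨k1, k2, k3, -⟩ := h2.ins x hx
      exact ⟨k1, by omega, k3⟩
    · have := ht v hv'
      exact h2.cov v ⟨hv', this.1, by omega⟩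
  obtain ⟨T', h4, h5⟩ := head_flatMap
    (fun T => (table m G (unions m G)).filter (fun w => fchk m G T w)) [] (T := T)
    (N := G.length + 2) (by omega)
    (List.ne_nil_of_mem (List.mem_filter.2 ⟨h1, fchk_iff.2 h3⟩))
  obtain ⟨k1, k2, k3⟩ := fchk_iff.1 (List.mem_filter.1 h5).2
  exact ⟨k1, fun x hx => by have := k2 x hx; omega, k3⟩

theorem look_spec {w : List Cell} {v : ℕ} (h : ∃ x ∈ w, x.1 = v) :
    look w v ∈ w ∧ (look w v).1 = v := by
  obtain ⟨x, h1, h2⟩ := h
  have h3 : x ∈ w.filter (fun x => decide (x.1 = v)) := by simp [h1, h2]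
  have h4 : look w v ∈ w.filter (fun x => decide (x.1 = v)) := by
    unfold look
    cases hl : w.filter (fun x => decide (x.1 = v)) with
    | nil => simp [hl] at h3
    | cons y l => simp
  simpa using h4

/-- A schedule on one processor. -/
theorem exists_seq (hm : 0 < m) : ∃ σ, Valid (ctx m G hac) σ ∧
    ∀ v < G.length, 0 < σ.t v ∧ σ.t v ≤ G.length := by
  have hlt : ∀ u v, u < G.length → prio G v < prio G u →
      ((Finset.range G.length).filter (fun w => prio G u ≤ prio G w)).card <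
      ((Finset.range G.length).filter (fun w => prio G v ≤ prio G w)).card ∨ v ≥ G.length := by
    intro u v _ h
    by_cases hv : v < G.length
    · refine Or.inl (Finset.card_lt_card ⟨Finset.monotone_filter_right _ (fun w _ g => by omega),
        fun g => ?_⟩)
      have := g (Finset.mem_filter.2 ⟨Finset.mem_range.2 hv, le_rfl⟩)
      have := (Finset.mem_filter.1 this).2
      omega
    · exact Or.inr (by omega)
  refine ⟨⟨fun v => ((Finset.range G.length).filter (fun w => prio G v ≤ prio G w)).card,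
    fun _ => 0⟩, ⟨fun _ _ => hm, fun u hu v hv h _ => ?_, fun u v h => ⟨?_, by simp⟩⟩,
    fun v hv => ⟨?_, ?_⟩⟩
  · refine (ctx m G hac).pr_inj u hu v hv ?_
    change prio G u = prio G v
    change u < G.length at hu
    change v < G.length at hv
    dsimp only at h
    rcases lt_trichotomy (prio G u) (prio G v) with g | g | g
    · have := hlt v u hv g
      omega
    · exact g
    · have := hlt u v hu g
      omega
  · have h1 := arcR_lt h
    have := hlt u v h1.1 ((ctx m G hac).pr_arc u v h)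
    dsimp only
    omega
  · dsimp only
    refine Finset.card_pos.2 ⟨v, ?_⟩
    rw [Finset.mem_filter]
    exact ⟨Finset.mem_range.2 hv, le_rfl⟩
  · exact (Finset.card_filter_le _ _).trans (Finset.card_range _).le

end Pool.Agent.Lib.MP_caa638_lc
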