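import Pool.Agent.Lib.MP_caa638_lc.Defs
import Pool.Agent.Lib.MP_caa638_lc.Table

/-!
The output of the algorithm is an optimal schedule.
-/

set_option autoImplicit false

namespace Pool.Agent.Lib.MP_caa638_lc

open Relation Pool.Agent.Lib.MP_acf5a6_lc

theorem arcR_fin {G : Gr} (i j : Fin G.length) : arcR G i j ↔ Arc G i j := by
  rw [arcR_iff]
  exact ⟨fun ⟨_, _, h⟩ => h, fun h => ⟨i.2, j.2, h⟩⟩

theorem Acyclic.arcR {G : Gr} (h : Acyclic G) : ∀ v, ¬ TransGen (arcR G) v v := by
  have key : ∀ u v, TransGen (MP_caa638_lc.arcR G) u v → ∀ (hu : u < G.length)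
      (hv : v < G.length), TransGen (Arc G) ⟨u, hu⟩ ⟨v, hv⟩ := by
    intro u v huv
    induction huv with
    | single g => exact fun hu hv => TransGen.single ((arcR_fin ⟨_, hu⟩ ⟨_, hv⟩).1 g)
    | tail _ g ih =>
      exact fun hu hv => (ih hu (arcR_lt g).1).tail ((arcR_fin ⟨_, (arcR_lt g).1⟩ ⟨_, hv⟩).1 g)
  exact fun v g => h ⟨v, (transGen_lt g).1⟩ (key v v g _ _)

theorem alg_spec {m : ℕ} (hm : 0 < m) {G : Gr} (hG : Acyclic G) :
    ∃ (π : Fin G.length → Fin m) (S : Fin G.length → ℕ), IsSchedule m G π S ∧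
      alg m G = List.ofFn (fun j => ((π j : ℕ), S j)) ∧
      ∀ π' S', IsSchedule m G π' S' → makespan S ≤ makespan S' := by
  have hac := hG.arcR
  obtain ⟨σ₀, h1, h2⟩ := exists_seq hac hm
  obtain ⟨k1, k2, k3⟩ := best_spec hac h1 le_rfl h2
  have hl := fun j : Fin G.length => look_spec (k3 j j.2)
  refine ⟨fun j => ⟨(look (best m G (unions m G)) j).2.2, (k2 _ (hl j).1).2.2⟩,
    fun j => (look (best m G (unions m G)) j).2.1 - 1, ⟨fun i j g1 g2 => ?_, fun i j g => ?_⟩,
    ?_, fun π' S' g => ?_⟩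
  · have g3 := (k2 _ (hl i).1).1
    have g4 := (k2 _ (hl j).1).1
    simp only [Fin.mk.injEq] at g1 g2
    have g5 := (k1 _ (hl i).1 _ (hl j).1).2.1 (Prod.ext (by omega) g1)
    rw [(hl i).2, (hl j).2] at g5
    exact Fin.ext g5
  · have g3 := (k2 _ (hl i).1).1
    have g5 := (k1 _ (hl i).1 _ (hl j).1).2.2 (by
      rw [(hl i).2, (hl j).2]; exact (arcR_fin i j).2 g)
    refine ⟨fun _ => by dsimp only; omega, fun g6 => ?_⟩
    have := g5.2 (fun g7 => g6 (Fin.ext g7))
    dsimp only
    omega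
  · apply List.ext_getElem
    · simp [alg, out, rng, urange, ulen]
    · intro i g1 g2
      simp [alg, out, rng, urange, ulen]
  · have key : ∀ T, FChk m G T (best m G (unions m G)) →
        makespan (fun j : Fin G.length => (look (best m G (unions m G)) j).2.1 - 1) ≤ T := by
      intro T hT
      refine Finset.sup_le (fun j _ => ?_)
      have := hT.2.1 _ (hl j).1
      dsimp only
      omega
    by_cases hT : makespan S' ≤ G.length
    · refine key _ (best_spec hac (σ := ⟨fun v => if h : v < G.length then S' ⟨v, h⟩ + 1 else 0,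
        fun v => if h : v < G.length then π' ⟨v, h⟩ else 0⟩) ⟨fun v hv => ?_,
          fun u hu v hv g1 g2 => ?_, fun u v g1 => ?_⟩ hT (fun v hv => ?_))
      · change v < G.length at hv
        simp only [dif_pos hv]
        exact (π' ⟨v, hv⟩).2
      · change u < G.length at hu
        change v < G.length at hv
        simp only [dif_pos hu, dif_pos hv] at g1 g2
        exact congrArg Fin.val (g.1 ⟨u, hu⟩ ⟨v, hv⟩ (Fin.ext g2) (by omega))
      · have g2 := arcR_lt g1
        have g3 := g.2 ⟨u, g2.1⟩ ⟨v, g2.2⟩ ((arcR_fin ⟨u, g2.1⟩ ⟨v, g2.2⟩).1 g1)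
        simp only [dif_pos g2.1, dif_pos g2.2]
        by_cases g4 : π' ⟨u, g2.1⟩ = π' ⟨v, g2.2⟩
        · have := g3.1 g4
          exact ⟨by omega, fun g5 => absurd (congrArg Fin.val g4) g5⟩
        · have := g3.2 g4
          exact ⟨by omega, fun _ => by omega⟩
      · simp only [dif_pos hv]
        exact ⟨by omega, Finset.le_sup (f := fun j => S' j + 1) (Finset.mem_univ _)⟩
    · exact (key _ ⟨k1, k2, k3⟩).trans (by omega)

end Pool.Agent.Lib.MP_caa638_lc
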