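import Mathlib

/-!
Structure lemma for schedules of unit tasks with unit communication delays on `m` processors:
every feasible instance has a schedule with a binary decomposition into time intervals whose job
sets belong to a family generated in boundedly many rounds from polynomially many basic sets.
-/

set_option autoImplicit false

namespace Pool.Agent.Lib.MP_caa638_lc.Poly

variable {J : Type} {m : ℕ}

/-- A job in cell `c` (time, processor) may precede a job in cell `d`. -/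
def Prec (c d : ℕ × Fin m) : Prop := c.1 + 2 ≤ d.1 ∨ (c.1 + 1 ≤ d.1 ∧ c.2 = d.2)

/-- Valid schedules for the precedence relation `r`. -/
structure Valid (r : J → J → Prop) (σ : J → ℕ × Fin m) : Prop where
  inj : Function.Injective σ
  prec : ∀ i j, r i j → Prec (σ i) (σ j)

/-- Sets generated from the basic sets in `t` rounds of union, intersection and difference. -/
inductive Lv (r : J → J → Prop) (π : J → ℕ) (K : ℕ) : ℕ → Set J → Prop
  | single (j : J) : Lv r π K 0 {j}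
  | pred (j : J) : Lv r π K 0 {i | r i j}
  | succ (j : J) : Lv r π K 0 {i | r j i}
  | thr (θ : ℕ) : θ ≤ K → Lv r π K 0 {i | θ ≤ π i}
  | union {t : ℕ} {A B : Set J} : Lv r π K t A → Lv r π K t B → Lv r π K (t + 1) (A ∪ B)
  | inter {t : ℕ} {A B : Set J} : Lv r π K t A → Lv r π K t B → Lv r π K (t + 1) (A ∩ B)
  | diff {t : ℕ} {A B : Set J} : Lv r π K t A → Lv r π K t B → Lv r π K (t + 1) (A \ B)

/-- The jobs started in the time interval from `a` (included) to `e` (excluded). -/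
def seg (σ : J → ℕ × Fin m) (a e : ℕ) : Set J := {j | a ≤ (σ j).1 ∧ (σ j).1 < e}

/-- Binary decomposition of a time interval all of whose job sets satisfy `F`. -/
inductive Dec (F : Set J → Prop) (σ : J → ℕ × Fin m) : ℕ → ℕ → Prop
  | leaf (a : ℕ) : F (seg σ a (a + 1)) → Dec F σ a (a + 1)
  | node (a z e : ℕ) : a < z → z < e → Dec F σ a z → Dec F σ z e → F (seg σ a e) → Dec F σ a e


section lv

variable {r : J → J → Prop} {π : J → ℕ} {K : ℕ}

theorem Lv.step {t : ℕ} {A : Set J} (h : Lv r π K t A) : Lv r π K (t + 1) A := by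
  simpa using h.union h

theorem Lv.mono {t u : ℕ} {A : Set J} (h : Lv r π K t A) (htu : t ≤ u) : Lv r π K u A := by
  induction htu with
  | refl => exact h
  | step _ ih => exact ih.step

theorem Lv.empty (hK : ∀ j, π j < K) : Lv r π K 0 ∅ := by
  have h := Lv.thr (r := r) (π := π) K le_rfl
  have e : {i | K ≤ π i} = (∅ : Set J) := by
    ext i; have := hK i; simp; omega
  rwa [e] at h

theorem Lv.univ : Lv r π K 0 Set.univ := by
  have h := Lv.thr (r := r) (π := π) (K := K) 0 (Nat.zero_le _)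
  have e : {i | 0 ≤ π i} = (Set.univ : Set J) := by ext i; simp
  rwa [e] at h

theorem Lv.biUnion (hK : ∀ j, π j < K) {ι : Type} (s : Finset ι) (f : ι → Set J) {t : ℕ}
    (hf : ∀ v, Lv r π K t (f v)) : Lv r π K (t + s.card) {j | ∃ v ∈ s, j ∈ f v} := by
  classical
  induction s using Finset.induction_on with
  | empty => simpa using (Lv.empty hK).mono (Nat.zero_le t)
  | insert v s hv ih =>
    have h := ((hf v).mono (Nat.le_add_right t s.card)).union ih
    have e : {j | ∃ w ∈ insert v s, j ∈ f w} = f v ∪ {j | ∃ w ∈ s, j ∈ f w} := by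
      ext j; simp
    rw [e, Finset.card_insert_of_notMem hv]
    exact h

theorem seg_card [Fintype J] {σ : J → ℕ × Fin m} (hσ : Function.Injective σ) (a k : ℕ) :
    ∃ s : Finset J, (∀ j, j ∈ s ↔ a ≤ (σ j).1 ∧ (σ j).1 < a + k) ∧ s.card ≤ m * k := by
  classical
  refine ⟨Finset.univ.filter (fun j => a ≤ (σ j).1 ∧ (σ j).1 < a + k), by simp, ?_⟩
  have h := Finset.card_le_card_of_injOn (s := Finset.univ.filter
    (fun j => a ≤ (σ j).1 ∧ (σ j).1 < a + k)) (t := Finset.Ico a (a + k) ×ˢ Finset.univ) σ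
    (fun j hj => by
      simp only [Finset.coe_filter, Finset.mem_univ, true_and, Set.mem_ofPred_eq] at hj
      simp [hj.1, hj.2]) (fun i _ j _ h => hσ h)
  simp only [Finset.card_product, Nat.card_Ico, Finset.card_univ, Fintype.card_fin,
    Nat.add_sub_cancel_left] at h
  rwa [mul_comm] at h

theorem Lv.segUnion [Fintype J] (hK : ∀ j, π j < K) {σ : J → ℕ × Fin m}
    (hσ : Function.Injective σ) (a k : ℕ) (f : J → Set J) (hf : ∀ v, Lv r π K 0 (f v)) :
    Lv r π K (m * k) {j | ∃ v, (a ≤ (σ v).1 ∧ (σ v).1 < a + k) ∧ j ∈ f v} := by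
  obtain ⟨s, hs, hc⟩ := seg_card hσ a k
  have h := (Lv.biUnion hK s f hf).mono (u := m * k) (by omega)
  simpa only [hs] using h

theorem Lv.seg' [Fintype J] (hK : ∀ j, π j < K) {σ : J → ℕ × Fin m}
    (hσ : Function.Injective σ) (a k : ℕ) : Lv r π K (m * k) (seg σ a (a + k)) := by
  have h := Lv.segUnion (r := r) hK hσ a k (fun v => {v}) (fun v => Lv.single v)
  have e : {j | ∃ v, (a ≤ (σ v).1 ∧ (σ v).1 < a + k) ∧ j ∈ ({v} : Set J)} = seg σ a (a + k) := by
    ext j; simp [seg]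
  rwa [e] at h

end lv

theorem Dec.congr {F : Set J → Prop} {σ s : J → ℕ × Fin m} {a e : ℕ} (h : Dec F σ a e)
    (hs : ∀ j, (σ j).1 < e ∨ (s j).1 < e → s j = σ j) : Dec F s a e := by
  have key : ∀ a e, (∀ j, (σ j).1 < e ∨ (s j).1 < e → s j = σ j) → seg s a e = seg σ a e := by
    intro a e hs
    ext j
    simp only [seg, Set.mem_ofPred_eq]
    constructor
    · intro h; rw [← hs j (Or.inr h.2)]; exact h
    · intro h; rw [hs j (Or.inl h.2)]; exact h
  induction h with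
  | leaf a hF => exact Dec.leaf a (by rw [key _ _ hs]; exact hF)
  | node a z e h1 h2 _ _ hF ih1 ih2 =>
    exact Dec.node a z e h1 h2 (ih1 (fun j hj => hs j (by omega))) (ih2 hs)
      (by rw [key _ _ hs]; exact hF)

theorem exists_max {α : Type} (P : α → Prop) (f : α → ℕ) (M : ℕ) (hM : ∀ x, P x → f x ≤ M)
    (h : ∃ x, P x) : ∃ x, P x ∧ ∀ y, P y → f y ≤ f x := by
  classical
  by_contra hc
  push Not at hc
  have : ∀ k, ∃ x, P x ∧ k ≤ f x := by
    intro k
    induction k with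
    | zero => obtain ⟨x, hx⟩ := h; exact ⟨x, hx, Nat.zero_le _⟩
    | succ k ih =>
      obtain ⟨x, hx, hk⟩ := ih
      obtain ⟨y, hy, hxy⟩ := hc x hx
      exact ⟨y, hy, by omega⟩
  obtain ⟨x, hx, hk⟩ := this (M + 1)
  have := hM x hx
  omega

theorem Valid.lt {r : J → J → Prop} {σ : J → ℕ × Fin m} (h : Valid r σ) {i j : J} (hij : r i j) :
    (σ i).1 < (σ j).1 := by
  rcases h.prec i j hij with h | h <;> omega

theorem Valid.swap [DecidableEq J] {r : J → J → Prop} {s : J → ℕ × Fin m} (h : Valid r s) {l u : J}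
    (hlu : (s l).1 < (s u).1) (hl : ∀ v, r l v → (s u).1 + 2 ≤ (s v).1)
    (hu : ∀ i, r i u → (s i).1 + 2 ≤ (s l).1) : Valid r (s ∘ Equiv.swap l u) := by
  refine ⟨h.inj.comp (Equiv.swap l u).injective, fun i j hij => ?_⟩
  have h0 := h.lt hij
  simp only [Function.comp]
  by_cases hi : i = l
  · subst hi
    have h1 := hl j hij
    have hj1 : j ≠ i := by rintro rfl; omega
    have hj2 : j ≠ u := by rintro rfl; omega
    rw [Equiv.swap_apply_left, Equiv.swap_apply_of_ne_of_ne hj1 hj2]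
    exact Or.inl h1
  by_cases hj : j = u
  · subst hj
    have h1 := hu i hij
    have hi2 : i ≠ j := by rintro rfl; omega
    rw [Equiv.swap_apply_right, Equiv.swap_apply_of_ne_of_ne hi hi2]
    exact Or.inl h1
  by_cases hi' : i = u
  · subst hi'
    have hj1 : j ≠ l := by rintro rfl; omega
    rw [Equiv.swap_apply_right, Equiv.swap_apply_of_ne_of_ne hj1 hj]
    exact Or.inl (by omega)
  by_cases hj' : j = l
  · subst hj'
    rw [Equiv.swap_apply_left, Equiv.swap_apply_of_ne_of_ne hi hi']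
    exact Or.inl (by omega)
  rw [Equiv.swap_apply_of_ne_of_ne hi hi', Equiv.swap_apply_of_ne_of_ne hj' hj]
  exact h.prec i j hij

/-- `s` arises from `σ` by moving only jobs of `B`, inside the interval. -/
structure Re (r : J → J → Prop) (σ s : J → ℕ × Fin m) (a e : ℕ) (B : Set J) : Prop where
  valid : Valid r s
  out : ∀ j, j ∉ B → s j = σ j
  ins : ∀ j, j ∈ B → a ≤ (s j).1 ∧ (s j).1 < e

theorem Re.trans {r : J → J → Prop} {σ s s' : J → ℕ × Fin m} {a e a' e' : ℕ} {B B' : Set J}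
    (h : Re r σ s a e B) (h' : Re r s s' a' e' B') (hB : ∀ j, j ∈ B' → j ∈ B) (ha : a ≤ a')
    (he : e' ≤ e) : Re r σ s' a e B := by
  refine ⟨h'.valid, fun j hj => ?_, fun j hj => ?_⟩
  · rw [h'.out j (fun h => hj (hB j h)), h.out j hj]
  · by_cases hj' : j ∈ B'
    · have := h'.ins j hj'; omega
    · rw [h'.out j hj']; exact h.ins j hj

/-- One entry of the list. -/
def ent (π : J → ℕ) (E : Fin (3 * m + 1) → Set J) (θ : Fin (3 * m + 1) → ℕ) (i : Fin (3 * m + 1)) : Set J :=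
  {j | j ∈ E i ∧ θ i ≤ π j}

/-- The union of the entries. -/
def cov (π : J → ℕ) (E : Fin (3 * m + 1) → Set J) (θ : Fin (3 * m + 1) → ℕ) : Set J := {j | ∃ i, j ∈ ent π E θ i}

/-- Predecessors of the jobs in the three slots around `e`. -/
def dn (r : J → J → Prop) (s : J → ℕ × Fin m) (e : ℕ) : Set J :=
  {j | ∃ v, (e ≤ (s v).1 + 2 ∧ (s v).1 ≤ e) ∧ r j v}

/-- A list of entries. -/
structure Lst (r : J → J → Prop) (π : J → ℕ) (K : ℕ) (E : Fin (3 * m + 1) → Set J) (θ : Fin (3 * m + 1) → ℕ) :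
    Prop where
  lv : ∀ i, Lv r π K (m * 3 + 1) (E i)
  down : ∀ i x y, r x y → y ∈ E i → x ∈ E i
  le : ∀ i, θ i ≤ K

/-- The invariant of a region. -/
structure Inv (r : J → J → Prop) (π : J → ℕ) (K : ℕ) (σ : J → ℕ × Fin m) (a e : ℕ) (B X : Set J)
    (E : Fin (3 * m + 1) → Set J) (θ : Fin (3 * m + 1) → ℕ) : Prop where
  valid : Valid r σ
  le : a + 2 ≤ e
  lst : Lst r π K E θ
  ins : ∀ j, j ∈ B → a ≤ (σ j).1 ∧ (σ j).1 < e
  int : ∀ j, a ≤ (σ j).1 → (σ j).1 + 2 < e → j ∈ B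
  xlv : Lv r π K (m * 2 + 1) X
  bx : ∀ j, j ∈ B → j ∈ X
  xt : ∀ j, j ∈ X → a ≤ (σ j).1
  bn : ∀ j, j ∈ B → j ∈ cov π E θ
  fn : ∀ j, a ≤ (σ j).1 → (σ j).1 < e → j ∉ B → j ∉ cov π E θ
  j2 : ∀ s, Re r σ s a e B → ∀ j, j ∈ cov π E θ → e ≤ (s j).1 →
    ∃ i, e ≤ (s i).1 + 2 ∧ (s i).1 < e ∧ r i j
  j3 : ∀ u v, a ≤ (σ u).1 → (σ u).1 < e → u ∉ B → a ≤ (σ v).1 → (σ v).1 ≤ e → ¬ r u v
  j4 : ∀ v, a ≤ (σ v).1 → (σ v).1 ≤ e → v ∉ B → ∃ i, ∀ x, x ∈ B → r x v → x ∈ ent π E θ i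

section main

variable {r : J → J → Prop} {π : J → ℕ} {K : ℕ}

theorem ent_down (hπ : ∀ i j, r i j → π j < π i) {E : Fin (3 * m + 1) → Set J} {θ : Fin (3 * m + 1) → ℕ}
    (hd : ∀ i x y, r x y → y ∈ E i → x ∈ E i) {i : Fin (3 * m + 1)} {x y : J} (hxy : r x y)
    (hy : y ∈ ent π E θ i) : x ∈ ent π E θ i :=
  ⟨hd i x y hxy hy.1, hy.2.trans (hπ x y hxy).le⟩

theorem cov_down (hπ : ∀ i j, r i j → π j < π i) {E : Fin (3 * m + 1) → Set J} {θ : Fin (3 * m + 1) → ℕ}
    (hd : ∀ i x y, r x y → y ∈ E i → x ∈ E i) {x y : J} (hxy : r x y)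
    (hy : y ∈ cov π E θ) : x ∈ cov π E θ := by
  obtain ⟨i, hi⟩ := hy
  exact ⟨i, ent_down hπ hd hxy hi⟩

theorem cov_mono {E : Fin (3 * m + 1) → Set J} {θ θ' : Fin (3 * m + 1) → ℕ} (h : ∀ i, θ i ≤ θ' i) {x : J}
    (hx : x ∈ cov π E θ') : x ∈ cov π E θ := by
  obtain ⟨i, hi⟩ := hx
  exact ⟨i, hi.1, (h i).trans hi.2⟩

theorem Inv.re {σ s : J → ℕ × Fin m} {a e : ℕ} {B X : Set J} {E : Fin (3 * m + 1) → Set J} {θ : Fin (3 * m + 1) → ℕ}
    (h : Inv r π K σ a e B X E θ) (hs : Re r σ s a e B) : Inv r π K s a e B X E θ := by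
  refine ⟨hs.valid, h.le, h.lst, hs.ins, fun j h1 h2 => ?_, h.xlv, h.bx, fun j hj => ?_, h.bn,
    fun j h1 h2 hj => ?_, fun s' hs' => h.j2 s' (hs.trans hs' (fun _ h => h) le_rfl le_rfl),
    fun u v h1 h2 hu h3 h4 => ?_, fun v h1 h2 hv => ?_⟩
  · by_contra hj
    rw [hs.out j hj] at h1 h2
    exact hj (h.int j h1 h2)
  · by_cases hb : j ∈ B
    · exact (hs.ins j hb).1
    · rw [hs.out j hb]; exact h.xt j hj
  · rw [hs.out j hj] at h1 h2
    exact h.fn j h1 h2 hj
  · rw [hs.out u hu] at h1 h2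
    by_cases hv : v ∈ B
    · exact h.j3 u v h1 h2 hu (h.ins v hv).1 (h.ins v hv).2.le
    · rw [hs.out v hv] at h3 h4
      exact h.j3 u v h1 h2 hu h3 h4
  · rw [hs.out v hv] at h1 h2
    exact h.j4 v h1 h2 hv

theorem Inv.refl {σ : J → ℕ × Fin m} {a e : ℕ} {B X : Set J} {E : Fin (3 * m + 1) → Set J} {θ : Fin (3 * m + 1) → ℕ}
    (h : Inv r π K σ a e B X E θ) : Re r σ σ a e B := ⟨h.valid, fun _ _ => rfl, h.ins⟩

theorem Inv.lv [Fintype J] (hK : ∀ j, π j < K) {σ : J → ℕ × Fin m} {a e : ℕ} {B X : Set J}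
    {E : Fin (3 * m + 1) → Set J} {θ : Fin (3 * m + 1) → ℕ} (h : Inv r π K σ a e B X E θ) :
    Lv r π K (6 * m + 6) (seg σ a e) := by
  have hle := h.le
  have h1 : ∀ i, Lv r π K (m * 3 + 1 + 1) (ent π E θ i) := fun i =>
    (h.lst.lv i).inter ((Lv.thr (θ i) (h.lst.le i)).mono (Nat.zero_le _))
  have h2 : Lv r π K (6 * m + 3) (cov π E θ) := by
    have := (Lv.biUnion hK Finset.univ (ent π E θ) h1).mono (u := 6 * m + 3) (by
      simp only [Finset.card_univ, Fintype.card_fin]; omega)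
    simpa [cov] using this
  have h3 := Lv.segUnion (r := r) hK h.valid.inj (e - 2) 2 (fun v => {i | r v i})
    (fun v => Lv.succ v)
  have h4 := Lv.seg' (r := r) hK h.valid.inj (e - 2) 2
  have h5 := (((h.xlv.mono (by omega : _ ≤ 6 * m + 3)).inter h2).diff
    (h3.mono (by omega))).union (h4.mono (by omega))
  have e1 : seg σ a e = ((X ∩ cov π E θ) \
      {j | ∃ v, (e - 2 ≤ (σ v).1 ∧ (σ v).1 < e - 2 + 2) ∧ j ∈ {i | r v i}}) ∪
      seg σ (e - 2) (e - 2 + 2) := by
    ext j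
    simp only [seg, Set.mem_ofPred_eq, Set.mem_union, Set.mem_sdiff, Set.mem_inter_iff]
    constructor
    · rintro ⟨h1, h2⟩
      by_cases hj : (σ j).1 + 2 < e
      · have hb := h.int j h1 hj
        refine Or.inl ⟨⟨h.bx j hb, h.bn j hb⟩, ?_⟩
        rintro ⟨v, hv, hvj⟩
        have := h.valid.lt hvj
        omega
      · exact Or.inr (by omega)
    · rintro (⟨⟨h1, h2⟩, h3⟩ | h1)
      · refine ⟨h.xt j h1, ?_⟩
        by_contra hj
        obtain ⟨i, hi1, hi2, hi3⟩ := h.j2 σ h.refl j h2 (by omega)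
        exact h3 ⟨i, by omega, hi3⟩
      · omega
  rw [e1]
  exact h5

/-- Admissible pairs of an arrangement and raised thresholds. -/
structure Adm (r : J → J → Prop) (π : J → ℕ) (K : ℕ) (σ : J → ℕ × Fin m) (a e : ℕ) (B : Set J)
    (E : Fin (3 * m + 1) → Set J) (θ : Fin (3 * m + 1) → ℕ) (s : J → ℕ × Fin m) (θ' : Fin (3 * m + 1) → ℕ) : Prop where
  re : Re r σ s a e B
  ge : ∀ i, θ i ≤ θ' i
  le : ∀ i, θ' i ≤ K
  cover : ∀ j, a ≤ (s j).1 → (s j).1 + 2 < e → j ∈ cov π E θ' ∨ j ∈ dn r s e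
  good : (∃ i, θ' i = K) ∨
    ∀ v, e ≤ (s v).1 + 2 → (s v).1 ≤ e → ∃ i, ∀ x, x ∈ B → r x v → x ∈ ent π E θ' i

/-- The excluded movable jobs of the wall. -/
def excl (r : J → J → Prop) (π : J → ℕ) (e : ℕ) (B : Set J) (E : Fin (3 * m + 1) → Set J)
    (s : J → ℕ × Fin m) (θ' : Fin (3 * m + 1) → ℕ) : Set J :=
  {w | w ∈ B ∧ e ≤ (s w).1 + 2 ∧ w ∉ cov π E θ' ∧ w ∉ dn r s e}

/-- The data of a cut. -/
structure Cut (r : J → J → Prop) (π : J → ℕ) (K : ℕ) (a e : ℕ) (B : Set J)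
    (E : Fin (3 * m + 1) → Set J) (θ : Fin (3 * m + 1) → ℕ) (s : J → ℕ × Fin m) (l : J)
    (E' : Fin (3 * m + 1) → Set J) (θ' : Fin (3 * m + 1) → ℕ) : Prop where
  lst : Lst r π K E' θ'
  l1 : a ≤ (s l).1
  l2 : (s l).1 + 2 < e
  lout : l ∉ cov π E' θ'
  cover : ∀ j, a ≤ (s j).1 → (s j).1 + 2 < e → j ≠ l → j ∈ cov π E' θ'
  sink : ∀ v, r l v → e + 1 ≤ (s v).1
  c4 : ∃ i, ∀ x, r x l → x ∈ ent π E' θ' i
  c5 : ∀ v, e ≤ (s v).1 + 2 → (s v).1 ≤ e → ∃ i, ∀ x, x ∈ B → r x v → x ∈ ent π E' θ' i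
  c6 : ∀ j, j ∈ cov π E' θ' → j ∈ cov π E θ ∨ j ∈ dn r s e
  c7 : ∀ s', Re r s s' a (e - 2) (seg s a (e - 2)) → ∀ w, w ∈ B → e ≤ (s w).1 + 2 →
    w ∈ cov π E' θ' → ¬ ∀ i, r i w → (s' i).1 + 2 ≤ (s' l).1

theorem dn_lv [Fintype J] (hK : ∀ j, π j < K) {s : J → ℕ × Fin m} (hs : Valid r s) {e : ℕ}
    (he : 2 ≤ e) : Lv r π K (m * 3) (dn r s e) := by
  have h := Lv.segUnion (r := r) hK hs.inj (e - 2) 3 (fun v => {i | r i v}) (fun v => Lv.pred v)
  have e1 : dn r s e = {j | ∃ v, (e - 2 ≤ (s v).1 ∧ (s v).1 < e - 2 + 3) ∧ j ∈ {i | r i v}} := by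
    ext j
    simp only [dn, Set.mem_ofPred_eq]
    exact exists_congr fun v => and_congr_left fun _ => by omega
  rw [e1]
  exact h

theorem exists_cut [Fintype J] (htr : ∀ i j k, r i j → r j k → r i k)
    (hinj : Function.Injective π) (hπ : ∀ i j, r i j → π j < π i) (hK : ∀ j, π j < K)
    {σ : J → ℕ × Fin m} {a e : ℕ} {B X : Set J} {E : Fin (3 * m + 1) → Set J} {θ : Fin (3 * m + 1) → ℕ}
    (h : Inv r π K σ a e B X E θ) :
    ∃ s, Re r σ s a e B ∧ ((∀ j, a ≤ (s j).1 → (s j).1 + 2 < e → j ∈ dn r s e) ∨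
      ∃ l E' θ', Cut r π K a e B E θ s l E' θ') := by
  classical
  have hle := h.le
  have hd := h.lst.down
  have h0 : Adm r π K σ a e B E θ σ θ := by
    refine ⟨h.refl, fun _ => le_rfl, h.lst.le, fun j h1 h2 => Or.inl (h.bn j (h.int j h1 h2)),
      Or.inr fun v h1 h2 => ?_⟩
    by_cases hv : v ∈ B
    · obtain ⟨i, hi⟩ := h.bn v hv
      exact ⟨i, fun x _ hx => ent_down hπ hd hx hi⟩
    · exact h.j4 v (by omega) h2 hv
  obtain ⟨M, hsum⟩ : ∃ M, ∀ θ' : Fin (3 * m + 1) → ℕ, (∀ i, θ' i ≤ K) → ∑ i, θ' i ≤ M :=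
    ⟨_, fun θ' h' => Finset.sum_le_card_nsmul Finset.univ θ' K (fun i _ => h' i)⟩
  obtain ⟨⟨s, θ'⟩, hA, hmax⟩ := exists_max
    (fun p : (J → ℕ × Fin m) × (Fin (3 * m + 1) → ℕ) => Adm r π K σ a e B E θ p.1 p.2)
    (fun p => (excl r π e B E p.1 p.2).ncard * (M + 1) + ∑ i, p.2 i)
    (Fintype.card J * (M + 1) + M)
    (fun p hp => by
      have h1 : (excl r π e B E p.1 p.2).ncard ≤ Fintype.card J := by
        have := Set.ncard_le_card (excl r π e B E p.1 p.2)
        rwa [Nat.card_eq_fintype_card] at this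
      have h2 := hsum p.2 hp.le
      have := Nat.mul_le_mul_right (M + 1) h1
      omega)
    ⟨(σ, θ), h0⟩
  simp only at hA hmax
  have hI := h.re hA.re
  have hv := hI.valid
  refine ⟨s, hA.re, ?_⟩
  by_cases hall : ∀ i, θ' i = K
  · refine Or.inl fun j h1 h2 => ?_
    rcases hA.cover j h1 h2 with ⟨i, hi⟩ | hj
    · have := hi.2; have := hK j; rw [hall i] at *; omega
    · exact hj
  right
  -- an entry which can be raised
  obtain ⟨i, hiK, hgood⟩ : ∃ i, θ' i < K ∧ ((∃ i₀, i₀ ≠ i ∧ θ' i₀ = K) ∨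
      ∀ v, e ≤ (s v).1 + 2 → (s v).1 ≤ e →
        ∃ i', i' ≠ i ∧ ∀ x, x ∈ B → r x v → x ∈ ent π E θ' i') := by
    by_cases hex : ∃ i₀, θ' i₀ = K
    · obtain ⟨i₀, hi₀⟩ := hex
      push Not at hall
      obtain ⟨i, hi⟩ := hall
      refine ⟨i, lt_of_le_of_ne (hA.le i) hi, Or.inl ⟨i₀, ?_, hi₀⟩⟩
      rintro rfl
      exact hi hi₀
    · have hg := hA.good.resolve_left hex
      choose! g hg using hg
      obtain ⟨W, hW, hc⟩ := seg_card hv.inj (e - 2) 3
      have hlt : (W.image g).card < (Finset.univ : Finset (Fin (3 * m + 1))).card := by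
        have := Finset.card_image_le (s := W) (f := g)
        simp only [Finset.card_univ, Fintype.card_fin]
        omega
      obtain ⟨i, -, hi⟩ := Finset.exists_mem_notMem_of_card_lt_card hlt
      refine ⟨i, lt_of_le_of_ne (hA.le i) (fun h' => hex ⟨i, h'⟩),
        Or.inr fun v h1 h2 => ⟨g v, ?_, hg v h1 h2⟩⟩
      rintro rfl
      exact hi (Finset.mem_image_of_mem g ((hW v).2 (by omega)))
  set θp : Fin (3 * m + 1) → ℕ := Function.update θ' i (θ' i + 1) with hθp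
  have hpi : θp i = θ' i + 1 := by simp [hθp]
  have hpne : ∀ i', i' ≠ i → θp i' = θ' i' := fun i' h' => by simp [hθp, h']
  have hpge : ∀ i', θ' i' ≤ θp i' := fun i' => by
    by_cases h' : i' = i
    · subst h'; omega
    · rw [hpne i' h']
  have hple : ∀ i', θp i' ≤ K := fun i' => by
    by_cases h' : i' = i
    · subst h'; omega
    · rw [hpne i' h']; exact hA.le i'
  have hent : ∀ i', i' ≠ i → ∀ x, x ∈ ent π E θ' i' → x ∈ ent π E θp i' := fun i' h' x hx =>
    ⟨hx.1, by rw [hpne i' h']; exact hx.2⟩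
  have hgoodp : (∃ i₀, θp i₀ = K) ∨ ∀ v, e ≤ (s v).1 + 2 → (s v).1 ≤ e →
      ∃ i', ∀ x, x ∈ B → r x v → x ∈ ent π E θp i' := by
    rcases hgood with ⟨i₀, h1, h2⟩ | hg
    · exact Or.inl ⟨i₀, by rw [hpne i₀ h1, h2]⟩
    · refine Or.inr fun v h1 h2 => ?_
      obtain ⟨i', hi', hx⟩ := hg v h1 h2
      exact ⟨i', fun x h3 h4 => hent i' hi' x (hx x h3 h4)⟩
  have hsump : ∑ i', θp i' = ∑ i', θ' i' + 1 := by
    rw [hθp, Finset.sum_update_of_mem (Finset.mem_univ i),
      ← Finset.add_sum_erase _ θ' (Finset.mem_univ i), Finset.sdiff_singleton_eq_erase]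
    omega
  -- the cut job
  obtain ⟨l, hl1, hl2, hl3, hl4⟩ : ∃ l, a ≤ (s l).1 ∧ (s l).1 + 2 < e ∧ l ∉ cov π E θp ∧
      l ∉ dn r s e := by
    by_contra hc
    have hA' : Adm r π K σ a e B E θ s θp := by
      refine ⟨hA.re, fun i' => (hA.ge i').trans (hpge i'), hple, fun j h1 h2 => ?_, hgoodp⟩
      by_contra hj
      exact hc ⟨j, h1, h2, fun h' => hj (Or.inl h'), fun h' => hj (Or.inr h')⟩
    have h1 := hmax (s, θp) hA'
    simp only at h1
    have h2 : (excl r π e B E s θ').ncard ≤ (excl r π e B E s θp).ncard :=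
      Set.ncard_le_ncard (fun w hw => ⟨hw.1, hw.2.1, fun h' => hw.2.2.1 (cov_mono hpge h'),
        hw.2.2.2⟩) (Set.toFinite _)
    have := Nat.mul_le_mul_right (M + 1) h2
    omega
  have hlE : l ∈ E i ∧ π l = θ' i := by
    rcases hA.cover l hl1 hl2 with ⟨i', hi'⟩ | h'
    · by_cases h'' : i' = i
      · subst h''
        refine ⟨hi'.1, ?_⟩
        by_contra hne
        exact hl3 ⟨i', hi'.1, by have := hi'.2; omega⟩
      · exact absurd ⟨i', hent i' h'' l hi'⟩ hl3
    · exact absurd h' hl4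
  have hcov : ∀ j, a ≤ (s j).1 → (s j).1 + 2 < e → j ≠ l → j ∈ cov π E θp ∨ j ∈ dn r s e := by
    intro j h1 h2 h3
    rcases hA.cover j h1 h2 with ⟨i', hi'⟩ | h'
    · by_cases h'' : i' = i
      · subst h''
        have h4 : π j ≠ π l := fun h' => h3 (hinj h')
        exact Or.inl ⟨i', hi'.1, by have := hi'.2; omega⟩
      · exact Or.inl ⟨i', hent i' h'' j hi'⟩
    · exact Or.inr h'
  have hdn : ∀ x y, r x y → y ∈ dn r s e → x ∈ dn r s e := by
    rintro x y hxy ⟨v, hv, hyv⟩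
    exact ⟨v, hv, htr _ _ _ hxy hyv⟩
  have hsink : ∀ v, r l v → e + 1 ≤ (s v).1 := by
    intro v hlv
    have h1 := hv.lt hlv
    by_contra hc
    by_cases h2 : (s v).1 + 2 < e
    · have h3 : v ≠ l := by rintro rfl; omega
      rcases hcov v (by omega) h2 h3 with h4 | h4
      · exact hl3 (cov_down hπ hd hlv h4)
      · exact hl4 (hdn _ _ hlv h4)
    · exact hl4 ⟨v, by omega, hlv⟩
  have hc4 : ∀ x, r x l → x ∈ ent π E θp i := fun x hx =>
    ⟨hd i x l hx hlE.1, by have := hπ x l hx; omega⟩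
  -- the swap argument
  have hc7 : ∀ s', Re r s s' a (e - 2) (seg s a (e - 2)) → ∀ w, w ∈ B → e ≤ (s w).1 + 2 →
      (w ∈ cov π E θp ∨ w ∈ dn r s e) → ¬ ∀ i, r i w → (s' i).1 + 2 ≤ (s' l).1 := by
    intro s' hs' w hwB hw1 hw2 hfree
    have hw3 := (hI.ins w hwB).2
    have hout : ∀ j, ¬ (a ≤ (s j).1 ∧ (s j).1 + 2 < e) → s' j = s j := fun j hj =>
      hs'.out j (fun h' => hj ⟨h'.1, by have := h'.2; omega⟩)
    have hin : ∀ j, a ≤ (s j).1 → (s j).1 + 2 < e → a ≤ (s' j).1 ∧ (s' j).1 + 2 < e :=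
      fun j h1 h2 => by
        have := hs'.ins j ⟨h1, by omega⟩
        omega
    have hlw : l ≠ w := by rintro rfl; omega
    have hw' : s' w = s w := hout w (by omega)
    have hl' := hin l hl1 hl2
    have hval : Valid r (s' ∘ Equiv.swap l w) := by
      refine hs'.valid.swap (by rw [hw']; omega) (fun v hlv => ?_) hfree
      have := hsink v hlv
      rw [hw', hout v (by omega)]
      omega
    set s'' := s' ∘ Equiv.swap l w with hs''
    have e1 : s'' l = s w := by simp [hs'', hw']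
    have e2 : s'' w = s' l := by simp [hs'']
    have e3 : ∀ j, j ≠ l → j ≠ w → s'' j = s' j := fun j h1 h2 => by
      simp [hs'', Equiv.swap_apply_of_ne_of_ne h1 h2]
    have hlB : l ∈ B := hI.int l hl1 hl2
    have hW1 : ∀ v, v ≠ w → e ≤ (s v).1 + 2 → s'' v = s v := fun v h1 h2 => by
      have h3 : v ≠ l := by rintro rfl; omega
      rw [e3 v h3 h1, hout v (by omega)]
    have hW2 : ∀ v, v ≠ l → e ≤ (s'' v).1 + 2 → s'' v = s v := fun v h1 h2 => by
      have h3 : v ≠ w := by rintro rfl; rw [e2] at h2; omega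
      rw [e3 v h1 h3] at h2 ⊢
      refine hout v (fun h' => ?_)
      have := hin v h'.1 h'.2
      omega
    have hre : Re r σ s'' a e B := by
      refine hA.re.trans (a' := a) (e' := e) (B' := B) ⟨hval, fun j hj => ?_, fun j hj => ?_⟩
        (fun _ h => h) le_rfl le_rfl
      · have h1 : j ≠ l := by rintro rfl; exact hj hlB
        have h2 : j ≠ w := by rintro rfl; exact hj hwB
        rw [e3 j h1 h2]
        exact hout j (fun h' => hj (hI.int j h'.1 h'.2))
      · by_cases h1 : j = l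
        · rw [h1, e1]; omega
        by_cases h2 : j = w
        · rw [h2, e2]; omega
        rw [e3 j h1 h2]
        by_cases h3 : a ≤ (s j).1 ∧ (s j).1 + 2 < e
        · have := hin j h3.1 h3.2; omega
        · rw [hout j h3]; exact hI.ins j hj
    have hdn' : ∀ x v, e ≤ (s v).1 + 2 → (s v).1 ≤ e → v ≠ w → r x v → x ∈ dn r s'' e :=
      fun x v h1 h2 h3 h4 => ⟨v, by rw [hW1 v h3 h1]; exact ⟨h1, h2⟩, h4⟩
    have hwc : w ∈ cov π E θp ∨ ∃ v, e ≤ (s v).1 + 2 ∧ (s v).1 ≤ e ∧ v ≠ w ∧ r w v := by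
      rcases hw2 with h1 | ⟨v, h1, h2⟩
      · exact Or.inl h1
      · refine Or.inr ⟨v, h1.1, h1.2, ?_, h2⟩
        rintro rfl
        have := hπ _ _ h2
        omega
    have hA' : Adm r π K σ a e B E θ s'' θp := by
      refine ⟨hre, fun i' => (hA.ge i').trans (hpge i'), hple, fun j h1 h2 => ?_, ?_⟩
      · have h3 : j ≠ l := by rintro rfl; rw [e1] at h2; omega
        by_cases h4 : j = w
        · subst h4
          rcases hwc with h5 | ⟨v, h5, h6, h7, h8⟩
          · exact Or.inl h5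
          · exact Or.inr (hdn' _ v h5 h6 h7 h8)
        rw [e3 j h3 h4] at h1 h2
        have h5 : a ≤ (s j).1 ∧ (s j).1 + 2 < e := by
          by_contra h'
          rw [hout j h'] at h1 h2
          exact h' ⟨h1, h2⟩
        rcases hcov j h5.1 h5.2 h3 with h6 | ⟨v, h6, h7⟩
        · exact Or.inl h6
        by_cases h8 : v = w
        · subst h8
          rcases hwc with h9 | ⟨v', h9, h10, h11, h12⟩
          · exact Or.inl (cov_down hπ hd h7 h9)
          · exact Or.inr (hdn' _ v' h9 h10 h11 (htr _ _ _ h7 h12))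
        · exact Or.inr (hdn' _ v h6.1 h6.2 h8 h7)
      · rcases hgoodp with h1 | h1
        · exact Or.inl h1
        refine Or.inr fun v h2 h3 => ?_
        by_cases h4 : v = l
        · subst h4
          exact ⟨i, fun x _ hx => hc4 x hx⟩
        · have h5 := hW2 v h4 h2
          rw [h5] at h2 h3
          exact h1 v h2 h3
    have hsub : insert l (excl r π e B E s θ') ⊆ excl r π e B E s'' θp := by
      rintro u (rfl | hu)
      · refine ⟨hlB, by rw [e1]; exact hw1, hl3, ?_⟩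
        rintro ⟨v, h1, h2⟩
        have h3 : v ≠ u := by
          rintro rfl
          have := hπ _ _ h2
          omega
        rw [hW2 v h3 h1.1] at h1
        exact hl4 ⟨v, h1, h2⟩
      · obtain ⟨hu1, hu2, hu3, hu4⟩ := hu
        have h1 : u ≠ w := by
          rintro rfl
          rcases hw2 with h' | h'
          · exact hu3 (cov_mono hpge h')
          · exact hu4 h'
        refine ⟨hu1, by rw [hW1 u h1 hu2]; exact hu2, fun h' => hu3 (cov_mono hpge h'), ?_⟩
        rintro ⟨v, h2, h3⟩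
        by_cases h4 : v = l
        · subst h4
          have := hv.lt h3
          omega
        · rw [hW2 v h4 h2.1] at h2
          exact hu4 ⟨v, h2, h3⟩
    have hcard := Set.ncard_le_ncard hsub (Set.toFinite _)
    rw [Set.ncard_insert_of_notMem (fun h' => by have := h'.2.1; omega) (Set.toFinite _)] at hcard
    have h1 := hmax (s'', θp) hA'
    simp only at h1
    have h2 := Nat.mul_le_mul_right (M + 1) hcard
    have h3 := hsum θ' hA.le
    rw [add_mul] at h2
    omega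
  rcases hgood with ⟨i₀, hi₀, hi₀K⟩ | hg
  · -- the predecessors of the wall take the empty place
    have hE : ∀ i', i' ≠ i₀ → ∀ x, x ∈ ent π (Function.update E i₀ (dn r s e))
        (Function.update θp i₀ 0) i' ↔ x ∈ ent π E θp i' := fun i' h' x => by
      simp [ent, h']
    have hE0 : ∀ x, x ∈ ent π (Function.update E i₀ (dn r s e))
        (Function.update θp i₀ 0) i₀ ↔ x ∈ dn r s e := fun x => by simp [ent]
    have hcv : ∀ x, x ∈ cov π (Function.update E i₀ (dn r s e)) (Function.update θp i₀ 0) ↔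
        x ∈ cov π E θp ∨ x ∈ dn r s e := by
      intro x
      constructor
      · rintro ⟨i', hi'⟩
        by_cases h' : i' = i₀
        · subst h'; exact Or.inr ((hE0 x).1 hi')
        · exact Or.inl ⟨i', (hE i' h' x).1 hi'⟩
      · rintro (⟨i', hi'⟩ | h')
        · have h'' : i' ≠ i₀ := by
            rintro rfl
            have h1 := hi'.2
            have h2 := hK x
            rw [hpne i' hi₀, hi₀K] at h1
            omega
          exact ⟨i', (hE i' h'' x).2 hi'⟩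
        · exact ⟨i₀, (hE0 x).2 h'⟩
    refine ⟨l, Function.update E i₀ (dn r s e), Function.update θp i₀ 0,
      ⟨fun i' => ?_, fun i' x y hxy => ?_, fun i' => ?_⟩, hl1, hl2,
      fun h' => ((hcv l).1 h').elim hl3 hl4, fun j h1 h2 h3 => (hcv j).2 (hcov j h1 h2 h3), hsink,
      ⟨i, fun x hx => (hE i hi₀.symm x).2 (hc4 x hx)⟩,
      fun v h1 h2 => ⟨i₀, fun x _ hx => (hE0 x).2 ⟨v, ⟨h1, h2⟩, hx⟩⟩,
      fun j hj => ((hcv j).1 hj).imp_left
        (fun h' => cov_mono (fun i' => (hA.ge i').trans (hpge i')) h'),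
      fun s' hs' w h1 h2 h3 => hc7 s' hs' w h1 h2 ((hcv w).1 h3)⟩
    · by_cases h' : i' = i₀
      · subst h'
        rw [Function.update_self]
        exact (dn_lv hK hv (by omega)).step
      · rw [Function.update_of_ne h']; exact h.lst.lv i'
    · by_cases h' : i' = i₀
      · subst h'
        rw [Function.update_self]
        exact hdn x y hxy
      · rw [Function.update_of_ne h']; exact hd i' x y hxy
    · by_cases h' : i' = i₀
      · subst h'
        rw [Function.update_self]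
        exact Nat.zero_le _
      · rw [Function.update_of_ne h']; exact hple i'
  · have hg' : ∀ v, e ≤ (s v).1 + 2 → (s v).1 ≤ e →
        ∃ i', ∀ x, x ∈ B → r x v → x ∈ ent π E θp i' := fun v h1 h2 => by
      obtain ⟨i', hi', hx⟩ := hg v h1 h2
      exact ⟨i', fun x h3 h4 => hent i' hi' x (hx x h3 h4)⟩
    refine ⟨l, E, θp, ⟨h.lst.lv, hd, hple⟩, hl1, hl2, hl3, fun j h1 h2 h3 => ?_, hsink,
      ⟨i, hc4⟩, hg',
      fun j hj => Or.inl (cov_mono (fun i' => (hA.ge i').trans (hpge i')) hj),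
      fun s' hs' w h1 h2 h3 => hc7 s' hs' w h1 h2 (Or.inl h3)⟩
    rcases hcov j h1 h2 h3 with h4 | ⟨v, h4, h5⟩
    · exact h4
    · obtain ⟨i', hi'⟩ := hg' v h4.1 h4.2
      exact ⟨i', hi' j (hI.int j h1 h2) h5⟩

theorem dec_one [Fintype J] (hK : ∀ j, π j < K) {s : J → ℕ × Fin m} (hs : Valid r s) (a : ℕ) :
    Dec (Lv r π K (6 * m + 6)) s a (a + 1) :=
  Dec.leaf a ((Lv.seg' hK hs.inj a 1).mono (by omega))

theorem dec_two [Fintype J] (hK : ∀ j, π j < K) {s : J → ℕ × Fin m} (hs : Valid r s) (a : ℕ) :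
    Dec (Lv r π K (6 * m + 6)) s a (a + 2) :=
  Dec.node a (a + 1) (a + 2) (by omega) (by omega) (dec_one hK hs a) (dec_one hK hs (a + 1))
    ((Lv.seg' hK hs.inj a 2).mono (by omega))

theorem inv_reset [Fintype J] (htr : ∀ i j k, r i j → r j k → r i k) (hK : ∀ j, π j < K)
    {s : J → ℕ × Fin m} {a e : ℕ} {B X : Set J} {E : Fin (3 * m + 1) → Set J} {θ : Fin (3 * m + 1) → ℕ}
    (h : Inv r π K s a e B X E θ) (he : a + 4 ≤ e)
    (hd : ∀ j, a ≤ (s j).1 → (s j).1 + 2 < e → j ∈ dn r s e) :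
    Inv r π K s a (e - 2) (seg s a (e - 2)) X (fun _ => dn r s e \ seg s (e - 2) (e - 2 + 3))
      (fun _ => 0) := by
  have hv := h.valid
  have hmem : ∀ j, a ≤ (s j).1 → (s j).1 < e - 2 → j ∈ dn r s e \ seg s (e - 2) (e - 2 + 3) :=
    fun j h1 h2 => ⟨hd j h1 (by omega), fun h' => by have := h'.1; omega⟩
  have hlt : ∀ j, j ∈ dn r s e \ seg s (e - 2) (e - 2 + 3) → (s j).1 < e - 2 := by
    rintro j ⟨⟨v, h1, h2⟩, h3⟩
    have := hv.lt h2
    by_contra hc
    exact h3 ⟨by omega, by omega⟩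
  refine ⟨hv, by omega, ⟨fun _ => ?_, fun _ x y hxy hy => ?_, fun _ => Nat.zero_le _⟩,
    fun j hj => hj, fun j h1 h2 => ⟨h1, by omega⟩, h.xlv,
    fun j hj => h.bx j (h.int j hj.1 (by have := hj.2; omega)), h.xt,
    fun j hj => ⟨0, hmem j hj.1 hj.2, Nat.zero_le _⟩, fun j h1 h2 hj => absurd ⟨h1, h2⟩ hj,
    fun s' hs' j hj h1 => ?_, fun u v h1 h2 hu => absurd ⟨h1, h2⟩ hu, fun v h1 h2 hv' => ?_⟩
  · exact (dn_lv hK hv (by omega)).diff (Lv.seg' hK hv.inj (e - 2) 3)
  · have h1 := hlt y hy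
    have h2 := hv.lt hxy
    obtain ⟨⟨v, h3, h4⟩, -⟩ := hy
    exact ⟨⟨v, h3, htr _ _ _ hxy h4⟩, fun h' => by have := h'.1; omega⟩
  · exfalso
    obtain ⟨i, hi, -⟩ := hj
    have h2 := hlt j hi
    by_cases h3 : j ∈ seg s a (e - 2)
    · have := hs'.ins j h3; omega
    · rw [hs'.out j h3] at h1; omega
  · have h3 : (s v).1 = e - 2 := by
      by_contra hc
      exact hv' ⟨h1, by omega⟩
    exact ⟨0, fun x hx hxv => ⟨⟨⟨v, by omega, hxv⟩, fun h' => by
      have := h'.1; have := hx.2; omega⟩, Nat.zero_le _⟩⟩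

theorem Cut.blocked (htr : ∀ i j k, r i j → r j k → r i k) (hπ : ∀ i j, r i j → π j < π i)
    {s : J → ℕ × Fin m} {a e : ℕ} {B X : Set J} {E E' : Fin (3 * m + 1) → Set J} {θ θ' : Fin (3 * m + 1) → ℕ} {l : J}
    (h : Inv r π K s a e B X E θ) (hc : Cut r π K a e B E θ s l E' θ') {z : ℕ}
    (hmax : ∀ s', Re r s s' a (e - 2) (seg s a (e - 2)) → (s' l).1 ≤ z)
    {s' : J → ℕ × Fin m} (hs' : Re r s s' a (e - 2) (seg s a (e - 2))) (hz : (s' l).1 = z) :
    ∀ j, j ∈ cov π E' θ' → z < (s' j).1 → ∃ i, z ≤ (s' i).1 + 1 ∧ (s' i).1 ≤ z ∧ r i j := by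
  classical
  have hle := h.le
  have hv := h.valid
  have hlA : l ∈ seg s a (e - 2) := ⟨hc.l1, by have := hc.l2; omega⟩
  have hz' := hs'.ins l hlA
  have hre : Re r s s' a e B := h.refl.trans hs'
    (fun j hj => h.int j hj.1 (by have := hj.2; omega)) le_rfl (by omega)
  have hout : ∀ j, e - 2 ≤ (s' j).1 → s' j = s j := fun j hj =>
    hs'.out j (fun h' => by have := hs'.ins j h'; omega)
  have key : ∀ t j, (s' j).1 = t → j ∈ cov π E' θ' → z < (s' j).1 →
      ∃ i, z ≤ (s' i).1 + 1 ∧ (s' i).1 ≤ z ∧ r i j := by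
    intro t
    induction t using Nat.strong_induction_on with
    | _ t ih =>
      intro j ht hj hzj
      by_contra hcon
      have hfree : ∀ i, r i j → (s' i).1 + 2 ≤ (s' l).1 := by
        intro i hij
        have h1 := hs'.valid.lt hij
        by_contra h2
        by_cases h3 : (s' i).1 ≤ z
        · exact hcon ⟨i, by omega, h3, hij⟩
        · obtain ⟨i', h4, h5, h6⟩ := ih _ (by omega) i rfl (cov_down hπ hc.lst.down hij hj)
            (by omega)
          exact hcon ⟨i', h4, h5, htr _ _ _ h6 hij⟩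
      by_cases h1 : (s' j).1 < e - 2
      · have hjA : j ∈ seg s a (e - 2) := by
          by_contra h'
          have h2 := hs'.out j h'
          rw [h2] at h1 hzj
          exact h' ⟨by omega, h1⟩
        have hval : Valid r (s' ∘ Equiv.swap l j) := by
          refine hs'.valid.swap (by omega) (fun v hlv => ?_) hfree
          have h2 := hc.sink v hlv
          rw [hs'.out v (fun h' => by have := h'.2; omega)]
          omega
        have hre' : Re r s (s' ∘ Equiv.swap l j) a (e - 2) (seg s a (e - 2)) := by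
          refine ⟨hval, fun x hx => ?_, fun x hx => ?_⟩
          · have h2 : x ≠ l := by rintro rfl; exact hx hlA
            have h3 : x ≠ j := by rintro rfl; exact hx hjA
            simp only [Function.comp, Equiv.swap_apply_of_ne_of_ne h2 h3]
            exact hs'.out x hx
          · refine hs'.ins _ ?_
            by_cases h2 : x = l
            · rw [h2, Equiv.swap_apply_left]; exact hjA
            by_cases h3 : x = j
            · rw [h3, Equiv.swap_apply_right]; exact hlA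
            rw [Equiv.swap_apply_of_ne_of_ne h2 h3]
            exact hx
        have h2 := hmax _ hre'
        simp only [Function.comp, Equiv.swap_apply_left] at h2
        omega
      have hj' := hout j (by omega)
      by_cases h2 : (s' j).1 < e
      · rw [hj'] at h1 h2
        have hjB : j ∈ B := by
          by_contra hjB
          rcases hc.c6 j hj with h3 | ⟨v, h3, h4⟩
          · exact h.fn j (by omega) h2 hjB h3
          · exact h.j3 j v (by omega) h2 hjB (by omega) h3.2 h4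
        exact hc.c7 s' hs' j hjB (by omega) hj hfree
      · rcases hc.c6 j hj with h3 | ⟨v, h3, h4⟩
        · obtain ⟨i, h4, h5, h6⟩ := h.j2 s' hre j h3 (by omega)
          have := hfree i h6
          omega
        · have := hv.lt h4
          rw [hj'] at h2
          omega
  exact fun j hj hzj => key _ j rfl hj hzj

theorem inv_left (htr : ∀ i j k, r i j → r j k → r i k) (hπ : ∀ i j, r i j → π j < π i)
    {s : J → ℕ × Fin m} {a e : ℕ} {B X : Set J} {E E' : Fin (3 * m + 1) → Set J} {θ θ' : Fin (3 * m + 1) → ℕ} {l : J}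
    (h : Inv r π K s a e B X E θ) (hc : Cut r π K a e B E θ s l E' θ') {z : ℕ}
    (hmax : ∀ s', Re r s s' a (e - 2) (seg s a (e - 2)) → (s' l).1 ≤ z)
    {s' : J → ℕ × Fin m} (hs' : Re r s s' a (e - 2) (seg s a (e - 2))) (hz : (s' l).1 = z)
    (haz : a < z) : Inv r π K s' a (z + 1) (seg s' a (z + 1) \ {l}) X E' θ' := by
  have hle := h.le
  have hlA : l ∈ seg s a (e - 2) := ⟨hc.l1, by have := hc.l2; omega⟩
  have hz' := hs'.ins l hlA
  have hre : Re r s s' a e B := h.refl.trans hs'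
    (fun j hj => h.int j hj.1 (by have := hj.2; omega)) le_rfl (by omega)
  have hI := h.re hre
  have hA : ∀ j, a ≤ (s' j).1 → (s' j).1 < e - 2 → j ∈ seg s a (e - 2) := by
    intro j h1 h2
    by_contra h'
    rw [hs'.out j h'] at h1 h2
    exact h' ⟨h1, h2⟩
  have hcov : ∀ j, a ≤ (s' j).1 → (s' j).1 < e - 2 → j ≠ l → j ∈ cov π E' θ' := fun j h1 h2 h3 =>
    hc.cover j (hA j h1 h2).1 (by have := (hA j h1 h2).2; omega) h3
  have hF : ∀ j, a ≤ (s' j).1 → (s' j).1 < z + 1 → j ∉ seg s' a (z + 1) \ {l} → j = l := by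
    intro j h1 h2 h3
    by_contra h4
    exact h3 ⟨⟨h1, h2⟩, h4⟩
  refine ⟨hs'.valid, by omega, hc.lst, fun j hj => hj.1,
    fun j h1 h2 => ⟨⟨h1, by omega⟩, ?_⟩, h.xlv,
    fun j hj => h.bx j (hI.int j hj.1.1 (by have := hj.1.2; omega)), hI.xt,
    fun j hj => hcov j hj.1.1 (by have := hj.1.2; omega) hj.2,
    fun j h1 h2 hj => by rw [hF j h1 h2 hj]; exact hc.lout,
    fun s'' hs'' j hj h1 => ?_, fun u v h1 h2 hu h3 h4 huv => ?_, fun v h1 h2 hv => ?_⟩
  · rintro rfl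
    omega
  · have h2 : Re r s s'' a (e - 2) (seg s a (e - 2)) := hs'.trans hs''
      (fun x hx => hA x hx.1.1 (by have := hx.1.2; omega)) le_rfl (by omega)
    have h3 : (s'' l).1 = z := by rw [hs''.out l (fun h' => h'.2 rfl), hz]
    obtain ⟨i, h4, h5, h6⟩ := hc.blocked htr hπ h hmax h2 h3 j hj (by omega)
    exact ⟨i, by omega, by omega, h6⟩
  · rw [hF u h1 h2 hu] at huv
    have h5 := hc.sink v huv
    rw [hs'.out v (fun h' => by have := h'.2; omega)] at h4
    omega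
  · by_cases h3 : (s' v).1 < z + 1
    · rw [hF v h1 h3 hv]
      obtain ⟨i, hi⟩ := hc.c4
      exact ⟨i, fun x _ hx => hi x hx⟩
    by_cases h4 : (s' v).1 < e - 2
    · obtain ⟨i, hi⟩ := hcov v h1 h4 (by rintro rfl; omega)
      exact ⟨i, fun x _ hx => ent_down hπ hc.lst.down hx hi⟩
    · have h5 := hs'.out v (fun h' => by have := hs'.ins v h'; omega)
      rw [h5] at h2 h4
      obtain ⟨i, hi⟩ := hc.c5 v (by omega) (by omega)
      exact ⟨i, fun x hx hxv => hi x (hI.int x hx.1.1 (by have := hx.1.2; omega)) hxv⟩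

theorem inv_right [Fintype J] (htr : ∀ i j k, r i j → r j k → r i k)
    (hπ : ∀ i j, r i j → π j < π i) (hK : ∀ j, π j < K)
    {s : J → ℕ × Fin m} {a e : ℕ} {B X : Set J} {E E' : Fin (3 * m + 1) → Set J} {θ θ' : Fin (3 * m + 1) → ℕ} {l : J}
    (h : Inv r π K s a e B X E θ) (hc : Cut r π K a e B E θ s l E' θ') {z : ℕ}
    (hmax : ∀ s', Re r s s' a (e - 2) (seg s a (e - 2)) → (s' l).1 ≤ z)
    {s' : J → ℕ × Fin m} (hs' : Re r s s' a (e - 2) (seg s a (e - 2))) (hz : (s' l).1 = z) :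
    Inv r π K s' (z + 1) e {j | z + 1 ≤ (s' j).1 ∧ j ∈ B ∧ j ∈ cov π E' θ'}
      ({j | ∃ v, (z ≤ (s' v).1 + 1 ∧ (s' v).1 ≤ z) ∧ r v j} \ seg s' z (z + 1)) E' θ' := by
  have hle := h.le
  have hl2 := hc.l2
  have hlA : l ∈ seg s a (e - 2) := ⟨hc.l1, by omega⟩
  have hz' := hs'.ins l hlA
  have hre : Re r s s' a e B := h.refl.trans hs'
    (fun j hj => h.int j hj.1 (by have := hj.2; omega)) le_rfl (by omega)
  have hI := h.re hre
  have hA : ∀ j, a ≤ (s' j).1 → (s' j).1 < e - 2 → j ∈ seg s a (e - 2) := by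
    intro j h1 h2
    by_contra h'
    rw [hs'.out j h'] at h1 h2
    exact h' ⟨h1, h2⟩
  have hout : ∀ j, e - 2 ≤ (s' j).1 → s' j = s j := fun j hj =>
    hs'.out j (fun h' => by have := hs'.ins j h'; omega)
  have hint : ∀ j, z + 1 ≤ (s' j).1 → (s' j).1 + 2 < e →
      z + 1 ≤ (s' j).1 ∧ j ∈ B ∧ j ∈ cov π E' θ' := by
    intro j h1 h2
    have h3 := hA j (by omega) (by omega)
    exact ⟨h1, hI.int j (by omega) h2, hc.cover j h3.1 (by have := h3.2; omega)
      (by rintro rfl; omega)⟩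
  have hwall : ∀ v, z + 1 ≤ (s' v).1 →
      v ∉ {j | z + 1 ≤ (s' j).1 ∧ j ∈ B ∧ j ∈ cov π E' θ'} → e ≤ (s' v).1 + 2 := by
    intro v h1 h2
    by_contra h3
    exact h2 (hint v h1 (by omega))
  refine ⟨hs'.valid, by omega, hc.lst, fun j hj => ⟨hj.1, (hI.ins j hj.2.1).2⟩, hint, ?_,
    fun j hj => ?_, fun j hj => ?_, fun j hj => hj.2.2, fun j h1 h2 hj hj' => ?_,
    fun s'' hs'' j hj h1 => ?_, fun u v h1 h2 hu h3 h4 huv => ?_, fun v h1 h2 hv => ?_⟩
  · have h1 := Lv.segUnion (r := r) hK hs'.valid.inj (z - 1) (z + 1 - (z - 1))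
      (fun v => {i | r v i}) (fun v => Lv.succ v)
    have e1 : {j | ∃ v, (z ≤ (s' v).1 + 1 ∧ (s' v).1 ≤ z) ∧ r v j} =
        {j | ∃ v, (z - 1 ≤ (s' v).1 ∧ (s' v).1 < z - 1 + (z + 1 - (z - 1))) ∧
          j ∈ {i | r v i}} := by
      ext j
      simp only [Set.mem_ofPred_eq]
      exact exists_congr fun v => and_congr_left fun _ => by omega
    rw [e1]
    exact (h1.mono (Nat.mul_le_mul_left m (by omega : _ ≤ 2))).diff
      ((Lv.seg' hK hs'.valid.inj z 1).mono (by omega))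
  · obtain ⟨i, h1, h2, h3⟩ := hc.blocked htr hπ h hmax hs' hz j hj.2.2 hj.1
    exact ⟨⟨i, ⟨h1, h2⟩, h3⟩, fun h' => by have := h'.2; have := hj.1; omega⟩
  · obtain ⟨⟨v, h1, h2⟩, h3⟩ := hj
    have h4 := hs'.valid.lt h2
    by_contra h5
    exact h3 ⟨by omega, by omega⟩
  · have h3 := hwall j h1 hj
    have h4 := hout j (by omega)
    have hjB : j ∉ B := fun h' => hj ⟨h1, h', hj'⟩
    rw [h4] at h2 h3
    rcases hc.c6 j hj' with h5 | ⟨v, h5, h6⟩
    · exact h.fn j (by omega) h2 hjB h5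
    · exact h.j3 j v (by omega) h2 hjB (by omega) h5.2 h6
  · have h2 : Re r s s'' a e B := hre.trans hs'' (fun x hx => hx.2.1) (by omega) le_rfl
    rcases hc.c6 j hj with h3 | ⟨v, h3, h4⟩
    · exact h.j2 s'' h2 j h3 h1
    · exfalso
      have h5 := h.valid.lt h4
      by_cases h6 : j ∈ B
      · have := h2.ins j h6; omega
      · rw [h2.out j h6] at h1; omega
  · have h5 := hwall u h1 hu
    have h6 := hs'.valid.lt huv
    by_cases h7 : u ∈ B
    · have h8 := hout v (by omega)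
      obtain ⟨i, hi⟩ := hc.c5 v (by rw [← h8]; omega) (by rw [← h8]; omega)
      exact hu ⟨h1, h7, i, hi u h7 huv⟩
    · exact hI.j3 u v (by omega) h2 h7 (by omega) h4 huv
  · have h3 := hwall v h1 hv
    have h4 := hout v (by omega)
    obtain ⟨i, hi⟩ := hc.c5 v (by rw [← h4]; omega) (by rw [← h4]; omega)
    exact ⟨i, fun x hx hxv => hi x hx.2.1 hxv⟩

theorem dec_of_inv [Fintype J] (htr : ∀ i j k, r i j → r j k → r i k)
    (hinj : Function.Injective π) (hπ : ∀ i j, r i j → π j < π i) (hK : ∀ j, π j < K) :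
    ∀ (d : ℕ) (σ : J → ℕ × Fin m) (a e : ℕ) (B X : Set J) (E : Fin (3 * m + 1) → Set J) (θ : Fin (3 * m + 1) → ℕ),
      e - a = d → Inv r π K σ a e B X E θ → ∃ s, Re r σ s a e B ∧ Dec (Lv r π K (6 * m + 6)) s a e := by
  intro d
  induction d using Nat.strong_induction_on with
  | _ d ih =>
  intro σ a e B X E θ hd h
  have hle := h.le
  by_cases h2 : e = a + 2
  · subst h2
    exact ⟨σ, h.refl, dec_two hK h.valid a⟩
  obtain ⟨s, hs, hcase⟩ := exists_cut htr hinj hπ hK h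
  have hI := h.re hs
  have hAB : ∀ j, j ∈ seg s a (e - 2) → j ∈ B := fun j hj =>
    hI.int j hj.1 (by have := hj.2; omega)
  rcases hcase with hres | ⟨l, E', θ', hc⟩
  · obtain ⟨s', hs', hdec⟩ : ∃ s', Re r s s' a (e - 2) (seg s a (e - 2)) ∧
        Dec (Lv r π K (6 * m + 6)) s' a (e - 2) := by
      by_cases h3 : e = a + 3
      · subst h3
        exact ⟨s, ⟨hI.valid, fun _ _ => rfl, fun _ hj => hj⟩, dec_one hK hI.valid a⟩
      · exact ih _ (by omega) s a (e - 2) _ _ _ _ rfl (inv_reset htr hK hI (by omega) hres)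
    have hre := hs.trans hs' hAB le_rfl (by omega)
    refine ⟨s', hre, Dec.node a (e - 2) e (by omega) (by omega) hdec ?_ ((h.re hre).lv hK)⟩
    have := dec_two (π := π) hK hs'.valid (e - 2)
    rwa [Nat.sub_add_cancel (by omega)] at this
  have hlA : l ∈ seg s a (e - 2) := ⟨hc.l1, by have := hc.l2; omega⟩
  obtain ⟨s₁, hs₁, hmax⟩ := exists_max (fun s' => Re r s s' a (e - 2) (seg s a (e - 2)))
    (fun s' => (s' l).1) e (fun s' hs' => by have := hs'.ins l hlA; omega)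
    ⟨s, hI.valid, fun _ _ => rfl, fun _ hj => hj⟩
  obtain ⟨z, hz⟩ : ∃ z, (s₁ l).1 = z := ⟨_, rfl⟩
  have hz' := hs₁.ins l hlA
  simp only [hz] at hmax hz'
  obtain ⟨s₂, hs₂, hz₂, hdec₂⟩ : ∃ s₂, Re r s s₂ a (e - 2) (seg s a (e - 2)) ∧ (s₂ l).1 = z ∧
      Dec (Lv r π K (6 * m + 6)) s₂ a (z + 1) := by
    by_cases h3 : z = a
    · subst h3
      exact ⟨s₁, hs₁, hz, dec_one hK hs₁.valid _⟩
    · obtain ⟨s₂, h4, h5⟩ := ih _ (by omega) s₁ a (z + 1) _ _ _ _ rfl
        (inv_left htr hπ hI hc hmax hs₁ hz (by omega))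
      refine ⟨s₂, hs₁.trans h4 (fun x hx => ?_) le_rfl (by omega),
        by rw [h4.out l (fun h' => h'.2 rfl), hz], h5⟩
      by_contra h'
      have h6 := hx.1
      simp only [seg, Set.mem_ofPred_eq] at h6 h'
      rw [hs₁.out x h'] at h6
      omega
  obtain ⟨s₃, hs₃, hdec₃⟩ := ih _ (by omega) s₂ (z + 1) e _ _ _ _ rfl
    (inv_right htr hπ hK hI hc hmax hs₂ hz₂)
  have hre := (hs.trans hs₂ hAB le_rfl (by omega)).trans hs₃ (fun x hx => hx.2.1) (by omega) le_rfl
  refine ⟨s₃, hre, Dec.node a (z + 1) e (by omega) (by omega) (hdec₂.congr fun j hj => ?_) hdec₃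
    ((h.re hre).lv hK)⟩
  refine hs₃.out j (fun h' => ?_)
  have h3 := hs₃.ins j h'
  have h4 := h'.1
  omega

end main

theorem exists_dec [Fintype J] {r : J → J → Prop} {π : J → ℕ} {K : ℕ}
    (htr : ∀ i j k, r i j → r j k → r i k) (hinj : Function.Injective π)
    (hπ : ∀ i j, r i j → π j < π i) (hK : ∀ j, π j < K)
    {σ : J → ℕ × Fin m} (hσ : Valid r σ) {T : ℕ} (hT : 0 < T) (hlt : ∀ j, (σ j).1 < T) :
    ∃ s : J → ℕ × Fin m, Valid r s ∧ (∀ j, (s j).1 < T) ∧
      Dec (Lv r π K (6 * m + 6)) s 0 T := by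
  by_cases h1 : T = 1
  · subst h1
    exact ⟨σ, hσ, hlt, dec_one hK hσ 0⟩
  have hI : Inv r π K σ 0 T Set.univ Set.univ (fun _ => Set.univ) (fun _ => 0) := by
    refine ⟨hσ, by omega, ⟨fun _ => Lv.univ.mono (Nat.zero_le _), fun _ _ _ _ _ => trivial,
      fun _ => Nat.zero_le _⟩, fun j _ => ⟨Nat.zero_le _, hlt j⟩, fun _ _ _ => trivial,
      Lv.univ.mono (Nat.zero_le _), fun _ _ => trivial, fun _ _ => Nat.zero_le _,
      fun j _ => ⟨0, trivial, Nat.zero_le _⟩, fun j _ _ hj => absurd trivial hj,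
      fun s hs j _ h2 => ?_, fun u _ _ _ hu => absurd trivial hu,
      fun v _ _ hv => absurd trivial hv⟩
    have := hs.ins j trivial
    omega
  obtain ⟨s, hs, hd⟩ := dec_of_inv htr hinj hπ hK _ σ 0 T _ _ _ _ rfl hI
  exact ⟨s, hs.valid, fun j => (hs.ins j trivial).2, hd⟩

end Pool.Agent.Lib.MP_caa638_lc.Poly
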