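import Pool.Agent.Lib.MP_caa638_lc.Final
import Pool.Agent.Lib.MP_caa638_lc.PolyStruct

/-!
The polynomial dynamic program over time intervals, its running time and its correctness.
-/

set_option autoImplicit false

namespace Pool.Agent.Lib.MP_caa638_lc.Poly

open Relation Pool.Agent.Lib.MP_acf5a6_lc N487b59b3

/-- The job sets generated in `t` rounds. -/
def lv (G : Gr) : ℕ → List (List ℕ)
  | 0 => (rng G).flatMap (fun j => [[j], (rng G).filter (fun v => memb (reach G) (v, j)),
      (rng G).filter (fun v => memb (reach G) (j, v))]) ++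
      (ths G).map (fun θ => (rng G).filter (fun v => decide (θ ≤ prio G v)))
  | t + 1 => (lv G t).flatMap (fun A => (lv G t).flatMap (fun B =>
      [(rng G).filter (fun v => memb A v || memb B v),
        (rng G).filter (fun v => memb A v && memb B v),
        (rng G).filter (fun v => memb A v && !memb B v)]))

/-- Interval, first slot, job set, last slot. -/
def sts (m t : ℕ) (G : Gr) : List State :=
  (tms G).flatMap (fun a => (tms G).flatMap (fun e => (slots m G).flatMap (fun L =>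
    (lv G t).flatMap (fun B => (slots m G).map (fun R => (a, e, L, B, R))))))

/-- `w` is a solution of state `s`. -/
def chk (m : ℕ) (G : Gr) (s : State) (w : List Cell) : Bool :=
  ok G w &&
    w.all (fun x => decide (s.1 ≤ x.2.1) && decide (x.2.1 < s.2.1) && decide (x.2.2 < m) &&
      memb s.2.2.2.1 x.1 && (!decide (x.2.1 = s.1) || memb s.2.2.1 x) &&
      (!decide (x.2.1 + 1 = s.2.1) || memb s.2.2.2.2 x)) &&
    s.2.2.2.1.all (fun v => w.any (fun x => decide (x.1 = v))) &&
    decide (w.length ≤ m * (s.2.1 - s.1))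

/-- Candidate solutions. -/
def cands (m : ℕ) (G : Gr) (tb : List (List Cell)) : List (List Cell) :=
  slots m G ++ tb.flatMap (fun w₁ => tb.map (fun w₂ => w₁ ++ w₂))

/-- One round of the dynamic program. -/
def tstep (m t : ℕ) (G : Gr) (tb : List (List Cell)) : List (List Cell) :=
  (sts m t G).flatMap (fun s => first ((cands m G tb).filter (fun w => chk m G s w)))

/-- The final table. -/
def table (m t : ℕ) (G : Gr) : List (List Cell) := (tstep m t G)^[G.length + 1] []

/-- `w` is a complete schedule in the slots before `T`. -/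
def fchk (m : ℕ) (G : Gr) (T : ℕ) (w : List Cell) : Bool :=
  ok G w && w.all (fun x => decide (x.2.1 < T) && decide (x.2.2 < m)) &&
    (rng G).all (fun v => w.any (fun x => decide (x.1 = v)))

/-- The shortest complete schedule of the table. -/
def best (m t : ℕ) (G : Gr) : List Cell :=
  ((tms G).flatMap (fun T => (table m t G).filter (fun w => fchk m G T w))).headD []

/-- Processor and start time of every job. -/
def alg (m t : ℕ) (G : Gr) : List (ℕ × ℕ) :=
  (rng G).map (fun v => ((look (best m t G) v).2.2, (look (best m t G) v).2.1))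

section PT

variable {α : Type} [N487b59b3 α]

theorem lv_PT0 (t : ℕ) : PT (fun G : Gr => lv G t) := by
  induction t with
  | zero =>
    unfold lv
    fun_prop
  | succ t ih =>
    have h1 : PT (fun x : Gr × List ℕ => lv x.1 t) := PT.comp ih (by fun_prop)
    unfold lv
    fun_prop

@[fun_prop] theorem lv_PT (t : ℕ) {g : α → Gr} (hg : PT g) : PT (fun a => lv (g a) t) :=
  PT.comp (lv_PT0 t) hg

@[fun_prop] theorem sts_PT (m t : ℕ) {g : α → Gr} (hg : PT g) :
    PT (fun a => sts m t (g a)) := by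
  unfold sts
  fun_prop

@[fun_prop] theorem chk_PT (m : ℕ) {g : α → Gr} {s : α → State} {w : α → List Cell} (hg : PT g)
    (hs : PT s) (hw : PT w) : PT (fun a => chk m (g a) (s a) (w a)) := by
  unfold chk
  fun_prop

@[fun_prop] theorem cands_PT (m : ℕ) {g : α → Gr} {t : α → List (List Cell)} (hg : PT g)
    (ht : PT t) : PT (fun a => cands m (g a) (t a)) := by
  unfold cands
  fun_prop

@[fun_prop] theorem tstep_PT (m t : ℕ) {g : α → Gr} {tb : α → List (List Cell)} (hg : PT g)
    (ht : PT tb) : PT (fun a => tstep m t (g a) (tb a)) := by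
  unfold tstep
  fun_prop

@[fun_prop] theorem fchk_PT (m : ℕ) {g : α → Gr} {T : α → ℕ} {w : α → List Cell} (hg : PT g)
    (hT : PT T) (hw : PT w) : PT (fun a => fchk m (g a) (T a) (w a)) := by
  unfold fchk
  fun_prop

theorem lv_lt {G : Gr} {t : ℕ} {B : List ℕ} (h : B ∈ lv G t) : ∀ v ∈ B, v < G.length := by
  intro v hv
  cases t with
  | zero =>
    simp only [lv, List.mem_append, List.mem_flatMap, List.mem_map, List.mem_cons,
      List.not_mem_nil, or_false] at h
    rcases h with ⟨j, hj, rfl | rfl | rfl⟩ | ⟨_, _, rfl⟩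
    · rw [List.mem_singleton.1 hv]; exact mem_rng.1 hj
    all_goals exact mem_rng.1 (List.mem_filter.1 hv).1
  | succ t =>
    simp only [lv, List.mem_flatMap, List.mem_cons, List.not_mem_nil, or_false] at h
    obtain ⟨_, _, _, _, rfl | rfl | rfl⟩ := h
    all_goals exact mem_rng.1 (List.mem_filter.1 hv).1

theorem sz_tstep (m t : ℕ) (G : Gr) (tb : List (List Cell)) :
    sz (tstep m t G tb) ≤ sz (sts m t G) *
      (2 * (m * (sz G + 1) * (2 * (4 * sz G + 4 + m) + 1)) + 1) := by
  have hn := length_le_sz G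
  refine (sz_list_le _ (c := m * (sz G + 1) * (2 * (4 * sz G + 4 + m) + 1))
    (fun w hw => ?_)).trans (Nat.mul_le_mul_right _ ?_)
  · simp only [tstep, List.mem_flatMap] at hw
    obtain ⟨s, hs, hw⟩ := hw
    have h1 := (List.mem_filter.1 (mem_first hw)).2
    simp only [sts, List.mem_flatMap, List.mem_map] at hs
    obtain ⟨a, -, e, he, L, -, B, hB, R, -, rfl⟩ := hs
    simp only [chk, Bool.and_eq_true, List.all_eq_true, decide_eq_true_eq, memb_iff] at h1
    rw [mem_tms] at he
    refine (sz_list_le _ (c := 4 * sz G + 4 + m) (fun x hx => ?_)).trans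
      (Nat.mul_le_mul_right _ ?_)
    · obtain ⟨v, t', p⟩ := x
      have h2 := (h1.1.1.2 _ hx).1.1
      have h3 := lv_lt hB v h2.2
      have := sz_nat_le v
      have := sz_nat_le t'
      have := sz_nat_le p
      simp only [sz_pair] at h2 ⊢
      omega
    · have h2 : m * (e - a) ≤ m * (sz G + 1) := Nat.mul_le_mul_left _ (by omega)
      have := h1.2
      omega
  · have := length_flatMap_le (sts m t G)
      (fun s => first ((cands m G tb).filter (fun w => chk m G s w))) (fun _ _ => length_first _)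
    have h2 := length_le_sz (sts m t G)
    unfold tstep
    omega

theorem table_PT (m t : ℕ) : PT (fun G : Gr => table m t G) := by
  have hG : PB (fun G : Gr => sz G) := PB.self
  have h := PT.iterP (g := fun (G : Gr) tb => tstep m t G tb)
    (h := fun _ => []) (c := fun G => (ulen G).add ⟨1⟩) (by fun_prop) (PT.const _) (by fun_prop)
    ((PB.of_PT (f := fun G : Gr => sts m t G) (by fun_prop)).mul
      (((PB.const 2).mul (((PB.const m).mul (hG.add (PB.const 1))).mul (((PB.const 2).mul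
        ((((PB.const 4).mul hG).add (PB.const 4)).add (PB.const m))).add (PB.const 1)))).add
        (PB.const 1))) (fun x i _ => by
      cases i with
      | zero => simp
      | succ i => rw [Function.iterate_succ_apply']; exact sz_tstep _ _ _ _)
  exact h.of_eq (fun x => by simp [table, ulen, Un.add])

theorem alg_PT (m t : ℕ) : PT (fun G : Gr => alg m t G) := by
  have h1 : PT (fun G : Gr => best m t G) := by
    have h2 : PT (fun x : Gr × ℕ => table m t x.1) := PT.comp (table_PT m t) (by fun_prop)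
    unfold best
    fun_prop
  have h2 : PT (fun x : Gr × ℕ => best m t x.1) := PT.comp h1 (by fun_prop)
  unfold alg
  fun_prop

end PT

/-- The precedence order. -/
def rel (G : Gr) (i j : Fin G.length) : Prop := TransGen (arcR G) i j

/-- The priority. -/
def pri (G : Gr) (i : Fin G.length) : ℕ := prio G i

variable {m : ℕ} {G : Gr} (hac : ∀ v, ¬ TransGen (arcR G) v v)

include hac in
theorem lv_complete {t : ℕ} {S : Set (Fin G.length)}
    (h : Lv (rel G) (pri G) ((G.length + 1) * (G.length + 1)) t S) :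
    ∃ E ∈ lv G t, ∀ j : Fin G.length, (j : ℕ) ∈ E ↔ j ∈ S := by
  have hr : ∀ j : Fin G.length, (j : ℕ) ∈ rng G := fun j => mem_rng.2 j.2
  induction h with
  | single j =>
    refine ⟨[j], List.mem_append_left _ (List.mem_flatMap.2 ⟨j, hr j, by simp⟩), fun i => ?_⟩
    simp [Fin.ext_iff]
  | pred j =>
    refine ⟨(rng G).filter (fun v => memb (reach G) (v, j)),
      List.mem_append_left _ (List.mem_flatMap.2 ⟨j, hr j, by simp⟩), fun i => ?_⟩
    simp [hr, mem_reach hac, rel]
  | succ j =>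
    refine ⟨(rng G).filter (fun v => memb (reach G) (j, v)),
      List.mem_append_left _ (List.mem_flatMap.2 ⟨j, hr j, by simp⟩), fun i => ?_⟩
    simp [hr, mem_reach hac, rel]
  | thr θ hθ =>
    refine ⟨(rng G).filter (fun v => decide (θ ≤ prio G v)),
      List.mem_append_right _ (List.mem_map.2 ⟨θ, ?_, rfl⟩), fun i => ?_⟩
    · simp only [ths, urange, Un.add, Un.mul, ulen, List.mem_range]
      exact Nat.lt_succ_of_le hθ
    · simp [hr, pri]
  | union _ _ ih1 ih2 =>
    obtain ⟨A, h1, h2⟩ := ih1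
    obtain ⟨B, h3, h4⟩ := ih2
    refine ⟨(rng G).filter (fun v => memb A v || memb B v),
      List.mem_flatMap.2 ⟨A, h1, List.mem_flatMap.2 ⟨B, h3, by simp⟩⟩, fun i => ?_⟩
    simp [hr, h2, h4]
  | inter _ _ ih1 ih2 =>
    obtain ⟨A, h1, h2⟩ := ih1
    obtain ⟨B, h3, h4⟩ := ih2
    refine ⟨(rng G).filter (fun v => memb A v && memb B v),
      List.mem_flatMap.2 ⟨A, h1, List.mem_flatMap.2 ⟨B, h3, by simp⟩⟩, fun i => ?_⟩
    simp [hr, h2, h4]
  | diff _ _ ih1 ih2 =>
    obtain ⟨A, h1, h2⟩ := ih1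
    obtain ⟨B, h3, h4⟩ := ih2
    refine ⟨(rng G).filter (fun v => memb A v && !memb B v),
      List.mem_flatMap.2 ⟨A, h1, List.mem_flatMap.2 ⟨B, h3, by simp⟩⟩, fun i => ?_⟩
    simp [hr, h2, h4]

/-- The cells of a slot. -/
def slot (s : Fin G.length → ℕ × Fin m) (a : ℕ) : Set Cell :=
  {x | ∃ j, (s j).1 = a ∧ x = ((j : ℕ), a, ((s j).2 : ℕ))}

/-- `w` schedules the jobs of an interval of `s` with first and last slot taken from `s`. -/
structure Chk (s : Fin G.length → ℕ × Fin m) (a e : ℕ) (w : List Cell) : Prop where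
  ok : ∀ x ∈ w, ∀ y ∈ w, POk G x y
  ins : ∀ x ∈ w, a ≤ x.2.1 ∧ x.2.1 < e ∧ x.2.2 < m ∧ (∃ j ∈ seg s a e, (j : ℕ) = x.1) ∧
    (x.2.1 = a → x ∈ slot s a) ∧ (x.2.1 + 1 = e → x ∈ slot s (e - 1))
  cov : ∀ j ∈ seg s a e, ∃ x ∈ w, x.1 = j
  len : w.length ≤ m * (e - a)

theorem chk_iff {s : Fin G.length → ℕ × Fin m} {a e : ℕ} {L R w : List Cell} {B : List ℕ}
    (hL : ∀ x, x ∈ L ↔ x ∈ slot s a) (hB : ∀ j : Fin G.length, (j : ℕ) ∈ B ↔ j ∈ seg s a e)
    (hB' : ∀ v ∈ B, v < G.length) (hR : ∀ x, x ∈ R ↔ x ∈ slot s (e - 1)) :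
    chk m G (a, e, L, B, R) w = true ↔ Chk s a e w := by
  have h1 : ∀ v, v ∈ B ↔ ∃ j ∈ seg s a e, (j : ℕ) = v := fun v =>
    ⟨fun h => ⟨⟨v, hB' v h⟩, (hB _).1 h, rfl⟩, by rintro ⟨j, h, rfl⟩; exact (hB j).2 h⟩
  simp only [chk, Bool.and_eq_true, ok_iff, List.all_eq_true, decide_eq_true_eq, memb_iff,
    List.any_eq_true, hL, hR, and_assoc, Bool.or_eq_true, Bool.not_eq_true',
    decide_eq_false_iff_not, ← imp_iff_not_or]
  constructor
  · rintro ⟨k1, k2, k3, k4⟩
    exact ⟨k1, fun x hx => by simpa only [h1] using k2 x hx, fun j hj => k3 j ((hB j).2 hj), k4⟩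
  · rintro ⟨k1, k2, k3, k4⟩
    refine ⟨k1, fun x hx => by simpa only [h1] using k2 x hx, fun v hv => ?_, k4⟩
    obtain ⟨j, hj, rfl⟩ := (h1 v).1 hv
    exact k3 j hj

theorem slots_complete {s : Fin G.length → ℕ × Fin m} (hv : Valid (rel G) s) {a : ℕ}
    (ha : a < G.length + 2) : ∃ L ∈ slots m G, L.length ≤ m ∧ ∀ x, x ∈ L ↔ x ∈ slot s a := by
  obtain ⟨W, hW, hc⟩ := seg_card hv.inj a 1
  have hl : (W.toList.map
      (fun j : Fin G.length => ((j.val, a, (s j).2.val) : Cell))).length ≤ m := by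
    rw [List.length_map, Finset.length_toList]
    omega
  refine ⟨_, ?_, hl, fun x => ?_⟩
  · rw [slots, mem_tup]
    refine ⟨hl, fun x hx => ?_⟩
    simp only [List.mem_map, Finset.mem_toList] at hx
    obtain ⟨j, -, rfl⟩ := hx
    simp only [cells, List.mem_flatMap, List.mem_map, mem_rng, mem_tms, List.mem_range]
    exact ⟨j, j.2, a, ha, _, (s j).2.2, rfl⟩
  · simp only [List.mem_map, Finset.mem_toList, hW, slot, Set.mem_ofPred_eq]
    exact exists_congr fun j => ⟨fun h => ⟨by omega, h.2.symm⟩, fun h => ⟨by omega, h.2.symm⟩⟩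

theorem arc_prec {s : Fin G.length → ℕ × Fin m} (hv : Valid (rel G) s) {i j : Fin G.length}
    (h : arcR G i j) : Prec (s i) (s j) := hv.prec i j (TransGen.single h)

theorem pok_slot {s : Fin G.length → ℕ × Fin m} (hv : Valid (rel G) s) {x y : Cell} {a b : ℕ}
    (hx : x ∈ slot s a) (hy : y ∈ slot s b) : POk G x y := by
  obtain ⟨i, rfl, rfl⟩ := hx
  obtain ⟨j, rfl, rfl⟩ := hy
  refine ⟨fun h => ?_, fun h => ?_, fun h => ?_⟩
  · obtain rfl : i = j := Fin.ext h
    rfl
  · simp only [Prod.mk.injEq] at h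
    exact congrArg Fin.val (hv.inj (Prod.ext h.1 (Fin.ext h.2)))
  · rcases arc_prec hv h with h | h
    · exact ⟨by dsimp only; omega, fun _ => h⟩
    · exact ⟨h.1, fun h' => absurd (congrArg Fin.val h.2) h'⟩

include hac in
theorem tstep_complete {t : ℕ} {tb : List (List Cell)} {s : Fin G.length → ℕ × Fin m}
    (hv : Valid (rel G) s) {a e : ℕ} (hae : a < e) (he : e < G.length + 2)
    (hB : Lv (rel G) (pri G) ((G.length + 1) * (G.length + 1)) t (seg s a e)) {w : List Cell}
    (hw : w ∈ cands m G tb) (h : Chk s a e w) : ∃ w' ∈ tstep m t G tb, Chk s a e w' := by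
  obtain ⟨L, h1, -, h2⟩ := slots_complete hv (a := a) (by omega)
  obtain ⟨R, h3, -, h4⟩ := slots_complete hv (a := e - 1) (by omega)
  obtain ⟨E, h5, h6⟩ := lv_complete hac hB
  obtain ⟨w', h7⟩ := first_ne (l := (cands m G tb).filter (fun w => chk m G (a, e, L, E, R) w))
    (List.mem_filter.2 ⟨hw, (chk_iff h2 h6 (lv_lt h5) h4).2 h⟩)
  refine ⟨w', List.mem_flatMap.2 ⟨(a, e, L, E, R), ?_, h7⟩,
    (chk_iff h2 h6 (lv_lt h5) h4).1 (List.mem_filter.1 (mem_first h7)).2⟩
  simp only [sts, List.mem_flatMap, List.mem_map, mem_tms]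
  exact ⟨a, by omega, e, he, L, h1, E, h5, R, h3, rfl⟩

theorem Dec.lt {J : Type} {F : Set J → Prop} {s : J → ℕ × Fin m} {a e : ℕ} (h : Dec F s a e) :
    a < e := by
  cases h <;> omega

include hac in
theorem table_complete {t : ℕ} {s : Fin G.length → ℕ × Fin m} (hv : Valid (rel G) s) {a e : ℕ}
    (hd : Dec (Lv (rel G) (pri G) ((G.length + 1) * (G.length + 1)) t) s a e) :
    e < G.length + 2 → ∀ i, e - a ≤ i → ∃ w ∈ (tstep m t G)^[i] [], Chk s a e w := by
  induction hd with
  | leaf a hF =>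
    intro he i hi
    obtain ⟨i, rfl⟩ : ∃ j, i = j + 1 := ⟨i - 1, by omega⟩
    rw [Function.iterate_succ_apply']
    obtain ⟨L, h1, h2, h3⟩ := slots_complete hv (a := a) (by omega)
    refine tstep_complete hac hv (by omega) he hF (List.mem_append_left _ h1)
      ⟨fun x hx y hy => pok_slot hv ((h3 x).1 hx) ((h3 y).1 hy), fun x hx => ?_, fun j hj => ?_,
        by simpa using h2⟩
    · have h4 := (h3 x).1 hx
      obtain ⟨j, h5, rfl⟩ := (h3 x).1 hx
      exact ⟨le_rfl, Nat.lt_succ_self _, (s j).2.2, ⟨j, ⟨by omega, by omega⟩, rfl⟩, fun _ => h4,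
        fun _ => h4⟩
    · exact ⟨_, (h3 _).2 ⟨j, by have := hj.1; have := hj.2; omega, rfl⟩, rfl⟩
  | node a z e h1 h2 _ _ hF ih₁ ih₂ =>
    intro he i hi
    obtain ⟨i, rfl⟩ : ∃ j, i = j + 1 := ⟨i - 1, by omega⟩
    rw [Function.iterate_succ_apply']
    obtain ⟨w₁, g1, c1⟩ := ih₁ (by omega) i (by omega)
    obtain ⟨w₂, g2, c2⟩ := ih₂ he i (by omega)
    refine tstep_complete hac hv (by omega) he hF (w := w₁ ++ w₂)
      (List.mem_append_right _ (List.mem_flatMap.2 ⟨w₁, g1, List.mem_map.2 ⟨w₂, g2, rfl⟩⟩)) ?_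
    have cross : ∀ x ∈ w₁, ∀ y ∈ w₂, POk G x y ∧ POk G y x := by
      intro x hx y hy
      obtain ⟨k1, k2, -, ⟨i, k3, k4⟩, -, k5⟩ := c1.ins x hx
      obtain ⟨l1, l2, -, ⟨j, l3, l4⟩, l5, -⟩ := c2.ins y hy
      by_cases hadj : x.2.1 + 1 = z ∧ y.2.1 = z
      · exact ⟨pok_slot hv (k5 hadj.1) (l5 hadj.2), pok_slot hv (l5 hadj.2) (k5 hadj.1)⟩
      have hne : x.1 ≠ y.1 := by
        intro h
        obtain rfl : i = j := Fin.ext (by omega)
        have := k3.2
        have := l3.1
        omega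
      refine ⟨⟨fun h => absurd h hne, fun h => ?_, fun _ => by omega⟩,
        fun h => absurd h.symm hne, fun h => ?_, fun h => ?_⟩
      · rw [h] at k2; omega
      · rw [h] at l1; omega
      · rw [← k4, ← l4] at h
        have := hv.lt (i := j) (j := i) (TransGen.single h)
        have := k3.2
        have := l3.1
        omega
    refine ⟨fun x hx y hy => ?_, fun x hx => ?_, fun j hj => ?_, ?_⟩
    · rcases List.mem_append.1 hx with hx | hx <;> rcases List.mem_append.1 hy with hy | hy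
      · exact c1.ok x hx y hy
      · exact (cross x hx y hy).1
      · exact (cross y hy x hx).2
      · exact c2.ok x hx y hy
    · rcases List.mem_append.1 hx with hx | hx
      · obtain ⟨k1, k2, k3, ⟨j, k4, k5⟩, k6, -⟩ := c1.ins x hx
        exact ⟨k1, by omega, k3, ⟨j, ⟨k4.1, by have := k4.2; omega⟩, k5⟩, k6,
          fun _ => by omega⟩
      · obtain ⟨k1, k2, k3, ⟨j, k4, k5⟩, -, k6⟩ := c2.ins x hx
        exact ⟨by omega, k2, k3, ⟨j, ⟨by have := k4.1; omega, k4.2⟩, k5⟩, fun _ => by omega, k6⟩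
    · by_cases k : (s j).1 < z
      · obtain ⟨x, k1, k2⟩ := c1.cov j ⟨hj.1, k⟩
        exact ⟨x, List.mem_append_left _ k1, k2⟩
      · obtain ⟨x, k1, k2⟩ := c2.cov j ⟨by omega, hj.2⟩
        exact ⟨x, List.mem_append_right _ k1, k2⟩
    · have k1 := c1.len
      have k2 := c2.len
      have k4 : e - a = (z - a) + (e - z) := by omega
      rw [k4, mul_add, List.length_append]
      omega

/-- `w` is a complete schedule in the slots before `T`. -/
def FChk (m : ℕ) (G : Gr) (T : ℕ) (w : List Cell) : Prop :=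
  (∀ x ∈ w, ∀ y ∈ w, POk G x y) ∧ (∀ x ∈ w, x.2.1 < T ∧ x.2.2 < m) ∧
    ∀ v < G.length, ∃ x ∈ w, x.1 = v

theorem fchk_iff {T : ℕ} {w : List Cell} : fchk m G T w = true ↔ FChk m G T w := by
  simp [fchk, FChk, ok_iff, mem_rng, and_assoc]

include hac in
theorem best_spec {σ : Fin G.length → ℕ × Fin m} {T : ℕ} (hv : Valid (rel G) σ) (hT0 : 0 < T)
    (hT : T ≤ G.length) (ht : ∀ j, (σ j).1 < T) : FChk m G T (best m (6 * m + 6) G) := by
  obtain ⟨s, hs, hst, hd⟩ := exists_dec (r := rel G) (π := pri G)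
    (K := (G.length + 1) * (G.length + 1))
    (fun _ _ _ h1 h2 => TransGen.trans h1 h2)
    (fun i j h => Fin.ext ((ctx m G hac).pr_inj i i.2 j j.2 h))
    (fun i j h => by
      have h1 := cnt_lt' hac h
      have := i.2
      have := j.2
      simp only [pri, prio_eq hac]
      nlinarith)
    (fun j => (ctx m G hac).pr_lt j j.2) hv hT0 ht
  obtain ⟨w, h1, h2⟩ := table_complete hac hs hd (by omega) (G.length + 1) (by omega)
  have h3 : FChk m G T w :=
    ⟨h2.ok, fun x hx => ⟨(h2.ins x hx).2.1, (h2.ins x hx).2.2.1⟩,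
      fun v hv' => h2.cov ⟨v, hv'⟩ ⟨Nat.zero_le _, hst _⟩⟩
  obtain ⟨T', h4, h5⟩ := head_flatMap
    (fun T => (table m (6 * m + 6) G).filter (fun w => fchk m G T w)) [] (T := T)
    (N := G.length + 2) (by omega)
    (List.ne_nil_of_mem (List.mem_filter.2 ⟨h1, fchk_iff.2 h3⟩))
  obtain ⟨k1, k2, k3⟩ := fchk_iff.1 (List.mem_filter.1 h5).2
  exact ⟨k1, fun x hx => by have := k2 x hx; omega, k3⟩

theorem valid_of_isSchedule {π : Fin G.length → Fin m} {S : Fin G.length → ℕ}
    (h : IsSchedule m G π S) : Valid (rel G) (fun j => (S j, π j)) := by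
  have key : ∀ u v, TransGen (arcR G) u v → ∀ (hu : u < G.length) (hv : v < G.length),
      Prec (S ⟨u, hu⟩, π ⟨u, hu⟩) (S ⟨v, hv⟩, π ⟨v, hv⟩) := by
    have one : ∀ i j : Fin G.length, arcR G i j → Prec (S i, π i) (S j, π j) := by
      intro i j g
      have g3 := h.2 i j ((arcR_fin i j).1 g)
      by_cases g4 : π i = π j
      · exact Or.inr ⟨g3.1 g4, g4⟩
      · exact Or.inl (g3.2 g4)
    intro u v huv
    induction huv with
    | single g => exact fun hu hv => one ⟨_, hu⟩ ⟨_, hv⟩ g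
    | tail _ g ih =>
      intro hu hv
      have g1 := ih hu (arcR_lt g).1
      have g2 := one ⟨_, (arcR_lt g).1⟩ ⟨_, hv⟩ g
      refine Or.inl ?_
      rcases g1 with g1 | g1 <;> rcases g2 with g2 | g2 <;> dsimp only at g1 g2 ⊢ <;> omega
  refine ⟨fun i j g => ?_, fun i j g => key i j g i.2 j.2⟩
  simp only [Prod.mk.injEq] at g
  exact h.1 i j g.2 g.1

theorem exists_small (hm : 0 < m) (hG : Acyclic G) :
    ∃ (π : Fin G.length → Fin m) (S : Fin G.length → ℕ), IsSchedule m G π S ∧
      ∀ j, S j < G.length := by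
  obtain ⟨σ, h1, h2⟩ := exists_seq hG.arcR hm
  refine ⟨fun j => ⟨σ.p j, h1.rng j j.2⟩, fun j => σ.t j - 1,
    ⟨fun i j g1 g2 => ?_, fun i j g => ?_⟩, fun j => ?_⟩
  · have := h2 i i.2
    have := h2 j j.2
    exact Fin.ext (h1.inj i i.2 j j.2 (by dsimp only at g2; omega) (congrArg Fin.val g1))
  · have g1 := h1.fwd i j ((arcR_fin i j).2 g)
    have := h2 i i.2
    refine ⟨fun _ => by dsimp only; omega, fun g2 => ?_⟩
    have := g1.2 (fun g3 => g2 (Fin.ext g3))
    dsimp only
    omega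
  · have := h2 j j.2
    dsimp only
    omega

theorem alg_spec (hm : 0 < m) (hG : Acyclic G) :
    ∃ (π : Fin G.length → Fin m) (S : Fin G.length → ℕ), IsSchedule m G π S ∧
      alg m (6 * m + 6) G = List.ofFn (fun j => ((π j : ℕ), S j)) ∧
      ∀ π' S', IsSchedule m G π' S' → makespan S ≤ makespan S' := by
  have hac := hG.arcR
  obtain ⟨π₀, S₀, h1, h2⟩ := exists_small hm hG
  rcases Nat.eq_zero_or_pos G.length with h0 | h0
  · obtain rfl : G = [] := List.length_eq_zero_iff.1 h0
    exact ⟨π₀, S₀, h1, by simp [alg, rng, urange, ulen], fun _ _ _ => by simp [makespan]⟩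
  obtain ⟨k1, k2, k3⟩ := best_spec hac (valid_of_isSchedule h1) h0 le_rfl h2
  have hl := fun j : Fin G.length => look_spec (k3 j j.2)
  refine ⟨fun j => ⟨(look (best m (6 * m + 6) G) j).2.2, (k2 _ (hl j).1).2⟩,
    fun j => (look (best m (6 * m + 6) G) j).2.1, ⟨fun i j g1 g2 => ?_, fun i j g => ?_⟩,
    ?_, fun π' S' g => ?_⟩
  · simp only [Fin.mk.injEq] at g1 g2
    have g5 := (k1 _ (hl i).1 _ (hl j).1).2.1 (Prod.ext g2 g1)
    rw [(hl i).2, (hl j).2] at g5
    exact Fin.ext g5
  · have g5 := (k1 _ (hl i).1 _ (hl j).1).2.2 (by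
      rw [(hl i).2, (hl j).2]; exact (arcR_fin i j).2 g)
    exact ⟨fun _ => g5.1, fun g6 => g5.2 (fun g7 => g6 (Fin.ext g7))⟩
  · apply List.ext_getElem
    · simp [alg, rng, urange, ulen]
    · intro i g1 g2
      simp [alg, rng, urange, ulen]
  · have key : ∀ T, FChk m G T (best m (6 * m + 6) G) →
        makespan (fun j : Fin G.length => (look (best m (6 * m + 6) G) j).2.1) ≤ T := by
      intro T hT
      exact Finset.sup_le (fun j _ => (hT.2.1 _ (hl j).1).1)
    have hS : ∀ j, S' j < makespan S' := fun j =>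
      Finset.le_sup (f := fun j => S' j + 1) (Finset.mem_univ j)
    by_cases hT : makespan S' ≤ G.length
    · exact key _ (best_spec hac (valid_of_isSchedule g)
        (lt_of_le_of_lt (Nat.zero_le _) (hS ⟨0, h0⟩)) hT hS)
    · exact (key _ ⟨k1, k2, k3⟩).trans (by omega)

end Pool.Agent.Lib.MP_caa638_lc.Poly
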