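import Pool.Agent.Lib.MP_caa638_lc.Core

/-!
The main step of the recursion: cut at the latest possible slot of the lowest free job.
-/

set_option autoImplicit false

namespace Pool.Agent.Lib.MP_caa638_lc

open Relation

variable {c : Ctx}

section aux

variable {σ : Sch} {a e e' k : ℕ} {X : Set ℕ} {l : List (Set ℕ)}

theorem St.succ_late (h : St c σ a e X l) (h1 : a < σ.t k)
    (hD : k ∉ Down c (win c σ e 3))
    (hmin : ∀ v < c.n, a < σ.t v → σ.t v < e → v ∉ Down c (win c σ e 3) →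
      rk c l k ≤ rk c l v) : ∀ s, c.arc k s → e + 3 ≤ σ.t s := by
  intro s hs
  have hs' := (c.arc_lt _ _ hs).2
  have h2 := (h.valid.fwd _ _ hs).1
  by_contra h3
  by_cases h4 : σ.t s < e
  · have h5 := hmin s hs' (by omega) h4 (fun ⟨w, hw, h6⟩ => hD ⟨w, hw, TransGen.head hs h6⟩)
    have := rk_arc (fun D hD => (h.cond D hD).lower) hs
    omega
  · exact hD ⟨s, mem_win.2 ⟨hs', by omega, by omega⟩, TransGen.single hs⟩

theorem right_up (hv : Valid c σ) (hk : k < c.n) (h1 : a < σ.t k) (hz : σ.t k = e' + 1)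
    (hs : ∀ s, c.arc k s → e + 3 ≤ σ.t s)
    (hmax : ∀ σ', Rearr c σ σ' a e → σ'.t k ≤ σ.t k) :
    ∀ j < c.n, e' + 1 < σ.t j → σ.t j < e → j ∈ Up c (win c σ e' 2) := by
  intro j
  induction ht : σ.t j using Nat.strong_induction_on generalizing j with
  | _ d ih =>
    intro hj h2 h3
    by_contra h4
    have h5 : Valid c (σ.swap k j) := by
      refine hv.swap hk hj (by omega) (fun s h5 => by have := hs s h5; omega) (fun q h5 => ?_)
      have h6 := (hv.fwd _ _ h5).1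
      have hq := (c.arc_lt _ _ h5).1
      by_contra h7
      apply h4
      by_cases h8 : σ.t q < e' + 2
      · exact Up.tail (mem_up_self (mem_win.2 ⟨hq, by omega, h8⟩)) (.single h5)
      · exact Up.tail (ih _ (by omega) q rfl hq (by omega) (by omega)) (.single h5)
    have h6 := hmax _ (Rearr.swap h5 (by omega) (by omega))
    simp only [Sch.swap, Equiv.swap_apply_left] at h6
    omega

theorem St.core_up (h : St c σ a e X l) (hk : k < c.n) (h1 : a < σ.t k) (h2 : σ.t k < e)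
    (hz : σ.t k = e' + 1) (hs : ∀ s, c.arc k s → e + 3 ≤ σ.t s)
    (hmax : ∀ σ', Rearr c σ σ' a e → σ'.t k ≤ σ.t k) :
    ∀ q < c.n, (σ.t q = e ∨ σ.t q = e + 1) → q ∈ un l → rk c l k < rk c l q →
      q ∈ Up c (win c σ e' 2) := by
  have hlow : ∀ D ∈ l, Lower c D := fun D hD => (h.cond D hD).lower
  intro q
  induction ht : σ.t q using Nat.strong_induction_on generalizing q with
  | _ d ih =>
    intro hq h3 h4 h5
    by_contra h6
    refine h.i2 σ (Rearr.refl h.valid _ _) k hk q hq h1 h2 (by omega) h4 h5 ?_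
    refine h.valid.swap hk hq (by omega) (fun s h7 => by have := hs s h7; omega) (fun x h7 => ?_)
    have h8 := (h.valid.fwd _ _ h7).1
    have hx := (c.arc_lt _ _ h7).1
    by_contra h9
    apply h6
    refine Up.tail ?_ (.single h7)
    by_cases g1 : σ.t x < e' + 2
    · exact mem_up_self (mem_win.2 ⟨hx, by omega, g1⟩)
    by_cases g2 : σ.t x < e
    · exact right_up h.valid hk h1 hz hs hmax x hx (by omega) g2
    · exact ih _ (by omega) x rfl hx (by omega) (Lower.un hlow _ _ h7 h4)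
        (h5.trans (rk_arc hlow h7))

theorem St.right (h : St c σ a e X l) (hk : k < c.n) (h1 : a < σ.t k) (h2 : σ.t k < e)
    (hs : ∀ s, c.arc k s → e + 3 ≤ σ.t s)
    (hmax : ∀ σ', Rearr c σ σ' a e → σ'.t k ≤ σ.t k) : ∃ X', St c σ (σ.t k) e X' l := by
  classical
  obtain ⟨e', hz⟩ : ∃ e', σ.t k = e' + 1 := ⟨σ.t k - 1, by omega⟩
  refine ⟨{v | false = true ∨ (v ∈ Up c (win c σ e' 2) ∧ v ∉ win c σ e' 2)}, h.valid, h2,
    fun v hv g => h.i1 v hv (by omega),
    ⟨false, _, win_sub _ _ _, win_card h.valid _ (by omega), rfl⟩, fun v hv g1 g2 => ?_,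
    fun v hv g => ?_, fun σ' hr k' hk' q hq g1 => ?_, h.cond, h.len, fun l₁ D l₂ g => ?_⟩
  · refine Or.inr ⟨right_up h.valid hk h1 hz hs hmax v hv (by omega) g2, fun g3 => ?_⟩
    have := mem_win.1 g3
    omega
  · rcases g with g | ⟨g1, g2⟩
    · simp at g
    · have := h.valid.up g1
      rw [mem_win] at g2
      by_contra g3
      exact g2 ⟨hv, this, by omega⟩
  · exact h.i2 σ' (hr.mono h1.le le_rfl) k' hk' q hq (by omega)
  · refine le_trans (Nat.mul_le_mul_right _ (Finset.card_le_card ?_)) (h.i4 l₁ D l₂ g)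
    exact Finset.monotone_filter_right _ (fun v _ g => ⟨by omega, g.2⟩)

theorem St.left_i1 (h : St c σ a e X l) (hk : k < c.n) (h1 : a < σ.t k) (h2 : σ.t k < e)
    (hz : σ.t k = e' + 1) (hD : k ∉ Down c (win c σ e 3))
    (hmin : ∀ v < c.n, a < σ.t v → σ.t v < e → v ∉ Down c (win c σ e 3) →
      rk c l k ≤ rk c l v)
    (hmax : ∀ σ', Rearr c σ σ' a e → σ'.t k ≤ σ.t k)
    (hN : ∀ v < c.n, rk c l k < rk c l v → v ∈ un l) {N : Set ℕ}
    (hl : ∀ v < c.n, v ∈ N ↔ rk c l k < rk c l v ∨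
      (v ∈ Down c (win c σ e 3) ∧ v ∉ Up c (win c σ e 3))) :
    (∀ v < c.n, a < σ.t v → ((v ∈ N ∧ v ∉ Up c (win c σ e' 2)) ↔ σ.t v < e')) ∧
      ∀ q < c.n, q ∈ N → (σ.t q = e' ∨ σ.t q = e' + 1) → σ.t q < e := by
  have hlow : ∀ D ∈ l, Lower c D := fun D hD => (h.cond D hD).lower
  have hs := h.succ_late h1 hD hmin
  refine ⟨fun v hv g => ⟨fun ⟨g1, g2⟩ => ?_, fun g1 => ⟨?_, fun g2 => ?_⟩⟩, fun q _ _ g => by omega⟩
  · have g3 : σ.t v < e := by
      rcases (hl v hv).1 g1 with g3 | ⟨⟨w, hw, g3⟩, g4⟩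
      · refine (h.i1 v hv g).1 ⟨hN v hv g3, fun ⟨q, hq, g4⟩ => g2 ?_⟩
        rw [mem_win] at hq
        have g5 := rk_le hlow g4
        exact Up.tail (h.core_up hk h1 h2 hz hs hmax q hq.1 (by omega)
          (hN q hq.1 (by omega)) (by omega)) g4
      · have := h.valid.lt g3
        rw [mem_win] at hw
        by_contra g5
        exact g4 (mem_up_self (mem_win.2 ⟨hv, by omega, by omega⟩))
    by_contra g4
    apply g2
    by_cases g5 : σ.t v < e' + 2
    · exact mem_up_self (mem_win.2 ⟨hv, by omega, g5⟩)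
    · exact right_up h.valid hk h1 hz hs hmax v hv (by omega) g3
  · rw [hl v hv]
    by_cases g2 : v ∈ Down c (win c σ e 3)
    · exact Or.inr ⟨g2, fun g3 => by have := h.valid.up g3; omega⟩
    · refine Or.inl (lt_of_le_of_ne (hmin v hv g (by omega) g2) (fun g3 => ?_))
      have := rk_inj l hk hv g3
      subst this
      omega
  · have := h.valid.up g2
    omega

end aux

theorem half {s : Finset ℕ} (P Q : ℕ → Prop) [DecidablePred P] [DecidablePred Q] :
    (s.filter (fun v => ¬ P v ∧ Q v)).card * 2 ≤ s.card ∨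
      (s.filter (fun v => ¬ Q v ∧ P v)).card * 2 ≤ s.card := by
  have h1 : (s.filter (fun v => ¬ P v ∧ Q v)).card ≤ (s.filter (fun v => ¬ P v)).card :=
    Finset.card_le_card (Finset.monotone_filter_right _ (fun v _ g => g.1))
  have h2 : (s.filter (fun v => ¬ Q v ∧ P v)).card ≤ (s.filter P).card :=
    Finset.card_le_card (Finset.monotone_filter_right _ (fun v _ g => g.2))
  have := Finset.card_filter_add_card_filter_not (s := s) P
  omega

theorem split_two {α : Type} {l₁ m₁ m₂ : List α} {x y D : α} (h : l₁ ++ [x, y] = m₁ ++ D :: m₂) :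
    (∃ E m, l₁ = m₁ ++ E :: m) ∨ m₁ = l₁ ∨ m₁ = l₁ ++ [x] := by
  induction l₁ generalizing m₁ with
  | nil =>
    match m₁, h with
    | [], _ => simp
    | [_], h => simp at h; simp [h.1]
    | _ :: _ :: _, h => simp at h
  | cons u l₁ ih =>
    cases m₁ with
    | nil => exact Or.inl ⟨u, l₁, rfl⟩
    | cons v m₁ =>
      simp only [List.cons_append, List.cons.injEq] at h
      obtain ⟨rfl, h⟩ := h
      rcases ih h with ⟨E, m, rfl⟩ | rfl | rfl
      · exact Or.inl ⟨E, m, rfl⟩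
      · simp
      · simp

theorem St.step {σ : Sch} {a e : ℕ} {X : Set ℕ} {l : List (Set ℕ)} (h : St c σ a e X l)
    (hex : ∃ k < c.n, a < σ.t k ∧ σ.t k < e ∧ k ∉ Down c (win c σ e 3)) :
    ∃ σ' z, Rearr c σ σ' a e ∧ a < z ∧ z < e ∧ (∃ X', St c σ' z e X' l) ∧
      ∀ e', z = e' + 1 → a < e' → ∃ l', St c σ' a e' X l' := by
  classical
  obtain ⟨k₀, hk₀⟩ := hex
  obtain ⟨k, ⟨hk, h1, h2, hD⟩, hmin⟩ := exists_min
    (fun k => k < c.n ∧ a < σ.t k ∧ σ.t k < e ∧ k ∉ Down c (win c σ e 3)) (rk c l) k₀ hk₀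
  obtain ⟨l₁, D, l₂, hl, hk1, hkD⟩ := exists_split ((h.i1 k hk h1).2 h2).1
  have hsp : ∀ v < c.n, rk c l k < rk c l v ↔ v ∈ un l₁ ∨ (v ∈ D ∧ c.pr k < c.pr v) :=
    fun v hv => hl ▸ rk_split l₁ l₂ D hk hv hk1 hkD
  have hN : ∀ v < c.n, rk c l k < rk c l v → v ∈ un l := by
    intro v hv g
    rw [hsp v hv] at g
    rw [hl]
    simp only [mem_un_append, mem_un_cons]
    tauto
  have hc1 : IsCond c {v | v ∈ D ∧ c.pr k < c.pr v} := (h.cond D (by simp [hl])).thr hk
  have hc2 : IsCond c {v | v ∈ Down c (win c σ e 3) ∧ v ∉ Up c (win c σ e 3)} :=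
    isCond_dn (win_sub _ _ _) (win_card h.valid _ le_rfl)
  obtain ⟨E₁, E₂, hE1, hE2, hE, hhalf⟩ : ∃ E₁ E₂ : Set ℕ, IsCond c E₁ ∧ IsCond c E₂ ∧
      (∀ v, (v ∈ E₁ ∨ v ∈ E₂) ↔ ((v ∈ D ∧ c.pr k < c.pr v) ∨
        (v ∈ Down c (win c σ e 3) ∧ v ∉ Up c (win c σ e 3)))) ∧
      (((Finset.range c.n).filter (fun v => a < σ.t v ∧ σ.t v < e ∧ v ∉ un l₁)).filter
        (fun v => ¬ v ∈ E₁ ∧ v ∈ E₂)).card * 2 ≤
      ((Finset.range c.n).filter (fun v => a < σ.t v ∧ σ.t v < e ∧ v ∉ un l₁)).card := by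
    rcases half (s := (Finset.range c.n).filter (fun v => a < σ.t v ∧ σ.t v < e ∧ v ∉ un l₁))
      (fun v => v ∈ {v | v ∈ D ∧ c.pr k < c.pr v})
      (fun v => v ∈ {v | v ∈ Down c (win c σ e 3) ∧ v ∉ Up c (win c σ e 3)}) with g | g
    · exact ⟨_, _, hc1, hc2, fun v => Iff.rfl, by convert g⟩
    · exact ⟨_, _, hc2, hc1, fun v => or_comm, by convert g⟩
  obtain ⟨σ₁, hr₁, hmax⟩ := exists_min (fun σ' => Rearr c σ σ' a e) (fun σ' => e - σ'.t k) σ
    (Rearr.refl h.valid _ _)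
  obtain ⟨σ₂, ⟨hr₂, hz₂⟩, hphi⟩ := exists_min (fun σ' => Rearr c σ σ' a e ∧ σ'.t k = σ₁.t k)
    (phi c (rk c (l₁ ++ [E₁, E₂])) (σ₁.t k - 1)) σ₁ ⟨hr₁, rfl⟩
  have h' := h.rearr hr₂
  have hw : win c σ₂ e 3 = win c σ e 3 := hr₂.win le_rfl _
  have tk := hr₂.ins k hk h1 h2
  have hmin' : ∀ v < c.n, a < σ₂.t v → σ₂.t v < e → v ∉ Down c (win c σ₂ e 3) →
      rk c l k ≤ rk c l v := by
    intro v hv g1 g2 g3
    have := hr₂.time hv
    exact hmin v ⟨hv, by omega, by omega, hw ▸ g3⟩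
  have hmax' : ∀ σ', Rearr c σ₂ σ' a e → σ'.t k ≤ σ₂.t k := by
    intro σ' g
    have g1 := hmax σ' (hr₂.trans g)
    have := g.ins k hk tk.1 tk.2
    omega
  have hD' : k ∉ Down c (win c σ₂ e 3) := hw ▸ hD
  refine ⟨σ₂, σ₂.t k, hr₂, tk.1, tk.2,
    h'.right hk tk.1 tk.2 (h'.succ_late tk.1 hD' hmin') hmax', fun e' hz hae => ?_⟩
  have hun : ∀ v < c.n, v ∈ un (l₁ ++ [E₁, E₂]) ↔ rk c l k < rk c l v ∨
      (v ∈ Down c (win c σ₂ e 3) ∧ v ∉ Up c (win c σ₂ e 3)) := by
    intro v hv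
    simp only [mem_un_append, mem_un_cons, mem_un_nil, or_false, hE, hsp v hv, hw, or_assoc]
  obtain ⟨g1, g2⟩ := h'.left_i1 hk tk.1 tk.2 hz hD' hmin' hmax' hN hun
  have hi4 := h.i4 l₁ D l₂ hl
  have hpos : 0 < ((Finset.range c.n).filter
      (fun v => a < σ.t v ∧ σ.t v < e ∧ v ∉ un l₁)).card :=
    Finset.card_pos.2 ⟨k, by simp [hk, h1, h2, hk1]⟩
  have hsub : ∀ m : List (Set ℕ), (Finset.range c.n).filter
      (fun v => a < σ₂.t v ∧ σ₂.t v < e' ∧ v ∉ un m) ⊆
      (Finset.range c.n).filter (fun v => a < σ.t v ∧ σ.t v < e ∧ v ∉ un m) := by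
    intro m
    refine Finset.monotone_filter_right _ (fun v hv g => ?_)
    have := hr₂.time (Finset.mem_range.1 hv)
    exact ⟨by omega, by omega, g.2.2⟩
  refine ⟨l₁ ++ [E₁, E₂], hr₂.valid, hae, g1, h.isX, fun v hv g3 g4 => h'.x1 v hv g3 (by omega),
    h'.x2, ?_, fun E hE' => ?_, ?_, fun m₁ E m₂ g3 => ?_⟩
  · refine i2_of_min (e := e) hae (by omega) (fun v hv g3 g4 => ((g1 v hv g3).2 g4).1)
      (fun σ' g3 g4 => ?_) g2
    have g5 := hphi σ' ⟨hr₂.trans g3, by
      rw [← hz₂]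
      refine g4 k hk (fun g6 => ?_)
      rcases (hun k hk).1 g6 with g7 | g7
      · exact lt_irrefl _ g7
      · exact hD' g7.1⟩
    have : σ₁.t k - 1 = e' := by omega
    rwa [this] at g5
  · simp only [List.mem_append, List.mem_cons, List.not_mem_nil, or_false] at hE'
    rcases hE' with g3 | rfl | rfl
    · exact h.cond E (by simp [hl, g3])
    · exact hE1
    · exact hE2
  · simp only [List.length_append, List.length_cons, List.length_nil]
    exact c.r_ge _ (le_trans (Nat.le_mul_of_pos_left _ hpos) hi4)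
  · rcases split_two g3 with ⟨F, m, rfl⟩ | rfl | rfl
    · exact le_trans (Nat.mul_le_mul_right _ (Finset.card_le_card (hsub _)))
        (h.i4 m₁ F (m ++ D :: l₂) (by simp [hl]))
    · exact le_trans (Nat.mul_le_mul_right _ (Finset.card_le_card (hsub _))) hi4
    · refine le_trans ?_ hi4
      rw [List.length_append, List.length_singleton, pow_succ', ← mul_assoc]
      refine Nat.mul_le_mul_right _ (le_trans (Nat.mul_le_mul_right _
        (Finset.card_le_card ?_)) hhalf)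
      intro v hv
      have g4 := hsub _ hv
      simp only [Finset.mem_filter, Finset.mem_range, mem_un_append, mem_un_cons, mem_un_nil,
        or_false, not_or] at hv g4 ⊢
      have g5 := ((g1 v hv.1 hv.2.1).2 hv.2.2.1).1
      simp only [mem_un_append, mem_un_cons, mem_un_nil, or_false] at g5
      tauto

theorem St.der {σ : Sch} {a e : ℕ} {X : Set ℕ} {l : List (Set ℕ)} (h : St c σ a e X l) :
    Der c σ a (e + 1) := by
  induction hd : e - a using Nat.strong_induction_on generalizing σ a e X l with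
  | _ d ih =>
    have hlt := h.lt
    by_cases hex : ∃ k < c.n, a < σ.t k ∧ σ.t k < e ∧ k ∉ Down c (win c σ e 3)
    · obtain ⟨σ', z, hr, h1, h2, ⟨X', h3⟩, h4⟩ := h.step hex
      refine Der.cut σ σ' a z (e + 1) (hr.mono le_rfl (by omega)) h1 (by omega) ?_
        (ih _ (by omega) h3 rfl) h.fam
      obtain ⟨e', rfl⟩ : ∃ e', z = e' + 1 := ⟨z - 1, by omega⟩
      by_cases h5 : a < e'
      · obtain ⟨l', h6⟩ := h4 e' rfl h5
        exact ih _ (by omega) h6 rfl
      · obtain rfl : e' = a := by omega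
        exact Der.base _ _
    · refine Der.cut σ σ a e (e + 1) (Rearr.refl h.valid _ _) hlt (by omega) ?_ (Der.base _ _)
        h.fam
      obtain ⟨e', rfl⟩ : ∃ e', e = e' + 1 := ⟨e - 1, by omega⟩
      by_cases h5 : a < e'
      · obtain ⟨σ', hr, h6⟩ := peel h.valid h5 h.isX h.x1 h.x2
          (isCond_dn (win_sub σ (e' + 1) 3) (win_card h.valid _ le_rfl)) (fun v hv g => by
            constructor
            · rintro ⟨⟨w, hw, g1⟩, g2⟩
              have := h.valid.lt g1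
              rw [mem_win] at hw
              by_contra g3
              exact g2 (mem_up_self (mem_win.2 ⟨hv, by omega, by omega⟩))
            · intro g1
              refine ⟨?_, fun g2 => by have := h.valid.up g2; omega⟩
              by_contra g2
              exact hex ⟨v, hv, g, g1, g2⟩)
        exact Der.of_rearr hr (ih _ (by omega) h6 rfl)
      · obtain rfl : e' = a := by omega
        exact Der.base _ _

/-- Every feasible schedule in the slots `1, …, T` can be cut recursively. -/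
theorem der_root {σ : Sch} {T : ℕ} (hv : Valid c σ) (ht : ∀ v < c.n, 0 < σ.t v ∧ σ.t v ≤ T) :
    Der c σ 0 (T + 1) := by
  rcases Nat.eq_zero_or_pos T with rfl | hT
  · exact Der.base _ _
  · obtain ⟨σ', hr, h⟩ := peel (X := {_v | true = true ∨ (_v ∈ Up c ∅ ∧ _v ∉ (∅ : Finset ℕ))})
      hv hT ⟨true, ∅, by simp, by simp, rfl⟩ (fun v _ _ _ => Or.inl rfl)
      (fun v hv' _ => (ht v hv').1) isCond_univ (fun v hv' _ => by
        have := ht v hv'
        simp only [Set.mem_univ, true_iff]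
        omega)
    exact Der.of_rearr hr h.der

end Pool.Agent.Lib.MP_caa638_lc
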